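import Pool.Agent.Lib.MP_dee884_lc.H1.Unif

/-!
# MP_dee884_lc, bounded multiplicity: the Boolean closure of the context-free languages
-/

namespace MPdee884H1

/-- the Boolean closure of the context-free languages -/
inductive BCF {A : Type} : Set (List A) → Prop
  | cf (L : Language A) : L.IsContextFree → BCF {x | x ∈ L}
  | compl {L : Set (List A)} : BCF L → BCF Lᶜ
  | union {L M : Set (List A)} : BCF L → BCF M → BCF (L ∪ M)

theorem BCF.rep {A : Type} {M : Set (List A)} (h : BCF M) :
    ∃ (ι : Type) (_ : Finite ι) (L : ι → Language A) (b : (ι → Prop) → Prop),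
      (∀ i, (L i).IsContextFree) ∧ ∀ x, x ∈ M ↔ b (fun i => x ∈ L i) := by
  induction h with
  | cf L hL =>
    exact ⟨Unit, inferInstance, fun _ => L, fun f => f (), fun _ => hL, fun x => Iff.rfl⟩
  | compl _ ih =>
    obtain ⟨ι, h1, L, b, h2, h3⟩ := ih
    refine ⟨ι, h1, L, fun f => ¬ b f, h2, ?_⟩
    intro x
    rw [Set.mem_compl_iff, h3]
  | union _ _ ih1 ih2 =>
    obtain ⟨ι, h1, L, b, h2, h3⟩ := ih1
    obtain ⟨ι', h1', L', b', h2', h3'⟩ := ih2
    refine ⟨ι ⊕ ι', inferInstance, Sum.elim L L', fun f => b (fun i => f (Sum.inl i)) ∨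
      b' (fun i => f (Sum.inr i)), ?_, ?_⟩
    · rintro (i | i)
      · exact h2 i
      · exact h2' i
    · intro x
      rw [Set.mem_union, h3, h3']
      rfl

/-- the number of marks of a track -/
def mu {Y : Type} (f : Y → Bool) (y : List Y) : List Unit :=
  y.flatMap (fun l => if f l = true then [()] else [])

theorem mu_length {Y : Type} (f : Y → Bool) (y : List Y) : (mu f y).length ≤ y.length := by
  unfold mu
  induction y with
  | nil => simp
  | cons a y ih =>
    rw [List.flatMap_cons, List.length_append, List.length_cons]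
    by_cases h : f a = true
    · simp only [h, if_true, List.length_cons, List.length_nil]
      omega
    · simp only [h]
      simp only [Bool.false_eq_true, if_false, List.length_nil]
      omega

theorem mu_map {Y Z : Type} (f : Y → Bool) (g : Z → Y) (z : List Z) :
    mu f (z.map g) = mu (fun l => f (g l)) z := by
  unfold mu
  rw [List.flatMap_map]

theorem exists_track {Y : Type} : ∀ (y : List Y) (s : List Unit), s.length ≤ y.length →
    ∃ v : List (Y × Bool), v.map Prod.fst = y ∧ mu Prod.snd v = s := by
  intro y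
  induction y with
  | nil =>
    intro s hs
    have : s = [] := List.length_eq_zero_iff.mp (by simpa using hs)
    subst this
    exact ⟨[], rfl, rfl⟩
  | cons a y ih =>
    intro s hs
    cases s with
    | nil =>
      obtain ⟨v, h1, h2⟩ := ih [] (by simp)
      exact ⟨(a, false) :: v, by simp [h1], by simpa [mu] using h2⟩
    | cons u s =>
      obtain ⟨v, h1, h2⟩ := ih s (by simpa using hs)
      refine ⟨(a, true) :: v, by simp [h1], ?_⟩
      have : mu Prod.snd ((a, true) :: v) = () :: mu Prod.snd v := by simp [mu]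
      rw [this, h2]

/-- the word for the clause number `s` -/
def clw (X : Type) (s : List Unit) : List (Kl X) := Sum.inl 0 :: un X s

/-- the word for the literal `t` with the sign `b` in the clause `s` -/
def liw (X : Type) (b : Bool) (s t : List Unit) : List (Kl X) :=
  Sum.inl (if b = true then 1 else 2) :: (un X s ++ Sum.inl 4 :: un X t)

theorem un_inj {X : Type} {s s' : List Unit} (h : un X s = un X s') : s = s' := by
  have := congrArg List.length h
  simp only [un, List.length_map] at this
  exact List.ext_getElem this (fun _ _ _ => rfl)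

theorem un_sep {X : Type} : ∀ (s s' : List Unit) (r r' : List (Kl X)),
    un X s ++ Sum.inl 4 :: r = un X s' ++ Sum.inl 4 :: r' → s = s' ∧ r = r' := by
  intro s
  induction s with
  | nil =>
    intro s' r r' h
    cases s' with
    | nil => simpa [un] using h
    | cons u s' => simp [un] at h
  | cons u s ih =>
    intro s' r r' h
    cases s' with
    | nil => simp [un] at h
    | cons u' s' =>
      have h' : un X s ++ Sum.inl 4 :: r = un X s' ++ Sum.inl 4 :: r' := by
        simpa [un] using h
      obtain ⟨h1, h2⟩ := ih s' r r' h'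
      exact ⟨by rw [h1], h2⟩

theorem mp_unit {Y X : Type} (f : Y → Bool) (y : List Y) :
    y.flatMap (fun l => if f l = true then [(Sum.inl 5 : Kl X)] else []) = un X (mu f y) := by
  unfold un mu
  rw [List.map_flatMap]
  congr 1
  funext l
  by_cases h : f l = true <;> simp [h]

/-- the evaluation with a given clause and a given literal -/
def W3 {A : Type} [DecidableEq A] (e : Kl (Th A) → List Bool) :
    Set (List (((A × Bool) × Bool) × Bool)) :=
  {v | ∀ b : Bool, liw (Th A) b (mu (fun l => l.1.2) v) (mu (fun l => l.2) v) ∈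
    Ent e (v.map (fun l => l.1.1.2)) →
      (Acc {q | blkw (mu (fun l => l.2) v) q ∈ Ent e (v.map (fun l => l.1.1.2))}
        (v.map (fun l => l.1.1.1)) ↔ b = true)}

theorem R0.w3 {A : Type} [Finite A] [DecidableEq A] (e : Kl (Th A) → List Bool) :
    R0 (((A × Bool) × Bool) × Bool) (W3 e) := by
  refine R0.congr (R0.iInter (ι := Bool) (fun b => {v | liw (Th A) b
    (mu (fun l => l.1.2) v) (mu (fun l => l.2) v) ∈ Ent e (v.map (fun l => l.1.1.2)) →
      (Acc {q | blkw (mu (fun l => l.2) v) q ∈ Ent e (v.map (fun l => l.1.1.2))}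
        (v.map (fun l => l.1.1.1)) ↔ b = true)}) ?_) (fun w => Iff.rfl)
  intro b
  have h1 := R0.ent (A := ((A × Bool) × Bool) × Bool) e
    [(fun _ => [], [Sum.inl (if b = true then 1 else 2)]),
      (fun l => if l.1.2 = true then [Sum.inl 5] else [], [Sum.inl 4]),
      (fun l => if l.2 = true then [Sum.inl 5] else [], [])]
    (fun l => [l.1.1.2]) (by simp)
  have h2 := R0.acc (Y := ((A × Bool) × Bool) × Bool) e (fun l => l.1.1.1)
    (fun l => l.1.1.2) (fun l => l.2)
  have h3 : R0 (((A × Bool) × Bool) × Bool)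
      {v | (Acc {q | blkw (mu (fun l => l.2) v) q ∈ Ent e (v.map (fun l => l.1.1.2))}
        (v.map (fun l => l.1.1.1)) ↔ b = true)} := by
    cases b with
    | true =>
      refine h2.congr ?_
      intro w
      simp only [Set.mem_ofPred_eq, iff_true]
      rfl
    | false =>
      refine h2.compl.congr ?_
      intro w
      simp only [Set.mem_compl_iff, Set.mem_ofPred_eq, Bool.false_eq_true, iff_false]
      rfl
  refine (R0.imp h1 h3).congr ?_
  intro v
  have e1 : mp [(fun _ => [], [Sum.inl (if b = true then 1 else 2)]),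
      (fun l : ((A × Bool) × Bool) × Bool => if l.1.2 = true then [Sum.inl 5] else [],
        [Sum.inl 4]),
      (fun l => if l.2 = true then [Sum.inl 5] else [], [])] v =
      liw (Th A) b (mu (fun l => l.1.2) v) (mu (fun l => l.2) v) := by
    have h0 : v.flatMap (fun _ : ((A × Bool) × Bool) × Bool => ([] : List (Kl (Th A)))) = [] := by
      simp
    unfold mp liw
    rw [List.flatMap_cons, List.flatMap_cons, List.flatMap_cons, List.flatMap_nil,
      mp_unit (X := Th A) (fun l : ((A × Bool) × Bool) × Bool => l.1.2) v,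
      mp_unit (X := Th A) (fun l : ((A × Bool) × Bool) × Bool => l.2) v, h0]
    simp only [List.nil_append, List.append_nil, List.cons_append, List.append_assoc]
  have e2 : v.flatMap (fun l => [l.1.1.2]) = v.map (fun l => l.1.1.2) := by
    clear e1
    induction v with
    | nil => rfl
    | cons b v ih => simp [ih]
  simp only [Set.mem_ofPred_eq, e1, e2]

/-- the evaluation with a given clause -/
def W2 {A : Type} [DecidableEq A] (e : Kl (Th A) → List Bool) :
    Set (List ((A × Bool) × Bool)) :=
  {v | clw (Th A) (mu (fun l => l.2) v) ∈ Ent e (v.map (fun l => l.1.2)) ∧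
    ∀ w : List (((A × Bool) × Bool) × Bool), w.map Prod.fst = v → w ∈ W3 e}

theorem R0.w2 {A : Type} [Finite A] [DecidableEq A] (e : Kl (Th A) → List Bool) :
    R0 ((A × Bool) × Bool) (W2 e) := by
  have h1 := R0.ent (A := (A × Bool) × Bool) e
    [(fun _ => [], [Sum.inl 0]), (fun l => if l.2 = true then [Sum.inl 5] else [], [])]
    (fun l => [l.1.2]) (by simp)
  refine (R0.inter h1 (R0.all Prod.fst (R0.w3 e))).congr ?_
  intro v
  have e1 : mp [(fun _ => [], [Sum.inl 0]),
      (fun l : (A × Bool) × Bool => if l.2 = true then [Sum.inl 5] else [], [])] v =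
      clw (Th A) (mu (fun l => l.2) v) := by
    have h0 : v.flatMap (fun _ : (A × Bool) × Bool => ([] : List (Kl (Th A)))) = [] := by
      simp
    unfold mp clw
    rw [List.flatMap_cons, List.flatMap_cons, List.flatMap_nil,
      mp_unit (X := Th A) (fun l : (A × Bool) × Bool => l.2) v, h0]
    simp only [List.nil_append, List.append_nil, List.cons_append]
  have e2 : v.flatMap (fun l => [l.1.2]) = v.map (fun l => l.1.2) := by
    clear e1
    induction v with
    | nil => rfl
    | cons b v ih => simp [ih]
  simp only [Set.mem_inter_iff, Set.mem_ofPred_eq, e1, e2, W2]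

/-- the evaluation of the Boolean combinations of context-free languages -/
def W1 {A : Type} [DecidableEq A] (e : Kl (Th A) → List Bool) : Set (List (A × Bool)) :=
  {y | ∃ v ∈ W2 e, v.map Prod.fst = y}

theorem R0.w1 {A : Type} [Finite A] [DecidableEq A] (e : Kl (Th A) → List Bool) :
    R0 (A × Bool) (W1 e) := R0.img Prod.fst (R0.w2 e)

theorem mem_W1 {A : Type} [DecidableEq A] (e : Kl (Th A) → List Bool) (x : List A)
    (c : List Bool) (hx : x.length = c.length) :
    x.zip c ∈ W1 e ↔ ∃ s : List Unit, s.length ≤ x.length ∧ clw (Th A) s ∈ Ent e c ∧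
      ∀ t : List Unit, t.length ≤ x.length → ∀ b : Bool, liw (Th A) b s t ∈ Ent e c →
        (Acc {q | blkw t q ∈ Ent e c} x ↔ b = true) := by
  have k1 : (x.zip c).map Prod.fst = x := List.map_fst_zip (by omega)
  have k2 : (x.zip c).map Prod.snd = c := List.map_snd_zip (by omega)
  have k3 : (x.zip c).length = x.length := by simp [hx]
  have key1 : ∀ v : List ((A × Bool) × Bool), v.map Prod.fst = x.zip c →
      v.map (fun l => l.1.2) = c ∧ v.map (fun l => l.1.1) = x := by
    intro v hv
    constructor
    · rw [← k2, ← hv, List.map_map]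
      rfl
    · rw [← k1, ← hv, List.map_map]
      rfl
  have key2 : ∀ (v : List ((A × Bool) × Bool)) (w : List (((A × Bool) × Bool) × Bool)),
      v.map Prod.fst = x.zip c → w.map Prod.fst = v →
      w.map (fun l => l.1.1.2) = c ∧ w.map (fun l => l.1.1.1) = x ∧
        mu (fun l => l.1.2) w = mu Prod.snd v := by
    intro v w hv hw
    obtain ⟨g1, g2⟩ := key1 v hv
    refine ⟨?_, ?_, ?_⟩
    · rw [← g1, ← hw, List.map_map]
      rfl
    · rw [← g2, ← hw, List.map_map]
      rfl
    · rw [← hw, mu_map]
  constructor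
  · rintro ⟨v, ⟨h1, h2⟩, hv⟩
    obtain ⟨g1, g2⟩ := key1 v hv
    have g3 : v.length = x.length := by rw [← k3, ← hv, List.length_map]
    refine ⟨mu (fun l => l.2) v, ?_, ?_, ?_⟩
    · rw [← g3]
      exact mu_length _ _
    · rw [g1] at h1
      exact h1
    · intro t ht b hb
      obtain ⟨w, hw1, hw2⟩ := exists_track v t (by omega)
      obtain ⟨g4, g5, g6⟩ := key2 v w hv hw1
      have h3 := h2 w hw1 b
      rw [g4, g5, g6] at h3
      have hw2' : mu (fun l => l.2) w = t := hw2
      rw [hw2'] at h3
      exact h3 hb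
  · rintro ⟨s, h1, h2, h3⟩
    obtain ⟨v, hv1, hv2⟩ := exists_track (x.zip c) s (by omega)
    obtain ⟨g1, g2⟩ := key1 v hv1
    have g3 : v.length = x.length := by rw [← k3, ← hv1, List.length_map]
    refine ⟨v, ⟨?_, ?_⟩, hv1⟩
    · rw [g1]
      have hv2' : mu (fun l => l.2) v = s := hv2
      rw [hv2']
      exact h2
    · intro w hw b hb
      obtain ⟨g4, g5, g6⟩ := key2 v w hv1 hw
      have g7 : w.length = x.length := by rw [← g3, ← hw, List.length_map]
      have hlen0 := mu_length (fun l : ((A × Bool) × Bool) × Bool => l.2) w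
      have hlen : (mu (fun l : ((A × Bool) × Bool) × Bool => l.2) w).length ≤ x.length := by
        omega
      rw [g4, g6, hv2] at hb
      have h4 := h3 (mu (fun l : ((A × Bool) × Bool) × Bool => l.2) w) hlen b hb
      rw [g4, g5]
      exact h4

/-- unary number -/
def nu (n : ℕ) : List Unit := List.replicate n ()

theorem nu_inj {n m : ℕ} (h : nu n = nu m) : n = m := by
  have := congrArg List.length h
  simpa [nu] using this

/-- uniform evaluation of the Boolean combinations of context-free languages -/
theorem bcf_correct {A : Type} [Finite A] [DecidableEq A] {M : Set (List A)} (hM : BCF M)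
    (e : Kl (Th A) → List Bool) :
    ∃ (F : Set (List (Kl (Th A)))) (n0 : ℕ), F.Finite ∧ (∀ w ∈ F, w ≠ []) ∧
      ∀ c : List Bool, n0 ≤ c.length → (∀ w, w ≠ [] → (w ∈ Ent e c ↔ w ∈ F)) →
        ∀ x : List A, x.length = c.length → (x ∈ M ↔ x.zip c ∈ W1 e) := by
  classical
  obtain ⟨ι, hι, L, b, hL, hb⟩ := hM.rep
  have hB : ∀ i, ∃ (B : Set (List (Tm A))) (n0 : ℕ), B.Finite ∧ (∀ q ∈ B, q ≠ []) ∧
      ∀ P : Set (List (Tm A)), (∀ q, q ≠ [] → (q ∈ P ↔ q ∈ B)) →
        ∀ x : List A, n0 ≤ x.length → (x ∈ L i ↔ Acc P x) := by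
    intro i
    obtain ⟨g, hg⟩ := hL i
    obtain ⟨B, n0, h1, h2, h3⟩ := acc_correct g
    refine ⟨B, n0, h1, h2, ?_⟩
    rw [← hg]
    exact h3
  choose B n0 hB1 hB2 hB3 using hB
  obtain ⟨N1, ⟨f1⟩⟩ := Finite.exists_equiv_fin (ι → Bool)
  obtain ⟨N2, ⟨f2⟩⟩ := Finite.exists_equiv_fin ι
  have : Fintype ι := Fintype.ofFinite ι
  let F1 : Set (List (Kl (Th A))) := {w | ∃ t : ι → Bool, b (fun i => t i = true) ∧
    w = clw (Th A) (nu (f1 t).1)}
  let F2 : Set (List (Kl (Th A))) := {w | ∃ (t : ι → Bool) (i : ι), b (fun i => t i = true) ∧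
    w = liw (Th A) (t i) (nu (f1 t).1) (nu (f2 i).1)}
  let F3 : Set (List (Kl (Th A))) := {w | ∃ i, ∃ q ∈ B i, w = blkw (nu (f2 i).1) q}
  have hF1 : F1.Finite := by
    refine Set.Finite.subset (Set.finite_range (fun t : ι → Bool => clw (Th A) (nu (f1 t).1))) ?_
    rintro w ⟨t, _, rfl⟩
    exact ⟨t, rfl⟩
  have hF2 : F2.Finite := by
    refine Set.Finite.subset (Set.finite_range (fun p : (ι → Bool) × ι =>
      liw (Th A) (p.1 p.2) (nu (f1 p.1).1) (nu (f2 p.2).1))) ?_
    rintro w ⟨t, i, _, rfl⟩
    exact ⟨(t, i), rfl⟩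
  have hF3 : F3.Finite := by
    refine Set.Finite.subset (Set.finite_iUnion (fun i => (hB1 i).image
      (fun q => (blkw (nu (f2 i).1) q : List (Kl (Th A)))))) ?_
    rintro w ⟨i, q, hq, rfl⟩
    simp only [Set.mem_iUnion]
    exact ⟨i, q, hq, rfl⟩
  refine ⟨F1 ∪ (F2 ∪ F3), Finset.univ.sup n0 + N1 + N2, hF1.union (hF2.union hF3), ?_, ?_⟩
  · rintro w (⟨t, _, rfl⟩ | ⟨t, i, _, rfl⟩ | ⟨i, q, _, rfl⟩)
    · simp [clw]
    · simp [liw]
    · simp [blkw]
  · intro c hc hE x hx
    have hn0 : ∀ i, n0 i ≤ x.length := by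
      intro i
      have := Finset.le_sup (f := n0) (Finset.mem_univ i)
      omega
    have k1 : ∀ s, clw (Th A) s ∈ Ent e c ↔
        ∃ t : ι → Bool, b (fun i => t i = true) ∧ s = nu (f1 t).1 := by
      intro s
      rw [hE _ (by simp [clw])]
      constructor
      · rintro (⟨t, h1, h2⟩ | ⟨t, i, _, h2⟩ | ⟨i, q, _, h2⟩)
        · refine ⟨t, h1, ?_⟩
          simp only [clw, List.cons.injEq, true_and] at h2
          exact un_inj h2
        · exfalso
          simp only [clw, liw, List.cons.injEq, Sum.inl.injEq] at h2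
          have := h2.1
          split_ifs at this <;> simp at this
        · exfalso
          simp only [clw, blkw, List.cons.injEq, Sum.inl.injEq] at h2
          simp at h2
      · rintro ⟨t, h1, rfl⟩
        exact Or.inl ⟨t, h1, rfl⟩
    have k2 : ∀ sg s u, liw (Th A) sg s u ∈ Ent e c ↔
        ∃ (t : ι → Bool) (i : ι), b (fun i => t i = true) ∧ s = nu (f1 t).1 ∧
          u = nu (f2 i).1 ∧ sg = t i := by
      intro sg s u
      rw [hE _ (by simp [liw])]
      constructor
      · rintro (⟨t, _, h2⟩ | ⟨t, i, h1, h2⟩ | ⟨i, q, _, h2⟩)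
        · exfalso
          simp only [clw, liw, List.cons.injEq, Sum.inl.injEq] at h2
          have := h2.1
          split_ifs at this <;> simp at this
        · simp only [liw, List.cons.injEq, Sum.inl.injEq] at h2
          obtain ⟨h3, h4⟩ := h2
          obtain ⟨h5, h6⟩ := un_sep _ _ _ _ h4
          refine ⟨t, i, h1, h5, un_inj h6, ?_⟩
          cases sg <;> cases hti : t i <;> simp_all
        · exfalso
          simp only [liw, blkw, List.cons.injEq, Sum.inl.injEq] at h2
          have := h2.1
          split_ifs at this <;> simp at this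
      · rintro ⟨t, i, h1, rfl, rfl, rfl⟩
        exact Or.inr (Or.inl ⟨t, i, h1, rfl⟩)
    have k3 : ∀ i x, n0 i ≤ x.length →
        (Acc {q | blkw (nu (f2 i).1) q ∈ Ent e c} x ↔ x ∈ L i) := by
      intro i x hx
      refine (hB3 i _ ?_ x hx).symm
      intro q hq
      simp only [Set.mem_ofPred_eq]
      rw [hE _ (by simp [blkw])]
      constructor
      · rintro (⟨t, _, h2⟩ | ⟨t, i, _, h2⟩ | ⟨j, q', h1, h2⟩)
        · exfalso
          simp only [clw, blkw, List.cons.injEq, Sum.inl.injEq] at h2
          simp at h2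
        · exfalso
          simp only [liw, blkw, List.cons.injEq, Sum.inl.injEq] at h2
          have := h2.1
          split_ifs at this <;> simp at this
        · simp only [blkw, List.cons.injEq, true_and] at h2
          obtain ⟨h3, h4⟩ := un_sep _ _ _ _ h2
          have h5 := nu_inj h3
          have h6 : i = j := f2.injective (Fin.ext h5)
          have h7 : q = q' := List.map_injective_iff.mpr Sum.inr_injective h4
          rw [h6, h7]
          exact h1
      · intro h
        exact Or.inr (Or.inr ⟨i, q, h, rfl⟩)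
    rw [mem_W1 e x c hx, hb]
    constructor
    · intro hbx
      let t : ι → Bool := fun i => decide (x ∈ L i)
      have ht : (fun i => t i = true) = (fun i => x ∈ L i) := by
        funext i
        simp [t]
      refine ⟨nu (f1 t).1, ?_, (k1 _).mpr ⟨t, by rw [ht]; exact hbx, rfl⟩, ?_⟩
      · have := (f1 t).2
        simp only [nu, List.length_replicate]
        omega
      · intro u _ sg hu
        obtain ⟨t', i, _, h2, rfl, rfl⟩ := (k2 _ _ _).mp hu
        have h4 : t = t' := f1.injective (Fin.ext (nu_inj h2))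
        subst h4
        rw [k3 i x (hn0 i)]
        simp [t]
    · rintro ⟨s, _, hs, h2⟩
      obtain ⟨t, ht, rfl⟩ := (k1 s).mp hs
      have h3 : (fun i => x ∈ L i) = (fun i => t i = true) := by
        funext i
        have := h2 (nu (f2 i).1) (by
          have := (f2 i).2
          simp only [nu, List.length_replicate]
          omega) (t i) ((k2 _ _ _).mpr ⟨t, i, ht, rfl, rfl, rfl⟩)
        rw [k3 i x (hn0 i)] at this
        exact propext this
      rw [h3]
      exact ht

end MPdee884H1
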