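import Pool.Agent.Lib.MP_dee884_lc.H1.Ent

/-!
# MP_dee884_lc, bounded multiplicity: words cut into blocks by marks
-/

namespace MPdee884H1

variable {X : Type}

/-- mark the first letter of a word by `j`, the other letters by `0` -/
def markw (j : Fin 3) : List X → List (X × Fin 3)
  | [] => []
  | a :: w => (a, j) :: w.map (fun b => (b, 0))

theorem map_fst_markw (j : Fin 3) (w : List X) : (markw j w).map Prod.fst = w := by
  cases w with
  | nil => rfl
  | cons a w => simp [markw, Function.comp_def]

/-- a block: a marked letter and then unmarked letters -/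
def IsB (q : List (X × Fin 3)) : Prop :=
  ∃ a j q', j ≠ 0 ∧ q = (a, j) :: q' ∧ ∀ x ∈ q', x.2 = (0 : Fin 3)

/-- the empty word or a word which starts with a marked letter -/
def NextB (r : List (X × Fin 3)) : Prop :=
  r = [] ∨ ∃ a j r', j ≠ (0 : Fin 3) ∧ r = (a, j) :: r'

theorem isB_markw {j : Fin 3} (hj : j ≠ 0) {w : List X} (hw : w ≠ []) : IsB (markw j w) := by
  cases w with
  | nil => exact absurd rfl hw
  | cons a w =>
    refine ⟨a, j, w.map (fun b => (b, 0)), hj, rfl, ?_⟩
    intro x hx
    obtain ⟨b, _, rfl⟩ := List.mem_map.mp hx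
    rfl

theorem IsB.nextB {q : List (X × Fin 3)} (h : IsB q) (r : List (X × Fin 3)) :
    NextB (q ++ r) := by
  obtain ⟨a, j, q', hj, rfl, _⟩ := h
  exact Or.inr ⟨a, j, q' ++ r, hj, rfl⟩

theorem nextB_flatten {W : List (List (X × Fin 3))} (h : ∀ w ∈ W, IsB w) :
    NextB W.flatten := by
  cases W with
  | nil => left; rfl
  | cons w W => exact (h w (by simp)).nextB _

/-- a word all of whose blocks are in `B` is a product of words of `B` -/
theorem exists_blocks (B : Set (List (X × Fin 3))) : ∀ (n : ℕ) (z : List (X × Fin 3)),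
    z.length ≤ n → NextB z → (∀ p q r, z = p ++ q ++ r → IsB q → NextB r → q ∈ B) →
      ∃ W : List (List (X × Fin 3)), z = W.flatten ∧ ∀ w ∈ W, w ∈ B ∧ IsB w := by
  intro n
  induction n with
  | zero =>
    intro z hz _ _
    have : z = [] := List.length_eq_zero_iff.mp (by omega)
    subst this
    exact ⟨[], rfl, by simp⟩
  | succ n ih =>
    intro z hz hN hB
    rcases hN with rfl | ⟨a, j, z0, hj, rfl⟩
    · exact ⟨[], rfl, by simp⟩
    · have e : z0.takeWhile (fun x => decide (x.2 = 0)) ++
          z0.dropWhile (fun x => decide (x.2 = 0)) = z0 := List.takeWhile_append_dropWhile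
      have hq : IsB ((a, j) :: z0.takeWhile (fun x => decide (x.2 = 0))) := by
        refine ⟨a, j, _, hj, rfl, ?_⟩
        intro x hx
        have := List.mem_takeWhile_imp hx
        simpa using this
      have hr : NextB (z0.dropWhile (fun x => decide (x.2 = 0))) := by
        cases hd : z0.dropWhile (fun x => decide (x.2 = 0)) with
        | nil => left; rfl
        | cons y r' =>
          right
          refine ⟨y.1, y.2, r', ?_, rfl⟩
          have h1 : z0.dropWhile (fun x => decide (x.2 = 0)) ≠ [] := by rw [hd]; simp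
          have h2 := List.head_dropWhile_not (fun x : X × Fin 3 => decide (x.2 = 0)) h1
          simp only [hd, List.head_cons, decide_eq_false_iff_not] at h2
          exact h2
      obtain ⟨W, hW1, hW2⟩ := ih (z0.dropWhile (fun x => decide (x.2 = 0))) (by
          have := congrArg List.length e
          simp only [List.length_append] at this
          simp only [List.length_cons] at hz
          omega) hr (by
          intro p q r h h1 h2
          refine hB ((a, j) :: z0.takeWhile (fun x => decide (x.2 = 0)) ++ p) q r ?_ h1 h2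
          have e3 : (a, j) :: z0 = (a, j) :: (z0.takeWhile (fun x => decide (x.2 = 0)) ++
            z0.dropWhile (fun x => decide (x.2 = 0))) := by rw [e]
          rw [e3, h]
          simp only [List.cons_append, List.append_assoc])
      refine ⟨((a, j) :: z0.takeWhile (fun x => decide (x.2 = 0))) :: W, ?_, ?_⟩
      · rw [List.flatten_cons, ← hW1, List.cons_append, e]
      · intro w hw
        rcases List.mem_cons.mp hw with rfl | hw
        · refine ⟨hB [] _ _ ?_ hq hr, hq⟩
          rw [List.nil_append, List.cons_append, e]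
        · exact hW2 w hw

theorem block_uniq {q r w s : List (X × Fin 3)} (hq : IsB q) (hr : NextB r) (hw : IsB w)
    (hs : NextB s) (h : q ++ r = w ++ s) : q = w := by
  have key : ∀ {q' r w' s : List (X × Fin 3)}, NextB r → (∀ x ∈ w', x.2 = (0 : Fin 3)) →
      ∀ t, w' = q' ++ t → r = t ++ s → q' = w' := by
    intro q' r w' s hr hw' t h1 h2
    cases t with
    | nil => simpa using h1.symm
    | cons y t =>
      exfalso
      rcases hr with rfl | ⟨a, j, r', hj, rfl⟩
      · simp at h2
      · simp only [List.cons_append, List.cons.injEq] at h2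
        have := hw' y (by rw [h1]; simp)
        rw [← h2.1] at this
        exact hj this
  obtain ⟨a, j, q', hj, rfl, hq'⟩ := hq
  obtain ⟨b, i, w', hi, rfl, hw'⟩ := hw
  simp only [List.cons_append, List.cons.injEq] at h
  obtain ⟨h0, h⟩ := h
  rw [h0]
  congr 1
  rcases List.append_eq_append_iff.mp h with ⟨t, h1, h2⟩ | ⟨t, h1, h2⟩
  · exact key hr hw' t h1 h2
  · exact (key hs hq' t h1 h2).symm

/-- the blocks of a product of blocks are the factors -/
theorem block_mem (W : List (List (X × Fin 3))) (hW : ∀ w ∈ W, IsB w) :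
    ∀ p q r, W.flatten = p ++ q ++ r → IsB q → NextB r → q ∈ W := by
  induction W with
  | nil =>
    intro p q r h hq _
    exfalso
    obtain ⟨a, j, q', _, rfl, _⟩ := hq
    have := congrArg List.length h
    simp at this
  | cons w W ih =>
    intro p q r h hq hr
    have hw := hW w (by simp)
    have hW' : ∀ w ∈ W, IsB w := fun w h => hW w (by simp [h])
    rw [List.flatten_cons, List.append_assoc] at h
    rcases List.append_eq_append_iff.mp h with ⟨t, h1, h2⟩ | ⟨t, h1, h2⟩
    · have := ih hW' t q r (by rw [h2]; simp) hq hr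
      simp [this]
    · cases p with
      | nil =>
        simp only [List.nil_append] at h1 h
        have := block_uniq hq hr hw (nextB_flatten hW') h.symm
        simp [this]
      | cons y p =>
        obtain ⟨a, j, q', hj, rfl, hq'⟩ := hq
        obtain ⟨b, i, w', hi, rfl, hw'⟩ := hw
        cases t with
        | nil =>
          simp only [List.nil_append] at h2
          have := ih hW' [] ((a, j) :: q') r (by simpa using h2.symm)
            ⟨a, j, q', hj, rfl, hq'⟩ hr
          simp [this]
        | cons y' t =>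
          exfalso
          simp only [List.cons_append, List.cons.injEq] at h1 h2
          have := hw' y' (by rw [h1.2]; simp)
          rw [← h2.1] at this
          exact hj this

/-! ### the properties are in `R0` -/

theorem R0.nil {A : Type} [Finite A] : R0 A {w | w = []} := by
  refine (R0.eqc (A := A) [] (fun x => [x])).congr ?_
  intro w
  simp

theorem R0.forallLetter {A : Type} [Finite A] (P : A → Prop) : R0 A {w | ∀ x ∈ w, P x} := by
  classical
  refine (R0.eqc (A := A) (B := Unit) [] (fun x => if P x then [] else [()])).congr ?_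
  intro w
  simp only [Set.mem_ofPred_eq, List.flatMap_eq_nil_iff]
  refine forall_congr' (fun x => forall_congr' (fun _ => ?_))
  by_cases h : P x
  · simp [h]
  · simp [h]

theorem R0.singleLetter {A : Type} [Finite A] (P : A → Prop) :
    R0 A {w | ∃ a, P a ∧ w = [a]} := by
  have h1 : ∀ y : {y : A // P y}, R0 A {w | w = [y.1]} := by
    intro y
    refine (R0.eqc (A := A) [y.1] (fun x => [x])).congr ?_
    intro w
    have e2 : w.flatMap (fun x : A => [x]) = w := by
      induction w with
      | nil => rfl
      | cons a w ih => simp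
    simp only [Set.mem_ofPred_eq, e2]
  refine (R0.iUnion _ h1).congr ?_
  intro w
  simp only [Set.mem_ofPred_eq, Subtype.exists, exists_prop]

/-- a letter with the property `P` and then letters with the property `Q` -/
theorem R0.headTail {A : Type} [Finite A] (P Q : A → Prop) :
    R0 A {w | ∃ a w', P a ∧ w = a :: w' ∧ ∀ x ∈ w', Q x} := by
  refine (R0.split (((R0.singleLetter P).ofPart 0).inter
    (((R0.forallLetter Q).ofPart 1).inter ((R0.nil (A := A)).ofPart 2)))).congr ?_
  intro w
  simp only [Set.mem_ofPred_eq, Set.mem_inter_iff, part_mark0, part_mark1, part_mark2]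
  constructor
  · rintro ⟨p, q, r, rfl, ⟨a, ha, rfl⟩, hq, rfl⟩
    exact ⟨a, q, ha, by simp, hq⟩
  · rintro ⟨a, w', ha, rfl, hw⟩
    exact ⟨[a], w', [], by simp, ⟨a, ha, rfl⟩, hw, rfl⟩

theorem R0.isB [Finite X] : R0 (X × Fin 3) {q | IsB q} := by
  refine (R0.headTail (A := X × Fin 3) (fun x => x.2 ≠ 0) (fun x => x.2 = 0)).congr ?_
  intro w
  simp only [Set.mem_ofPred_eq, IsB]
  constructor
  · rintro ⟨a, w', ha, rfl, hw⟩
    exact ⟨a.1, a.2, w', ha, rfl, hw⟩
  · rintro ⟨a, j, w', ha, rfl, hw⟩
    exact ⟨(a, j), w', ha, rfl, hw⟩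

theorem R0.nextB [Finite X] : R0 (X × Fin 3) {q | NextB q} := by
  refine ((R0.nil (A := X × Fin 3)).union
    (R0.headTail (A := X × Fin 3) (fun x => x.2 ≠ 0) (fun _ => True))).congr ?_
  intro w
  simp only [Set.mem_union, Set.mem_ofPred_eq, NextB]
  refine or_congr Iff.rfl ?_
  constructor
  · rintro ⟨a, w', ha, rfl, _⟩
    exact ⟨a.1, a.2, w', ha, rfl⟩
  · rintro ⟨a, j, w', ha, rfl⟩
    exact ⟨(a, j), w', ha, rfl, by simp⟩

/-- the first letter is the only letter with the mark `1` -/
def OneFirst (z : List (X × Fin 3)) : Prop :=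
  ∃ a z', z = (a, 1) :: z' ∧ ∀ x ∈ z', x.2 ≠ (1 : Fin 3)

theorem R0.oneFirst [Finite X] : R0 (X × Fin 3) {q | OneFirst q} := by
  refine (R0.headTail (A := X × Fin 3) (fun x => x.2 = 1) (fun x => x.2 ≠ 1)).congr ?_
  intro w
  simp only [Set.mem_ofPred_eq, OneFirst]
  constructor
  · rintro ⟨⟨a, j⟩, w', rfl, rfl, hw⟩
    exact ⟨a, w', rfl, hw⟩
  · rintro ⟨a, w', rfl, hw⟩
    exact ⟨(a, 1), w', rfl, rfl, hw⟩

/-- all blocks are in `P` -/
def BlkAll (P : Set (List (X × Fin 3))) (z : List (X × Fin 3)) : Prop :=
  ∀ p q r, z = p ++ q ++ r → IsB q → NextB r → q ∈ P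

/-- letters of the words which carry a code, a unary number and a marked word -/
abbrev Dl (X : Type) : Type := Bool ⊕ Unit ⊕ (X × Fin 3)

/-- the marked part -/
def zz (p : List (Dl X)) : List (X × Fin 3) :=
  p.flatMap (Sum.elim (fun _ => []) (Sum.elim (fun _ => []) (fun x => [x])))

/-- the code -/
def cc (p : List (Dl X)) : List Bool :=
  p.flatMap (Sum.elim (fun b => [b]) (fun _ => []))

/-- the unary number -/
def uu (p : List (Dl X)) : List Unit :=
  p.flatMap (Sum.elim (fun _ => []) (Sum.elim (fun _ => [()]) (fun _ => [])))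

/-- letters of the coded words: five signs, a unary digit, marked letters -/
abbrev Kl (X : Type) : Type := Fin 6 ⊕ (X × Fin 3)

/-- a unary number -/
def un (X : Type) (s : List Unit) : List (Kl X) := s.map (fun _ => Sum.inl 5)

/-- the word for the block `q` of the grammar number `s` -/
def blkw (s : List Unit) (q : List (X × Fin 3)) : List (Kl X) :=
  Sum.inl 3 :: (un X s ++ Sum.inl 4 :: q.map Sum.inr)

theorem R0.blkAll [Finite X] (e : Kl X → List Bool) :
    R0 (Dl X) {p | BlkAll {q | blkw (uu p) q ∈ Ent e (cc p)} (zz p)} := by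
  have h1 : R0 (Dl X × Fin 3) {v | IsB (zz (part 1 v))} :=
    ((R0.isB (X := X)).inv (A := Dl X)
      (Sum.elim (fun _ => []) (Sum.elim (fun _ => []) (fun x => [x])))).ofPart 1
  have h2 : R0 (Dl X × Fin 3) {v | NextB (zz (part 2 v))} :=
    ((R0.nextB (X := X)).inv (A := Dl X)
      (Sum.elim (fun _ => []) (Sum.elim (fun _ => []) (fun x => [x])))).ofPart 2
  have h3 := R0.ent (A := Dl X × Fin 3) e
    [(fun _ => [], [Sum.inl 3]),
      (fun y => Sum.elim (fun _ => []) (Sum.elim (fun _ => [Sum.inl 5]) (fun _ => [])) y.1,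
        [Sum.inl 4]),
      (fun y => if y.2 = 1 then
        Sum.elim (fun _ => []) (Sum.elim (fun _ => []) (fun x => [Sum.inr x])) y.1 else [], [])]
    (fun y => Sum.elim (fun b => [b]) (fun _ => []) y.1) (by
      rintro ⟨b | x, i⟩ <;> simp)
  refine (R0.splitAll (R0.imp h1 (R0.imp h2 h3))).congr ?_
  intro p
  simp only [Set.mem_ofPred_eq]
  have e1 : ∀ v : List (Dl X × Fin 3), mp [(fun _ => [], [Sum.inl 3]),
      (fun y => Sum.elim (fun _ => []) (Sum.elim (fun _ => [Sum.inl 5]) (fun _ => [])) y.1,
        [Sum.inl 4]),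
      (fun y => if y.2 = 1 then
        Sum.elim (fun _ => []) (Sum.elim (fun _ => []) (fun x => [Sum.inr x])) y.1 else [], [])] v
      = blkw (uu (v.map Prod.fst)) (zz (part 1 v)) := by
    intro v
    have h0 : v.flatMap (fun _ : Dl X × Fin 3 => ([] : List (Kl X))) = [] := by simp
    have h4 : v.flatMap (fun y : Dl X × Fin 3 =>
        Sum.elim (fun _ => []) (Sum.elim (fun _ => [Sum.inl 5]) (fun _ => [])) y.1) =
        un X (uu (v.map Prod.fst)) := by
      unfold un uu
      rw [List.map_flatMap, List.flatMap_map]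
      congr 1
      funext y
      obtain ⟨b | b | b, i⟩ := y <;> simp
    have h5 : v.flatMap (fun y : Dl X × Fin 3 => if y.2 = 1 then
        Sum.elim (fun _ => []) (Sum.elim (fun _ => []) (fun x => [Sum.inr x])) y.1 else []) =
        (zz (part 1 v)).map (Sum.inr : X × Fin 3 → Kl X) := by
      unfold zz part
      rw [List.map_flatMap, List.flatMap_assoc]
      congr 1
      funext y
      obtain ⟨b | b | b, i⟩ := y <;> by_cases hi : i = 1 <;> simp [hi]
    unfold mp blkw
    rw [List.flatMap_cons, List.flatMap_cons, List.flatMap_cons, List.flatMap_nil, h4, h5]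
    simp only [h0, List.nil_append, List.append_nil, List.cons_append, List.append_assoc]
  have e2 : ∀ v : List (Dl X × Fin 3),
      v.flatMap (fun y => Sum.elim (fun b => [b]) (fun _ => ([] : List Bool)) y.1) =
        cc (v.map Prod.fst) := by
    intro v
    unfold cc
    rw [List.flatMap_map]
  simp only [e1, e2, map_fst_mark3, part_mark1, part_mark2]
  unfold BlkAll
  simp only [Set.mem_ofPred_eq]
  constructor
  · intro h q1 q q2 hz hq hn
    have hlen : ∀ a : Dl X,
        ((Sum.elim (fun _ => []) (Sum.elim (fun _ => []) (fun x => [x])) :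
          Dl X → List (X × Fin 3)) a).length ≤ 1 := by
      rintro (b | b | b) <;> simp
    obtain ⟨p', p3, g1, g2, g3⟩ := lift_append _ hlen p _ _ hz
    obtain ⟨p1, p2, g4, g5, g6⟩ := lift_append _ hlen p' _ _ g2
    have hp : p = p1 ++ p2 ++ p3 := by rw [g1, g4]
    have := h p1 p2 p3 hp (by rw [show zz p2 = q from g6]; exact hq)
      (by rw [show zz p3 = q2 from g3]; exact hn)
    rw [show zz p2 = q from g6, ← hp] at this
    exact this
  · intro h p1 p2 p3 hp hq hn
    rw [← hp]
    refine h (zz p1) (zz p2) (zz p3) ?_ hq hn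
    rw [hp]
    simp [zz]

end MPdee884H1
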