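import Mathlib

/-!
# MP_dee884_lc, bounded multiplicity: derivations with few big steps

Every word `u` of a context-free language has a leftmost derivation with about `|u| / m` steps
of the (finite) grammar of all derived rules of length at most `N`.
-/

namespace MPdee884H1

variable {T : Type} {NT : Type}

/-- parallel derivations, with the number of rules -/
inductive Par (R : Set (NT × List (Symbol T NT))) :
    List (Symbol T NT) → List (Symbol T NT) → ℕ → Prop
  | nil : Par R [] [] 0
  | keep (s : Symbol T NT) {γ δ : List (Symbol T NT)} {k : ℕ} :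
      Par R γ δ k → Par R (s :: γ) (s :: δ) k
  | exp {X : NT} {β γ δ₁ δ₂ : List (Symbol T NT)} {k₁ k₂ : ℕ} : (X, β) ∈ R →
      Par R β δ₁ k₁ → Par R γ δ₂ k₂ →
      Par R (Symbol.nonterminal X :: γ) (δ₁ ++ δ₂) (k₁ + k₂ + 1)

theorem par_refl (R : Set (NT × List (Symbol T NT))) (γ : List (Symbol T NT)) :
    Par R γ γ 0 := by
  induction γ with
  | nil => exact Par.nil
  | cons s γ ih => exact Par.keep s ih

theorem par_append {R : Set (NT × List (Symbol T NT))} {γ₁ δ₁ γ₂ δ₂ : List (Symbol T NT)}
    {k₁ k₂ : ℕ} (h1 : Par R γ₁ δ₁ k₁) (h2 : Par R γ₂ δ₂ k₂) :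
    Par R (γ₁ ++ γ₂) (δ₁ ++ δ₂) (k₁ + k₂) := by
  induction h1 with
  | nil => simpa using h2
  | keep s _ ih => exact Par.keep s ih
  | @exp X β γ δ₁ δ₂ k₁' k₂' hR hb _ _ ih =>
    have := Par.exp hR hb ih
    rw [List.append_assoc, List.cons_append]
    have e : k₁' + k₂' + 1 + k₂ = k₁' + (k₂' + k₂) + 1 := by omega
    rw [e]
    exact this

theorem par_step {R : Set (NT × List (Symbol T NT))} {X : NT} {β : List (Symbol T NT)}
    (hR : (X, β) ∈ R) {γ δ : List (Symbol T NT)} {k : ℕ} (h : Par R γ δ k) :
    ∀ p q, δ = p ++ Symbol.nonterminal X :: q → Par R γ (p ++ β ++ q) (k + 1) := by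
  induction h with
  | nil => intro p q h; simp at h
  | @keep s γ δ k hs ih =>
    intro p q h
    cases p with
    | nil =>
      simp only [List.nil_append, List.cons.injEq] at h
      obtain ⟨rfl, rfl⟩ := h
      have := Par.exp hR (par_refl R β) hs
      simpa using this
    | cons a p =>
      simp only [List.cons_append, List.cons.injEq] at h
      obtain ⟨rfl, rfl⟩ := h
      exact Par.keep s (ih p q rfl)
  | @exp Y β0 γ δ₁ δ₂ k₁ k₂ hY h1 h2 ih1 ih2 =>
    intro p q h
    rcases List.append_eq_append_iff.mp h with ⟨a, ha1, ha2⟩ | ⟨a, ha1, ha2⟩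
    · have := Par.exp hY h1 (ih2 a q ha2)
      have e : k₁ + (k₂ + 1) + 1 = k₁ + k₂ + 1 + 1 := by omega
      rw [e] at this
      rw [ha1]
      simpa using this
    · cases a with
      | nil =>
        have := Par.exp hY h1 (ih2 [] q (by simpa using ha2.symm))
        have e : k₁ + (k₂ + 1) + 1 = k₁ + k₂ + 1 + 1 := by omega
        rw [e] at this
        simp only [List.append_nil] at ha1
        rw [← ha1]
        simpa using this
      | cons b a =>
        simp only [List.cons_append, List.cons.injEq] at ha2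
        obtain ⟨rfl, rfl⟩ := ha2
        have := Par.exp hY (ih1 p a ha1) h2
        have e : k₁ + 1 + k₂ + 1 = k₁ + k₂ + 1 + 1 := by omega
        rw [e] at this
        simpa using this

/-- the rules of a grammar as pairs -/
def ruleSet (g : ContextFreeGrammar T) : Set (g.NT × List (Symbol T g.NT)) :=
  {p | ∃ r ∈ g.rules, p = (r.input, r.output)}

theorem derives_par (g : ContextFreeGrammar T) {γ δ : List (Symbol T g.NT)}
    (h : g.Derives γ δ) : ∃ k, Par (ruleSet g) γ δ k := by
  induction h with
  | refl => exact ⟨0, par_refl _ _⟩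
  | tail _ hp ih =>
    obtain ⟨k, hk⟩ := ih
    obtain ⟨r, hr, hrw⟩ := hp
    obtain ⟨p, q, h1, h2⟩ := hrw.exists_parts
    have hmem : (r.input, r.output) ∈ ruleSet g := ⟨r, hr, rfl⟩
    exact ⟨k + 1, by rw [h2]; exact par_step hmem hk p q (by rw [h1]; simp)⟩

theorem par_derives (g : ContextFreeGrammar T) {R : Set (g.NT × List (Symbol T g.NT))}
    (hR : ∀ X β, (X, β) ∈ R → g.Derives [Symbol.nonterminal X] β)
    {γ δ : List (Symbol T g.NT)} {k : ℕ} (h : Par R γ δ k) : g.Derives γ δ := by
  induction h with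
  | nil => exact Relation.ReflTransGen.refl
  | keep s _ ih => exact ih.append_left [s]
  | @exp X β γ δ₁ δ₂ k₁ k₂ hX _ _ ih1 ih2 =>
    have h1 : g.Derives [Symbol.nonterminal X] δ₁ := (hR X β hX).trans ih1
    exact (h1.append_right γ).trans (ih2.append_left δ₁)

theorem ruleSet_derives (g : ContextFreeGrammar T) (X : g.NT) (β : List (Symbol T g.NT))
    (h : (X, β) ∈ ruleSet g) : g.Derives [Symbol.nonterminal X] β := by
  obtain ⟨r, hr, hp⟩ := h
  simp only [Prod.mk.injEq] at hp
  obtain ⟨rfl, rfl⟩ := hp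
  exact Relation.ReflTransGen.single ⟨r, hr, ContextFreeRule.Rewrites.input_output⟩

/-- the cut lemma -/
theorem cut (g : ContextFreeGrammar T) {m b : ℕ} (hm : 2 ≤ m)
    (hb : ∀ X β, (X, β) ∈ ruleSet g → β.length ≤ b)
    {γ δ : List (Symbol T g.NT)} {k : ℕ} (h : Par (ruleSet g) γ δ k) :
    δ.length ≤ (m - 1) * γ.length ∨ ∃ Y β a₁ a₂, δ = a₁ ++ β ++ a₂ ∧
      g.Derives γ (a₁ ++ [Symbol.nonterminal Y] ++ a₂) ∧ g.Derives [Symbol.nonterminal Y] β ∧
      m ≤ β.length ∧ β.length ≤ (m - 1) * b := by
  induction h with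
  | nil => left; simp
  | @keep s γ δ k _ ih =>
    rcases ih with ih | ⟨Y, β, a₁, a₂, h1, h2, h3, h4, h5⟩
    · left
      simp only [List.length_cons]
      have : (m - 1) * (γ.length + 1) = (m - 1) * γ.length + (m - 1) := by ring
      omega
    · right
      refine ⟨Y, β, s :: a₁, a₂, by rw [h1]; simp, ?_, h3, h4, h5⟩
      exact h2.append_left [s]
  | @exp X β0 γ δ₁ δ₂ k₁ k₂ hX h1 h2 ih1 ih2 =>
    have dX := ruleSet_derives g X β0 hX
    have d1 := par_derives g (fun X β => ruleSet_derives g X β) h1
    have d2 := par_derives g (fun X β => ruleSet_derives g X β) h2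
    rcases ih1 with ih1 | ⟨Y, β, a₁, a₂, g1, g2, g3, g4, g5⟩
    · by_cases hl : m ≤ δ₁.length
      · right
        refine ⟨X, δ₁, [], δ₂, by simp, ?_, dX.trans d1, hl, ?_⟩
        · exact d2.append_left [Symbol.nonterminal X]
        · exact ih1.trans (Nat.mul_le_mul_left _ (hb X β0 hX))
      · rcases ih2 with ih2 | ⟨Y, β, a₁, a₂, g1, g2, g3, g4, g5⟩
        · left
          simp only [List.length_append, List.length_cons]
          have : (m - 1) * (γ.length + 1) = (m - 1) * γ.length + (m - 1) := by ring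
          omega
        · right
          refine ⟨Y, β, δ₁ ++ a₁, a₂, by rw [g1]; simp, ?_, g3, g4, g5⟩
          have e : δ₁ ++ a₁ ++ [Symbol.nonterminal Y] ++ a₂ =
              δ₁ ++ (a₁ ++ [Symbol.nonterminal Y] ++ a₂) := by simp
          rw [e]
          exact ((dX.trans d1).append_right γ).trans (g2.append_left δ₁)
    · right
      refine ⟨Y, β, a₁, a₂ ++ δ₂, by rw [g1]; simp, ?_, g3, g4, g5⟩
      have e : a₁ ++ [Symbol.nonterminal Y] ++ (a₂ ++ δ₂) =
          (a₁ ++ [Symbol.nonterminal Y] ++ a₂) ++ δ₂ := by simp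
      rw [e]
      exact ((dX.trans g2).append_right γ).trans
        (d2.append_left (a₁ ++ [Symbol.nonterminal Y] ++ a₂))

/-- the relevant nonterminals -/
def relNT (g : ContextFreeGrammar T) : Set g.NT :=
  {X | X = g.initial ∨ ∃ r ∈ g.rules, Symbol.nonterminal X ∈ r.output}

theorem relNT_finite (g : ContextFreeGrammar T) : (relNT g).Finite := by
  have h1 : ∀ r : ContextFreeRule T g.NT,
      Set.Finite {X : g.NT | Symbol.nonterminal X ∈ r.output} := by
    intro r
    have : Set.Finite ((fun X : g.NT => (Symbol.nonterminal X : Symbol T g.NT)) ⁻¹'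
        {s | s ∈ r.output}) := by
      refine Set.Finite.preimage ?_ (List.finite_toSet r.output)
      intro X _ Y _ h
      simpa using h
    exact this
  have h2 : relNT g ⊆ {g.initial} ∪
      ⋃ r ∈ g.rules, {X : g.NT | Symbol.nonterminal X ∈ r.output} := by
    intro X hX
    rcases hX with rfl | ⟨r, hr, hX⟩
    · left; rfl
    · right
      simp only [Set.mem_iUnion]
      exact ⟨r, hr, hX⟩
  refine Set.Finite.subset (Set.Finite.union (Set.finite_singleton _) ?_) h2
  exact Set.Finite.biUnion g.rules.finite_toSet (fun r _ => h1 r)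

theorem derives_rel (g : ContextFreeGrammar T) {γ δ : List (Symbol T g.NT)}
    (h : g.Derives γ δ) (hγ : ∀ X, Symbol.nonterminal X ∈ γ → X ∈ relNT g) :
    ∀ X, Symbol.nonterminal X ∈ δ → X ∈ relNT g := by
  induction h with
  | refl => exact hγ
  | tail _ hp ih =>
    obtain ⟨r, hr, hrw⟩ := hp
    obtain ⟨p, q, h1, h2⟩ := hrw.exists_parts
    intro X hX
    rw [h2] at hX
    rw [h1] at ih
    simp only [List.mem_append] at hX
    rcases hX with (hX | hX) | hX
    · exact ih X (by simp [hX])
    · exact Or.inr ⟨r, hr, hX⟩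
    · exact ih X (by simp [hX])

/-- the derived rules of bounded length -/
def bigRules (g : ContextFreeGrammar T) (N : ℕ) : Set (g.NT × List (Symbol T g.NT)) :=
  {p | p.1 ∈ relNT g ∧ g.Derives [Symbol.nonterminal p.1] p.2 ∧ p.2.length ≤ N ∧
    ∀ X, Symbol.nonterminal X ∈ p.2 → X ∈ relNT g}

theorem bigRules_finite [Finite T] (g : ContextFreeGrammar T) (N : ℕ) :
    (bigRules g N).Finite := by
  have := (relNT_finite g).to_subtype
  let f : T ⊕ relNT g → Symbol T g.NT := fun s => match s with
    | Sum.inl t => Symbol.terminal t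
    | Sum.inr X => Symbol.nonterminal X.1
  have h1 : Set.Finite {l : List (T ⊕ relNT g) | l.length ≤ N} :=
    List.finite_length_le _ N
  have h2 : bigRules g N ⊆ (relNT g) ×ˢ ((List.map f) '' {l : List (T ⊕ relNT g) | l.length ≤ N})
      := by
    rintro ⟨X, β⟩ ⟨hX, _, hl, hn⟩
    refine ⟨hX, ?_⟩
    have key : ∀ β : List (Symbol T g.NT), (∀ X, Symbol.nonterminal X ∈ β → X ∈ relNT g) →
        ∃ l : List (T ⊕ relNT g), l.map f = β := by
      intro β
      induction β with
      | nil => intro _; exact ⟨[], rfl⟩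
      | cons s β ih =>
        intro h
        obtain ⟨l, hl⟩ := ih (fun X hX => h X (by simp [hX]))
        cases s with
        | terminal t => exact ⟨Sum.inl t :: l, by simp [f, hl]⟩
        | nonterminal X => exact ⟨Sum.inr ⟨X, h X (by simp)⟩ :: l, by simp [f, hl]⟩
    obtain ⟨l, hl2⟩ := key β hn
    refine ⟨l, ?_, hl2⟩
    simp only [Set.mem_ofPred_eq] at hl ⊢
    rw [← List.length_map f, hl2]
    exact hl
  exact Set.Finite.subset ((relNT_finite g).prod (h1.image _)) h2

/-- few big steps are enough -/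
theorem chain (g : ContextFreeGrammar T) {m b N : ℕ} (hm : 2 ≤ m)
    (hb : ∀ X β, (X, β) ∈ ruleSet g → β.length ≤ b) (hN1 : m ≤ N) (hN2 : (m - 1) * b ≤ N) :
    ∀ (n : ℕ) (X : g.NT) (α : List (Symbol T g.NT)), X ∈ relNT g → α.length = n →
      g.Derives [Symbol.nonterminal X] α →
      ∃ k, Par (bigRules g N) [Symbol.nonterminal X] α k ∧ k * (m - 1) ≤ n + (m - 1) := by
  intro n
  induction n using Nat.strong_induction_on with
  | _ n ih =>
    intro X α hX hα hd
    have hrel : ∀ Y, Symbol.nonterminal Y ∈ α → Y ∈ relNT g := by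
      refine derives_rel g hd ?_
      intro Y hY
      simp only [List.mem_cons, List.not_mem_nil, or_false, Symbol.nonterminal.injEq] at hY
      rw [hY]
      exact hX
    by_cases hl : n < m
    · refine ⟨1, ?_, by omega⟩
      have h1 : (X, α) ∈ bigRules g N := ⟨hX, hd, by simp only; omega, hrel⟩
      have := Par.exp h1 (par_refl _ α) Par.nil
      simpa using this
    · obtain ⟨k0, hk0⟩ := derives_par g hd
      rcases cut g hm hb hk0 with h | ⟨Y, β, a₁, a₂, h1, h2, h3, h4, h5⟩
      · simp only [List.length_cons, List.length_nil] at h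
        omega
      · have hrel2 : ∀ Z, Symbol.nonterminal Z ∈ a₁ ++ [Symbol.nonterminal Y] ++ a₂ →
            Z ∈ relNT g := by
          refine derives_rel g h2 ?_
          intro Z hZ
          simp only [List.mem_cons, List.not_mem_nil, or_false, Symbol.nonterminal.injEq] at hZ
          rw [hZ]
          exact hX
        have hY : Y ∈ relNT g := hrel2 Y (by simp)
        have hlen : (a₁ ++ [Symbol.nonterminal Y] ++ a₂).length + β.length = n + 1 := by
          rw [← hα, h1]
          simp only [List.length_append, List.length_cons, List.length_nil]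
          omega
        obtain ⟨k, hk1, hk2⟩ := ih _ (by omega) X _ hX rfl h2
        refine ⟨k + 1, ?_, ?_⟩
        · have h6 : (Y, β) ∈ bigRules g N := by
            refine ⟨hY, h3, by simp only; omega, ?_⟩
            intro Z hZ
            exact hrel Z (by rw [h1]; simp [hZ])
          have := par_step h6 hk1 a₁ a₂ (by simp)
          rw [h1]
          exact this
        · have : (k + 1) * (m - 1) = k * (m - 1) + (m - 1) := by ring
          rw [this]
          omega

/-- leftmost derivations -/
inductive Big (R : Set (NT × List (Symbol T NT))) : List (Symbol T NT) → List T → ℕ → Prop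
  | nil : Big R [] [] 0
  | ter (t : T) {γ : List (Symbol T NT)} {u : List T} {k : ℕ} :
      Big R γ u k → Big R (Symbol.terminal t :: γ) (t :: u) k
  | non {X : NT} {β γ : List (Symbol T NT)} {u : List T} {k : ℕ} : (X, β) ∈ R →
      Big R (β ++ γ) u k → Big R (Symbol.nonterminal X :: γ) u (k + 1)

theorem big_append {R : Set (NT × List (Symbol T NT))} {γ₁ γ₂ : List (Symbol T NT)}
    {u₁ u₂ : List T} {k₁ k₂ : ℕ} (h1 : Big R γ₁ u₁ k₁) (h2 : Big R γ₂ u₂ k₂) :
    Big R (γ₁ ++ γ₂) (u₁ ++ u₂) (k₁ + k₂) := by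
  induction h1 with
  | nil => simpa using h2
  | ter t _ ih => exact Big.ter t ih
  | @non X β γ u k hX _ ih =>
    have e : k + 1 + k₂ = k + k₂ + 1 := by omega
    rw [e, List.cons_append]
    exact Big.non hX (by rw [← List.append_assoc]; exact ih)

theorem par_big {R : Set (NT × List (Symbol T NT))} {γ δ : List (Symbol T NT)} {k : ℕ}
    (h : Par R γ δ k) : ∀ u : List T, δ = u.map Symbol.terminal → Big R γ u k := by
  induction h with
  | nil =>
    intro u hu
    have : u = [] := by simpa using hu.symm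
    subst this
    exact Big.nil
  | keep s _ ih =>
    intro u hu
    cases u with
    | nil => simp at hu
    | cons t u =>
      simp only [List.map_cons, List.cons.injEq] at hu
      obtain ⟨rfl, hu⟩ := hu
      exact Big.ter t (ih u hu)
  | @exp X β γ δ₁ δ₂ k₁ k₂ hX _ _ ih1 ih2 =>
    intro u hu
    obtain ⟨u₁, u₂, rfl, h1, h2⟩ := List.map_eq_append_iff.mp hu.symm
    exact Big.non hX (big_append (ih1 u₁ h1.symm) (ih2 u₂ h2.symm))

theorem big_derives (g : ContextFreeGrammar T) {N : ℕ} {γ : List (Symbol T g.NT)} {u : List T}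
    {k : ℕ} (h : Big (bigRules g N) γ u k) : g.Derives γ (u.map Symbol.terminal) := by
  induction h with
  | nil => exact Relation.ReflTransGen.refl
  | ter t _ ih => exact ih.append_left [Symbol.terminal t]
  | @non X β γ u k hX _ ih =>
    exact ((hX.2.1).append_right γ).trans ih

/-- the words of a context-free language have short leftmost derivations with big rules -/
theorem exists_big (g : ContextFreeGrammar T) (m : ℕ) (hm : 2 ≤ m) :
    ∃ N : ℕ, ∀ u ∈ g.language, ∃ k, Big (bigRules g N) [Symbol.nonterminal g.initial] u k ∧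
      k * (m - 1) ≤ u.length + (m - 1) := by
  have hb : ∃ b, ∀ X β, (X, β) ∈ ruleSet g → β.length ≤ b := by
    refine ⟨g.rules.sup (fun r => r.output.length), ?_⟩
    rintro X β ⟨r, hr, hp⟩
    simp only [Prod.mk.injEq] at hp
    rw [hp.2]
    exact Finset.le_sup (f := fun r : ContextFreeRule T g.NT => r.output.length) hr
  obtain ⟨b, hb⟩ := hb
  refine ⟨max m ((m - 1) * b), ?_⟩
  intro u hu
  obtain ⟨k, hk1, hk2⟩ := chain g hm hb (le_max_left m ((m - 1) * b))
    (le_max_right m ((m - 1) * b)) _ g.initial (u.map Symbol.terminal) (Or.inl rfl) rfl hu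
  exact ⟨k, par_big hk1 u rfl, by simpa using hk2⟩

end MPdee884H1
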