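import Pool.Agent.Lib.MP_dee884_lc.H1.R0

/-!
# MP_dee884_lc, bounded multiplicity: stack histories are in R0
-/

namespace MPdee884H1

/-- run a stack: `(true, s)` pushes `s`, `(false, s)` pops `s` -/
def run {S : Type} [DecidableEq S] : List (Bool × S) → List S → Option (List S)
  | [], st => some st
  | (true, s) :: w, st => run w (s :: st)
  | (false, _) :: _, [] => none
  | (false, s) :: w, a :: st => if a = s then run w st else none

theorem run_append {S : Type} [DecidableEq S] (u v : List (Bool × S)) :
    ∀ st, run (u ++ v) st = (run u st).bind (run v) := by
  induction u with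
  | nil => intro st; simp [run]
  | cons x u ih =>
    obtain ⟨b, s⟩ := x
    intro st
    cases b with
    | true => simp [run, ih]
    | false =>
      cases st with
      | nil => simp [run]
      | cons a st =>
        by_cases h : a = s
        · simp [run, h, ih]
        · simp [run, h]

/-- height -/
def ht {S : Type} : List (Bool × S) → ℤ
  | [] => 0
  | (true, _) :: w => 1 + ht w
  | (false, _) :: w => -1 + ht w

theorem ht_append {S : Type} (u v : List (Bool × S)) : ht (u ++ v) = ht u + ht v := by
  induction u with
  | nil => simp [ht]
  | cons x u ih =>
    obtain ⟨b, s⟩ := x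
    cases b <;> simp [ht, ih] <;> ring

theorem ht_eq {S : Type} (w : List (Bool × S)) :
    ht w = ((w.flatMap (fun x => if x.1 = true then [()] else [])).length : ℤ) -
      ((w.flatMap (fun x => if x.1 = true then [] else [()])).length : ℤ) := by
  induction w with
  | nil => simp [ht]
  | cons x w ih =>
    obtain ⟨b, s⟩ := x
    cases b
    · simp only [ht, ih, List.flatMap_cons, List.length_append]
      simp
      ring
    · simp only [ht, ih, List.flatMap_cons, List.length_append]
      simp
      ring

theorem run_ht {S : Type} [DecidableEq S] (w : List (Bool × S)) :
    ∀ st r, run w st = some r → (r.length : ℤ) = st.length + ht w := by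
  induction w with
  | nil =>
    intro st r h
    simp only [run, Option.some.injEq] at h
    subst h
    simp [ht]
  | cons x w ih =>
    obtain ⟨b, s⟩ := x
    intro st r h
    cases b with
    | true =>
      have := ih (s :: st) r (by simpa [run] using h)
      simp only [List.length_cons, Nat.cast_add, Nat.cast_one] at this
      simp only [ht]
      linarith
    | false =>
      cases st with
      | nil => simp [run] at h
      | cons a st =>
        by_cases hs : a = s
        · have := ih st r (by simpa [run, hs] using h)
          simp only [ht, List.length_cons, Nat.cast_add, Nat.cast_one]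
          linarith
        · simp [run, hs] at h

/-- the balanced words -/
def NB {S : Type} (w : List (Bool × S)) : Prop :=
  (∀ p q, w = p ++ q → 0 ≤ ht p) ∧ ht w = 0

theorem NB_nil {S : Type} : NB ([] : List (Bool × S)) := by
  constructor
  · intro p q h
    have : p = [] := by
      have := List.append_eq_nil_iff.mp h.symm
      exact this.1
    subst this
    simp [ht]
  · simp [ht]

theorem NB_append {S : Type} {u v : List (Bool × S)} (hu : NB u) (hv : NB v) : NB (u ++ v) := by
  constructor
  · intro p q h
    rcases List.append_eq_append_iff.mp h with ⟨a, ha1, ha2⟩ | ⟨a, ha1, ha2⟩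
    · rw [ha1, ht_append, hu.2]
      have := hv.1 a q ha2
      linarith
    · exact hu.1 p a ha1
  · rw [ht_append, hu.2, hv.2]
    simp

theorem NB_wrap {S : Type} {z : List (Bool × S)} (hz : NB z) (c d : S) :
    NB ((true, c) :: z ++ [(false, d)]) := by
  constructor
  · intro p q h
    cases p with
    | nil => simp [ht]
    | cons x p =>
      simp only [List.cons_append, List.cons.injEq] at h
      obtain ⟨rfl, h⟩ := h
      rcases List.append_eq_append_iff.mp h with ⟨a, ha1, ha2⟩ | ⟨a, ha1, ha2⟩
      · rw [ha1]
        simp only [ht, ht_append, hz.2]
        cases a with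
        | nil => simp [ht]
        | cons y a =>
          simp only [List.cons_append, List.cons.injEq] at ha2
          obtain ⟨rfl, ha2⟩ := ha2
          have := List.append_eq_nil_iff.mp ha2.symm
          rw [this.1]
          simp [ht]
      · have := hz.1 p a ha1
        simp only [ht]
        linarith
  · simp only [List.cons_append, ht, ht_append, hz.2]
    norm_num

theorem run_prefix {S : Type} [DecidableEq S] {w : List (Bool × S)} {st r : List S}
    (h : run w st = some r) (p q : List (Bool × S)) (hw : w = p ++ q) :
    0 ≤ (st.length : ℤ) + ht p := by
  rw [hw, run_append] at h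
  cases h1 : run p st with
  | none => simp [h1] at h
  | some t =>
    have := run_ht p st t h1
    have h2 : (0 : ℤ) ≤ t.length := by positivity
    linarith

theorem run_base {S : Type} [DecidableEq S] (w : List (Bool × S)) (base : List S) :
    ∀ s r, run w (s ++ base) = some r → (∀ p q, w = p ++ q → 0 ≤ (s.length : ℤ) + ht p) →
      ∃ r', r = r' ++ base ∧ run w s = some r' := by
  induction w with
  | nil =>
    intro s r h _
    simp only [run, Option.some.injEq] at h
    exact ⟨s, h.symm, rfl⟩
  | cons x w ih =>
    obtain ⟨b, c⟩ := x
    intro s r h hp
    cases b with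
    | true =>
      obtain ⟨r', h1, h2⟩ := ih (c :: s) r (by simpa [run] using h) (by
        intro p q hw
        have := hp ((true, c) :: p) q (by simp [hw])
        simp only [ht] at this
        simp only [List.length_cons, Nat.cast_add, Nat.cast_one]
        linarith)
      exact ⟨r', h1, by simpa [run] using h2⟩
    | false =>
      cases s with
      | nil =>
        have := hp [(false, c)] w (by simp)
        simp [ht] at this
      | cons a s =>
        by_cases hs : a = c
        · obtain ⟨r', h1, h2⟩ := ih s r (by simpa [run, hs] using h) (by
            intro p q hw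
            have := hp ((false, c) :: p) q (by simp [hw])
            simp only [ht, List.length_cons, Nat.cast_add, Nat.cast_one] at this
            linarith)
          exact ⟨r', h1, by simpa [run, hs] using h2⟩
        · simp [run, hs] at h

theorem run_NB {S : Type} [DecidableEq S] {z : List (Bool × S)} (hz : NB z) {st r : List S}
    (h : run z st = some r) : r = st := by
  obtain ⟨r', h1, h2⟩ := run_base z st [] r (by simpa using h) (by
    intro p q hw
    have := hz.1 p q hw
    simpa using this)
  have h3 := run_ht z [] r' h2
  rw [hz.2] at h3
  simp only [List.length_nil, Nat.cast_zero, add_zero] at h3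
  have h4 : r' = [] := by
    apply List.length_eq_zero_iff.mp
    exact_mod_cast h3
  rw [h1, h4]
  simp

theorem run_top {S : Type} [DecidableEq S] :
    ∀ (n : ℕ) (p : List (Bool × S)), p.length ≤ n → ∀ a st, run p [] = some (a :: st) →
      ∃ z0 z, p = z0 ++ (true, a) :: z ∧ run z0 [] = some st ∧ NB z := by
  intro n
  induction n with
  | zero =>
    intro p hp a st h
    have : p = [] := List.length_eq_zero_iff.mp (by omega)
    subst this
    simp [run] at h
  | succ n ih =>
    intro p hp a st h
    rcases List.eq_nil_or_concat p with rfl | ⟨p', x, rfl⟩
    · simp [run] at h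
    · obtain ⟨b, c⟩ := x
      simp only [List.concat_eq_append] at h hp ⊢
      rw [run_append] at h
      simp only [List.length_append, List.length_cons, List.length_nil] at hp
      cases h1 : run p' [] with
      | none => simp [h1] at h
      | some t =>
        rw [h1] at h
        cases b with
        | true =>
          simp only [Option.bind_some, run, Option.some.injEq, List.cons.injEq] at h
          obtain ⟨rfl, rfl⟩ := h
          exact ⟨p', [], rfl, h1, NB_nil⟩
        | false =>
          cases t with
          | nil => simp [run] at h
          | cons d t =>
            by_cases hd : d = c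
            · simp only [Option.bind_some, run, hd, if_true, Option.some.injEq] at h
              subst h
              subst hd
              obtain ⟨z1, z2, hz1, hz2, hz3⟩ := ih p' (by omega) d (a :: st) h1
              obtain ⟨z0, z3, hz4, hz5, hz6⟩ := ih z1 (by
                have := congrArg List.length hz1
                simp only [List.length_append, List.length_cons] at this
                omega) a st hz2
              refine ⟨z0, z3 ++ ((true, d) :: z2 ++ [(false, d)]), ?_, hz5,
                NB_append hz6 (NB_wrap hz3 d d)⟩
              rw [hz1, hz4]
              simp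
            · simp [run, hd] at h

/-- a wrongly matched pair -/
def Bad {S : Type} (w : List (Bool × S)) : Prop :=
  ∃ a b z, a ≠ b ∧ NB z ∧ w = (true, a) :: z ++ [(false, b)]

theorem run_iff {S : Type} [DecidableEq S] (w : List (Bool × S)) :
    run w [] = some [] ↔ NB w ∧ ∀ p q r, w = p ++ q ++ r → ¬ Bad q := by
  constructor
  · intro h
    refine ⟨⟨?_, ?_⟩, ?_⟩
    · intro p q hw
      have := run_prefix h p q hw
      simpa using this
    · have := run_ht w [] [] h
      simp only [List.length_nil, Nat.cast_zero, zero_add] at this
      exact this.symm
    · rintro p q r hw ⟨a, b, z, hab, hz, rfl⟩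
      rw [hw] at h
      have e : p ++ ((true, a) :: z ++ [(false, b)]) ++ r =
          p ++ ([(true, a)] ++ (z ++ ([(false, b)] ++ r))) := by simp
      rw [e, run_append] at h
      cases h1 : run p [] with
      | none => simp [h1] at h
      | some s =>
        rw [h1, Option.bind_some, run_append] at h
        simp only [run, Option.bind_some] at h
        rw [run_append] at h
        cases h2 : run z (a :: s) with
        | none => simp [h2] at h
        | some t =>
          rw [h2, Option.bind_some] at h
          have := run_NB hz h2
          subst this
          rw [run_append] at h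
          simp [run, hab] at h
  · rintro ⟨hN, hM⟩
    have key : ∀ p : List (Bool × S), ∀ q, w = p ++ q → ∃ st, run p [] = some st := by
      intro p
      induction p using List.reverseRecOn with
      | nil =>
        intro q _
        exact ⟨[], rfl⟩
      | append_singleton p x ih =>
        obtain ⟨b, c⟩ := x
        intro q hw
        obtain ⟨st, hst⟩ := ih ((b, c) :: q) (by simp [hw])
        cases b with
        | true =>
          exact ⟨c :: st, by rw [run_append, hst]; simp [run]⟩
        | false =>
          have h1 := hN.1 _ _ hw
          have h2 := run_ht p [] st hst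
          rw [ht_append] at h1
          simp only [ht, List.length_nil, Nat.cast_zero, zero_add, add_zero] at h1 h2
          cases st with
          | nil =>
            simp only [List.length_nil, Nat.cast_zero] at h2
            rw [← h2] at h1
            norm_num at h1
          | cons a st =>
            obtain ⟨z0, z, hz1, hz2, hz3⟩ := run_top p.length p le_rfl a st hst
            have h3 := hM z0 ((true, a) :: z ++ [(false, c)]) q (by rw [hw, hz1]; simp)
            have h4 : a = c := by
              by_contra hne
              exact h3 ⟨a, c, z, hne, hz3, rfl⟩
            exact ⟨st, by rw [run_append, hst]; simp [run, h4]⟩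
    obtain ⟨st, hst⟩ := key w [] (by simp)
    have h2 := run_ht w [] st hst
    rw [hN.2] at h2
    simp only [List.length_nil, Nat.cast_zero, add_zero] at h2
    have h4 : st = [] := by
      apply List.length_eq_zero_iff.mp
      exact_mod_cast h2
    rw [hst, h4]

theorem exists_neg_one {S : Type} (p : List (Bool × S)) (h : ht p < 0) :
    ∃ p' q', p = p' ++ q' ∧ ht p' = -1 := by
  induction p using List.reverseRecOn with
  | nil => simp [ht] at h
  | append_singleton p x ih =>
    by_cases h0 : ht p < 0
    · obtain ⟨p', q', h1, h2⟩ := ih h0
      exact ⟨p', q' ++ [x], by rw [h1]; simp, h2⟩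
    · refine ⟨p ++ [x], [], by simp, ?_⟩
      rw [ht_append] at h ⊢
      obtain ⟨b, c⟩ := x
      cases b
      · simp only [ht] at h ⊢
        omega
      · simp only [ht] at h ⊢
        omega

theorem R0.ht0 {S : Type} [Finite S] : R0 (Bool × S) {w | ht w = 0} := by
  refine (R0.eqf (A := Bool × S) (B := Unit) (fun x => if x.1 = true then [()] else [])
    (fun x => if x.1 = true then [] else [()])).congr ?_
  intro w
  simp only [Set.mem_ofPred_eq]
  rw [ht_eq, sub_eq_zero, Nat.cast_inj]
  constructor
  · intro h
    rw [h]
  · intro h
    apply List.ext_getElem h
    intros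
    rfl

theorem R0.htneg {S : Type} [Finite S] : R0 (Bool × S) {w | ht w = -1} := by
  refine (R0.eq2 (A := Bool × S) (B := Unit) [()] (fun x => if x.1 = true then [()] else []) []
    (fun x => if x.1 = true then [] else [()])).congr ?_
  intro w
  simp only [Set.mem_ofPred_eq]
  rw [ht_eq]
  constructor
  · intro h
    have := congrArg List.length h
    simp only [List.length_append, List.length_cons, List.length_nil] at this
    rw [← this]
    push_cast
    ring
  · intro h
    apply List.ext_getElem
    · simp only [List.length_append, List.length_cons, List.length_nil]
      have : ((w.flatMap (fun x => if x.1 = true then [()] else [])).length : ℤ) + 1 =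
          ((w.flatMap (fun x => if x.1 = true then [] else [()])).length : ℤ) := by linarith
      have h2 : (w.flatMap (fun x => if x.1 = true then [()] else [])).length + 1 =
          (w.flatMap (fun x => if x.1 = true then [] else [()])).length := by exact_mod_cast this
      omega
    · intros
      rfl

theorem R0.nb {S : Type} [Finite S] : R0 (Bool × S) {w | NB w} := by
  refine (R0.inter (R0.splitAll ((R0.htneg (S := S)).ofPart 0).compl) (R0.ht0 (S := S))).congr ?_
  intro w
  simp only [Set.mem_inter_iff, Set.mem_ofPred_eq, Set.mem_compl_iff, part_mark0, NB]
  refine and_congr_left ?_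
  intro _
  constructor
  · intro h p q hw
    by_contra hc
    obtain ⟨p', q', h1, h2⟩ := exists_neg_one p (by omega)
    exact h p' q' q (by rw [hw, h1]) h2
  · intro h p q r hw hc
    have := h p (q ++ r) (by rw [hw]; simp)
    omega

theorem R0.bad {S : Type} [Finite S] : R0 (Bool × S) {w | Bad w} := by
  have h1 : ∀ ab : {ab : S × S // ab.1 ≠ ab.2}, R0 ((Bool × S) × Fin 3)
      {v | part 0 v = [(true, ab.1.1)] ∧ part 2 v = [(false, ab.1.2)]} := by
    intro ab
    exact (R0.inter (R0.eqc (A := (Bool × S) × Fin 3) [(true, ab.1.1)]
      (fun x => if x.2 = 0 then [x.1] else []))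
      (R0.eqc (A := (Bool × S) × Fin 3) [(false, ab.1.2)]
        (fun x => if x.2 = 2 then [x.1] else []))).congr (fun w => Iff.rfl)
  have h2 := R0.split ((R0.iUnion _ h1).inter ((R0.nb (S := S)).ofPart 1))
  refine h2.congr ?_
  intro w
  simp only [Set.mem_ofPred_eq, Set.mem_inter_iff, part_mark0, part_mark1, part_mark2, Bad]
  constructor
  · rintro ⟨p, q, r, rfl, ⟨⟨⟨a, b⟩, hab⟩, rfl, rfl⟩, hq⟩
    exact ⟨a, b, q, hab, hq, by simp⟩
  · rintro ⟨a, b, z, hab, hz, rfl⟩
    exact ⟨[(true, a)], z, [(false, b)], by simp, ⟨⟨(a, b), hab⟩, rfl, rfl⟩, hz⟩

/-- the histories of a stack which start and end with the empty stack are in `R0` -/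
theorem R0.dyck {S : Type} [Finite S] [DecidableEq S] :
    R0 (Bool × S) {w | run w [] = some []} := by
  refine ((R0.nb (S := S)).inter (R0.splitAll ((R0.bad (S := S)).ofPart 1).compl)).congr ?_
  intro w
  rw [Set.mem_ofPred_eq, run_iff]
  simp only [Set.mem_inter_iff, Set.mem_ofPred_eq, Set.mem_compl_iff, part_mark1]

end MPdee884H1
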