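import Pool.Agent.Lib.MP_dee884_lc.H1.R0

/-!
# MP_dee884_lc, bounded multiplicity: finite sets of words coded by binary strings
-/

namespace MPdee884H1

/-- the separator -/
def tt : List Bool := [true, true]

/-- a code of letters which is good for `Ent` -/
structure NiceCode {K : Type} (e : K → List Bool) : Prop where
  len : ∃ L : ℕ, ∀ k, (e k).length = L
  inj : Function.Injective e
  first : ∀ k, ∃ t, e k = false :: t
  last : ∀ k, ∃ t, e k = t ++ [false]
  nott : ∀ k s t, e k ≠ s ++ tt ++ t

/-- the terminator -/
def t4 : List Bool := [true, true, true, true]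

/-- no terminator inside, no separator at the end -/
def Cl (l : List Bool) : Prop := ∀ p q r, l = p ++ q ++ r → q ≠ t4 ∧ (r = [] → q ≠ tt)

/-- the words coded in `c` (before the terminator) -/
def Ent {K : Type} (e : K → List Bool) (c : List Bool) : Set (List K) :=
  {w | ∃ c1 c2, c = c1 ++ tt ++ w.flatMap e ++ tt ++ c2 ∧ Cl c1}

theorem R0.cl : R0 Bool {l | Cl l} := by
  have h0 : ∀ (i : Fin 3) (s : List Bool), R0 (Bool × Fin 3) {v | part i v = s} := by
    intro i s
    exact R0.eqc (A := Bool × Fin 3) s (fun x => if x.2 = i then [x.1] else [])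
  refine (R0.splitAll ((h0 1 t4).compl.inter (R0.imp (h0 2 []) (h0 1 tt).compl))).congr ?_
  intro l
  simp only [Set.mem_ofPred_eq, Set.mem_inter_iff, Set.mem_compl_iff, part_mark1, part_mark2, Cl,
    ne_eq]

theorem Cl.suffix {u l : List Bool} (h : Cl (u ++ l)) : Cl l := by
  intro p q r hl
  exact h (u ++ p) q r (by rw [hl]; simp)

theorem lift_append {A B : Type} (c : A → List B) (hc : ∀ a, (c a).length ≤ 1) :
    ∀ (p : List A) (u v : List B), p.flatMap c = u ++ v →
      ∃ p1 p2, p = p1 ++ p2 ∧ p1.flatMap c = u ∧ p2.flatMap c = v := by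
  intro p
  induction p with
  | nil =>
    intro u v h
    simp only [List.flatMap_nil] at h
    obtain ⟨rfl, rfl⟩ := List.append_eq_nil_iff.mp h.symm
    exact ⟨[], [], rfl, rfl, rfl⟩
  | cons a p ih =>
    intro u v h
    cases u with
    | nil => exact ⟨[], a :: p, rfl, rfl, by simpa using h⟩
    | cons b u =>
      have ha := hc a
      rw [List.flatMap_cons] at h
      cases hca : c a with
      | nil =>
        rw [hca] at h
        obtain ⟨p1, p2, h1, h2, h3⟩ := ih (b :: u) v (by simpa using h)
        exact ⟨a :: p1, p2, by rw [h1]; rfl, by simp [hca, h2], h3⟩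
      | cons x t =>
        rw [hca] at h ha
        have : t = [] := by
          apply List.length_eq_zero_iff.mp
          simp only [List.length_cons] at ha
          omega
        subst this
        simp only [List.cons_append, List.nil_append, List.cons.injEq] at h
        obtain ⟨rfl, h⟩ := h
        obtain ⟨p1, p2, h1, h2, h3⟩ := ih u v h
        exact ⟨a :: p1, p2, by rw [h1]; rfl, by simp [hca, h2], h3⟩

/-- membership of a multi-pass word in the coded set is in `R0` -/
theorem R0.ent {A K : Type} [Finite A] (e : K → List Bool) (F : List ((A → List K) × List K))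
    (c : A → List Bool) (hc : ∀ a, (c a).length ≤ 1) :
    R0 A {p | mp F p ∈ Ent e (p.flatMap c)} := by
  have h1 := (R0.eqs (A := A × Fin 3) (B := Bool)
    (([(fun _ => [], tt)] : List ((A × Fin 3 → List Bool) × List Bool)) ++
      F.map (fun f => ((fun x : A × Fin 3 => (f.1 x.1).flatMap e), f.2.flatMap e)) ++
        [(fun _ => [], tt)])
    [((fun x : A × Fin 3 => if x.2 = 1 then c x.1 else []), [])])
  have h2 : R0 (A × Fin 3) {v | Cl ((part 0 v).flatMap c)} := by
    refine ((R0.cl).inv (A := A × Fin 3) (fun x => if x.2 = 0 then c x.1 else [])).congr ?_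
    intro v
    have e2 : v.flatMap (fun x : A × Fin 3 => if x.2 = 0 then c x.1 else []) =
        (part 0 v).flatMap c := by
      unfold part
      rw [List.flatMap_assoc]
      congr 1
      funext x
      by_cases hx : x.2 = 0 <;> simp [hx]
    simp only [Set.mem_ofPred_eq, e2]
  refine (R0.split (h1.inter h2)).congr ?_
  intro p
  simp only [Set.mem_ofPred_eq, Ent, Set.mem_inter_iff]
  have e1 : ∀ v : List (A × Fin 3),
      mp (([(fun _ => [], tt)] : List ((A × Fin 3 → List Bool) × List Bool)) ++
      F.map (fun f => ((fun x : A × Fin 3 => (f.1 x.1).flatMap e), f.2.flatMap e)) ++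
        [(fun _ => [], tt)]) v = tt ++ (mp F (v.map Prod.fst)).flatMap e ++ tt := by
    intro v
    have h0 : v.flatMap (fun _ : A × Fin 3 => ([] : List Bool)) = [] := by simp
    unfold mp
    rw [List.flatMap_append, List.flatMap_append, List.flatMap_cons, List.flatMap_nil]
    simp only [h0, List.nil_append, List.append_nil]
    congr 2
    rw [List.flatMap_map, List.flatMap_assoc]
    congr 1
    funext f
    rw [List.flatMap_append, List.flatMap_assoc, List.flatMap_map]
  have e2 : ∀ v : List (A × Fin 3),
      mp [((fun x : A × Fin 3 => if x.2 = 1 then c x.1 else []), [])] v =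
      (part 1 v).flatMap c := by
    intro v
    unfold part mp
    rw [List.flatMap_cons, List.flatMap_nil, List.append_nil, List.append_nil,
      List.flatMap_assoc]
    congr 1
    funext x
    by_cases hx : x.2 = 1 <;> simp [hx]
  simp only [e1, e2, map_fst_mark3, part_mark0, part_mark1]
  constructor
  · rintro ⟨p1, p2, p3, rfl, h, hcl⟩
    refine ⟨p1.flatMap c, p3.flatMap c, ?_, hcl⟩
    rw [List.flatMap_append, List.flatMap_append, ← h]
    simp
  · rintro ⟨c1, c2, h, hcl⟩
    have h' : p.flatMap c = (c1 ++ (tt ++ (mp F p).flatMap e ++ tt)) ++ c2 := by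
      rw [h]; simp
    obtain ⟨q, p3, h2, h3, h4⟩ := lift_append c hc p _ _ h'
    obtain ⟨p1, p2, h5, h6, h7⟩ := lift_append c hc q _ _ h3
    refine ⟨p1, p2, p3, by rw [h2, h5], ?_, by rw [h6]; exact hcl⟩
    rw [h7, h2, h5]

/-! ### exactness of the code -/

theorem tt_split {a b : List Bool} {s t : List Bool} (h : a ++ b = s ++ tt ++ t)
    (ha : ∀ s t, a ≠ s ++ tt ++ t) (hb : ∀ s t, b ≠ s ++ tt ++ t)
    (hl : a = [] ∨ ∃ a', a = a' ++ [false]) : False := by
  rw [List.append_assoc] at h
  rcases List.append_eq_append_iff.mp h with ⟨x, hx1, hx2⟩ | ⟨x, hx1, hx2⟩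
  · exact hb x t (by rw [hx2]; simp)
  · rcases hl with rfl | ⟨a', ha'⟩
    · obtain ⟨rfl, rfl⟩ := List.append_eq_nil_iff.mp hx1.symm
      exact hb [] t (by simpa using hx2.symm)
    · match x, hx1, hx2 with
      | [], hx1, hx2 => exact hb [] t (by simpa using hx2.symm)
      | [y], hx1, hx2 =>
        simp only [tt, List.cons_append, List.nil_append, List.cons.injEq] at hx2
        rw [ha'] at hx1
        have := (List.append_inj' hx1 rfl).2
        simp only [List.cons.injEq, and_true] at this
        rw [← hx2.1] at this
        simp at this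
      | y :: z :: x, hx1, hx2 =>
        simp only [tt, List.cons_append, List.nil_append, List.cons.injEq] at hx2
        obtain ⟨rfl, rfl, _⟩ := hx2
        exact ha s x (by rw [hx1]; simp [tt])

theorem NiceCode.word_last {K : Type} {e : K → List Bool} (h : NiceCode e) (w : List K) :
    w.flatMap e = [] ∨ ∃ a', w.flatMap e = a' ++ [false] := by
  rcases List.eq_nil_or_concat w with rfl | ⟨w', k, rfl⟩
  · left; rfl
  · right
    obtain ⟨t, ht⟩ := h.last k
    refine ⟨w'.flatMap e ++ t, ?_⟩
    simp [List.concat_eq_append, List.flatMap_append, ht]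

theorem NiceCode.word_nott {K : Type} {e : K → List Bool} (h : NiceCode e) (w : List K) :
    ∀ s t, w.flatMap e ≠ s ++ tt ++ t := by
  induction w with
  | nil =>
    intro s t hst
    simp only [List.flatMap_nil] at hst
    have := congrArg List.length hst
    simp [tt] at this
  | cons k w ih =>
    intro s t hst
    rw [List.flatMap_cons] at hst
    refine tt_split hst (h.nott k) ih ?_
    right
    obtain ⟨t, ht⟩ := h.last k
    exact ⟨t, ht⟩

theorem NiceCode.word_inj {K : Type} {e : K → List Bool} (h : NiceCode e) :
    ∀ w w' : List K, w.flatMap e = w'.flatMap e → w = w' := by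
  intro w
  induction w with
  | nil =>
    intro w' hw
    cases w' with
    | nil => rfl
    | cons k w' =>
      obtain ⟨t, ht⟩ := h.first k
      rw [List.flatMap_cons, ht] at hw
      simp at hw
  | cons k w ih =>
    intro w' hw
    cases w' with
    | nil =>
      obtain ⟨t, ht⟩ := h.first k
      rw [List.flatMap_cons, ht] at hw
      simp at hw
    | cons k' w' =>
      rw [List.flatMap_cons, List.flatMap_cons] at hw
      obtain ⟨L, hL⟩ := h.len
      obtain ⟨h1, h2⟩ := List.append_inj hw (by rw [hL, hL])
      rw [h.inj h1, ih w' h2]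

theorem first_sep {x y u v : List Bool} (hx : ∀ s t, x ≠ s ++ tt ++ t)
    (hy : ∀ s t, y ≠ s ++ tt ++ t) (hxl : x = [] ∨ ∃ a', x = a' ++ [false])
    (hyl : y = [] ∨ ∃ a', y = a' ++ [false]) (h : x ++ (tt ++ u) = y ++ (tt ++ v)) : x = y := by
  have key : ∀ {x y u v : List Bool}, (∀ s t, y ≠ s ++ tt ++ t) →
      (y = [] ∨ ∃ a', y = a' ++ [false]) → ∀ a, y = x ++ a → tt ++ u = a ++ (tt ++ v) →
        x = y := by
    intro x y u v hy hyl a h1 h2
    match a, h1, h2 with
    | [], h1, _ => simpa using h1.symm
    | [b], h1, h2 =>
      exfalso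
      simp only [tt, List.cons_append, List.nil_append, List.cons.injEq] at h2
      rcases hyl with rfl | ⟨a', ha'⟩
      · simp at h1
      · rw [ha'] at h1
        have := (List.append_inj' h1 rfl).2
        simp only [List.cons.injEq, and_true] at this
        rw [← h2.1] at this
        simp at this
    | b :: d :: a, h1, h2 =>
      exfalso
      simp only [tt, List.cons_append, List.nil_append, List.cons.injEq] at h2
      obtain ⟨rfl, rfl, _⟩ := h2
      exact hy x a (by rw [h1]; simp [tt])
  rcases List.append_eq_append_iff.mp h with ⟨a, h1, h2⟩ | ⟨a, h1, h2⟩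
  · exact key hy hyl a h1 h2
  · exact (key hx hxl a h1 h2).symm

theorem skip_sep {x R c1 z : List Bool} (hx : ∀ s t, x ≠ s ++ tt ++ t)
    (hxl : ∃ a', x = a' ++ [false]) (hxf : ∃ a', x = false :: a')
    (h : c1 ++ (tt ++ z) = tt ++ (x ++ R)) :
    c1 = [] ∨ ∃ c', c1 = tt ++ (x ++ c') ∧ c' ++ (tt ++ z) = R := by
  match c1, h with
  | [], _ => exact Or.inl rfl
  | [b], h =>
    exfalso
    obtain ⟨a', ha'⟩ := hxf
    rw [ha'] at h
    simp [tt] at h
  | b :: d :: c', h =>
    right
    simp only [tt, List.cons_append, List.nil_append, List.cons.injEq] at h ⊢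
    obtain ⟨hb, hd, h⟩ := h
    simp only [hb, hd, true_and]
    rcases List.append_eq_append_iff.mp h with ⟨a, h1, h2⟩ | ⟨a, h1, h2⟩
    · match a, h1, h2 with
      | [], h1, h2 =>
        exact ⟨[], by rw [h1]; simp, by simpa using h2⟩
      | [y], h1, h2 =>
        exfalso
        simp only [List.cons_append, List.nil_append, List.cons.injEq] at h2
        obtain ⟨a', ha'⟩ := hxl
        rw [ha'] at h1
        have := (List.append_inj' h1 rfl).2
        simp only [List.cons.injEq, and_true] at this
        rw [← h2.1] at this
        simp at this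
      | y :: y' :: a, h1, h2 =>
        exfalso
        simp only [List.cons_append, List.nil_append, List.cons.injEq] at h2
        obtain ⟨rfl, rfl, _⟩ := h2
        exact hx c' a (by rw [h1]; simp [tt])
    · exact ⟨a, by rw [h1], by simpa [tt] using h2.symm⟩

/-- the string which codes a list of words -/
def body {K : Type} (e : K → List Bool) : List (List K) → List Bool
  | [] => []
  | w :: W => tt ++ (w.flatMap e ++ body e W)

theorem body_append {K : Type} (e : K → List Bool) (W W' : List (List K)) :
    body e (W ++ W') = body e W ++ body e W' := by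
  induction W with
  | nil => rfl
  | cons w W ih => simp only [List.cons_append, body, ih, List.append_assoc]

theorem body_tt {K : Type} (e : K → List Bool) (W : List (List K)) (r : List Bool) :
    ∃ t, body e W ++ (t4 ++ r) = tt ++ t := by
  cases W with
  | nil => exact ⟨tt ++ r, by simp [body, t4, tt]⟩
  | cons w W =>
    exact ⟨w.flatMap e ++ (body e W ++ (t4 ++ r)), by simp only [body, List.append_assoc]⟩

/-- no three consecutive `true`, no `true` at the end -/
def N3 (l : List Bool) : Prop :=
  (∀ p r, l ≠ p ++ [true, true, true] ++ r) ∧ (l = [] ∨ ∃ l', l = l' ++ [false])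

theorem N3.cl {l : List Bool} (h : N3 l) : Cl l := by
  intro p q r hl
  constructor
  · rintro rfl
    exact h.1 p (true :: r) (by rw [hl]; simp [t4])
  · rintro rfl rfl
    rcases h.2 with h | ⟨l', h⟩
    · rw [h] at hl
      have := congrArg List.length hl
      simp [tt] at this
    · rw [h] at hl
      have h2 : l' ++ [false] = (p ++ [true]) ++ [true] := by rw [hl]; simp [tt]
      have := (List.append_inj' h2 rfl).2
      simp at this

theorem N3.append {a b : List Bool} (ha : N3 a) (hb : N3 b) : N3 (a ++ b) := by
  constructor
  · intro p r h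
    rw [List.append_assoc] at h
    rcases List.append_eq_append_iff.mp h with ⟨x, hx1, hx2⟩ | ⟨x, hx1, hx2⟩
    · exact hb.1 x r (by rw [hx2]; simp)
    · rcases ha.2 with rfl | ⟨a', ha'⟩
      · obtain ⟨rfl, rfl⟩ := List.append_eq_nil_iff.mp hx1.symm
        exact hb.1 [] r (by simpa using hx2.symm)
      · match x, hx1, hx2 with
        | [], hx1, hx2 => exact hb.1 [] r (by simpa using hx2.symm)
        | [y], hx1, hx2 =>
          simp only [List.cons_append, List.nil_append, List.cons.injEq] at hx2
          rw [ha'] at hx1
          have := (List.append_inj' hx1 rfl).2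
          simp only [List.cons.injEq, and_true] at this
          rw [← hx2.1] at this
          simp at this
        | [y, y'], hx1, hx2 =>
          simp only [List.cons_append, List.nil_append, List.cons.injEq] at hx2
          rw [ha'] at hx1
          have h3 : a' ++ [false] = (p ++ [y]) ++ [y'] := by rw [hx1]; simp
          have := (List.append_inj' h3 rfl).2
          simp only [List.cons.injEq, and_true] at this
          rw [← hx2.2.1] at this
          simp at this
        | y :: y' :: y'' :: x, hx1, hx2 =>
          simp only [List.cons_append, List.nil_append, List.cons.injEq] at hx2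
          obtain ⟨rfl, rfl, rfl, _⟩ := hx2
          exact ha.1 p x (by rw [hx1]; simp)
  · rcases hb.2 with rfl | ⟨b', hb'⟩
    · simpa using ha.2
    · right
      exact ⟨a ++ b', by rw [hb']; simp⟩

theorem NiceCode.n3 {K : Type} {e : K → List Bool} (he : NiceCode e) {w : List K}
    (hw : w ≠ []) : N3 (tt ++ w.flatMap e) := by
  have hf : ∃ a', w.flatMap e = false :: a' := by
    cases w with
    | nil => exact absurd rfl hw
    | cons k w =>
      obtain ⟨t, ht⟩ := he.first k
      exact ⟨t ++ w.flatMap e, by rw [List.flatMap_cons, ht]; rfl⟩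
  constructor
  · intro p r h
    obtain ⟨a', ha'⟩ := hf
    match p, h with
    | [], h =>
      rw [ha'] at h
      simp [tt] at h
    | [y], h =>
      rw [ha'] at h
      simp [tt] at h
    | y :: y' :: p, h =>
      simp only [tt, List.cons_append, List.nil_append, List.cons.injEq] at h
      exact he.word_nott w p (true :: r) (by rw [h.2.2]; simp [tt])
  · right
    rcases he.word_last w with h0 | ⟨a', h0⟩
    · obtain ⟨a', ha'⟩ := hf
      rw [ha'] at h0
      simp at h0
    · exact ⟨tt ++ a', by rw [h0]; simp⟩

theorem body_n3 {K : Type} {e : K → List Bool} (he : NiceCode e) (W : List (List K))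
    (hW : ∀ w ∈ W, w ≠ []) : N3 (body e W) := by
  induction W with
  | nil =>
    refine ⟨?_, Or.inl rfl⟩
    intro p r h
    have := congrArg List.length h
    simp [body] at this
  | cons w W ih =>
    have h1 := (he.n3 (hW w (by simp))).append (ih (fun w hw => hW w (by simp [hw])))
    simpa only [body, List.append_assoc] using h1

theorem mem_body {K : Type} {e : K → List Bool} (he : NiceCode e) (W : List (List K))
    (hW : ∀ w ∈ W, w ≠ []) (r : List Bool) (w : List K) (hw : w ≠ []) :
    w ∈ Ent e (body e W ++ (t4 ++ r)) ↔ w ∈ W := by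
  have hf : ∀ w : List K, w ≠ [] → ∃ a', w.flatMap e = false :: a' := by
    intro w hw
    cases w with
    | nil => exact absurd rfl hw
    | cons k w =>
      obtain ⟨t, ht⟩ := he.first k
      exact ⟨t ++ w.flatMap e, by rw [List.flatMap_cons, ht]; rfl⟩
  constructor
  · rintro ⟨c1, c2, h, hcl⟩
    induction W generalizing c1 with
    | nil =>
      exfalso
      obtain ⟨a', ha'⟩ := hf w hw
      rw [ha'] at h
      match c1, h, hcl with
      | [], h, _ => simp [body, t4, tt] at h
      | [y], h, _ => simp [body, t4, tt] at h
      | [y, y'], h, hcl =>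
        simp only [body, t4, tt, List.cons_append, List.nil_append, List.cons.injEq] at h
        obtain ⟨rfl, rfl, _⟩ := h
        exact (hcl [] tt [] (by simp [tt])).2 rfl rfl
      | [y, y', y''], h, hcl =>
        simp only [body, t4, tt, List.cons_append, List.nil_append, List.cons.injEq] at h
        obtain ⟨rfl, rfl, rfl, _⟩ := h
        exact (hcl [true] tt [] (by simp [tt])).2 rfl rfl
      | y :: y' :: y'' :: y3 :: c1, h, hcl =>
        simp only [body, t4, tt, List.cons_append, List.nil_append, List.cons.injEq] at h
        obtain ⟨rfl, rfl, rfl, rfl, _⟩ := h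
        exact (hcl [] t4 c1 (by simp [t4])).1 rfl
    | cons w0 W ih =>
      have hw0 : w0 ≠ [] := hW w0 (by simp)
      have hl : ∃ a', w0.flatMap e = a' ++ [false] := by
        rcases he.word_last w0 with h0 | h0
        · obtain ⟨a', ha'⟩ := hf w0 hw0
          rw [ha'] at h0
          simp at h0
        · exact h0
      have h' : c1 ++ (tt ++ (w.flatMap e ++ (tt ++ c2))) =
          tt ++ (w0.flatMap e ++ (body e W ++ (t4 ++ r))) := by
        have e1 : tt ++ (w0.flatMap e ++ (body e W ++ (t4 ++ r))) =
            body e (w0 :: W) ++ (t4 ++ r) := by simp only [body, List.append_assoc]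
        rw [e1, h]
        simp
      rcases skip_sep (he.word_nott w0) hl (hf w0 hw0) h' with rfl | ⟨c', hc1, hc'⟩
      · obtain ⟨t, ht⟩ := body_tt e W r
        rw [ht] at h'
        simp only [List.nil_append, List.append_cancel_left_eq] at h'
        have := first_sep (he.word_nott w) (he.word_nott w0) (he.word_last w)
          (he.word_last w0) h'
        rw [he.word_inj _ _ this]
        simp
      · rw [hc1, ← List.append_assoc] at hcl
        have := ih (fun w hw => hW w (by simp [hw])) c' (by rw [← hc']; simp) hcl.suffix
        simp [this]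
  · intro h
    obtain ⟨W1, W2, rfl⟩ := List.append_of_mem h
    obtain ⟨t, ht⟩ := body_tt e W2 r
    refine ⟨body e W1, t, ?_, ?_⟩
    · have e1 : body e (W1 ++ w :: W2) ++ (t4 ++ r) =
          body e W1 ++ tt ++ w.flatMap e ++ (body e W2 ++ (t4 ++ r)) := by
        rw [body_append]
        simp only [body, List.append_assoc]
      rw [e1, ht]
      simp
    · exact (body_n3 he W1 (fun w hw => hW w (by simp [hw]))).cl

theorem mem_Ent_false {K : Type} (e : K → List Bool) (c : List Bool) (w : List K) :
    w ∈ Ent e (false :: c) ↔ w ∈ Ent e c := by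
  constructor
  · rintro ⟨c1, c2, h, hcl⟩
    cases c1 with
    | nil => simp [tt] at h
    | cons b c1 =>
      simp only [List.cons_append, List.cons.injEq] at h
      exact ⟨c1, c2, h.2, Cl.suffix (u := [b]) hcl⟩
  · rintro ⟨c1, c2, h, hcl⟩
    refine ⟨false :: c1, c2, by rw [h]; simp, ?_⟩
    intro p q r hl
    cases p with
    | nil =>
      constructor
      · rintro rfl
        simp [t4] at hl
      · rintro _ rfl
        simp [tt] at hl
    | cons b p =>
      simp only [List.cons_append, List.cons.injEq] at hl
      exact hcl p q r hl.2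

theorem mem_Ent_lead {K : Type} (e : K → List Bool) (a : ℕ) (c : List Bool) (w : List K) :
    w ∈ Ent e (List.replicate a false ++ c) ↔ w ∈ Ent e c := by
  induction a with
  | zero => simp
  | succ a ih => rw [List.replicate_succ, List.cons_append, mem_Ent_false, ih]

/-- exactly `a` letters `false`, then `true` -/
def Lead (a : ℕ) (c : List Bool) : Prop := ∃ t, c = List.replicate a false ++ true :: t

/-- every finite set of nonempty words is coded by all extensions of some string, which may
start with any number of letters `false` -/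
theorem exists_code {K : Type} {e : K → List Bool} (he : NiceCode e) (F : Set (List K))
    (hF : F.Finite) (hne : ∀ w ∈ F, w ≠ []) (a : ℕ) :
    ∃ core : List Bool, Lead a core ∧ ∀ r w, w ≠ [] → (w ∈ Ent e (core ++ r) ↔ w ∈ F) := by
  have hF2 : ∃ W : List (List K), ∀ w, w ∈ W ↔ w ∈ F := by
    refine ⟨hF.toFinset.toList, ?_⟩
    intro w
    simp
  obtain ⟨W, hW⟩ := hF2
  refine ⟨List.replicate a false ++ (body e W ++ t4), ?_, ?_⟩
  · obtain ⟨t, ht⟩ := body_tt e W []
    refine ⟨true :: t, ?_⟩
    rw [List.append_nil] at ht
    rw [ht]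
    rfl
  · intro r w hw
    have e1 : List.replicate a false ++ (body e W ++ t4) ++ r =
        List.replicate a false ++ (body e W ++ (t4 ++ r)) := by simp
    rw [e1, mem_Ent_lead, mem_body he W (fun w hw => hne w ((hW w).mp hw)) r w hw, hW]

/-- nice codes exist -/
theorem exists_niceCode (K : Type) [Finite K] : ∃ e : K → List Bool, NiceCode e := by
  classical
  obtain ⟨N, ⟨f⟩⟩ := Finite.exists_equiv_fin K
  let g : K → List ℕ → List Bool := fun k l =>
    l.flatMap (fun i => [false, decide (i = (f k).1)]) ++ [false]
  have hg : ∀ k l, ∃ t, g k l = false :: t := by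
    intro k l
    cases l with
    | nil => exact ⟨[], rfl⟩
    | cons i l => exact ⟨_, rfl⟩
  have hnott : ∀ k l s t, g k l ≠ s ++ tt ++ t := by
    intro k l
    induction l with
    | nil =>
      intro s t h
      have := congrArg List.length h
      simp [g, tt] at this
      omega
    | cons i l ih =>
      intro s t h
      have h' : [false, decide (i = (f k).1)] ++ g k l = s ++ (tt ++ t) := by
        rw [← List.append_assoc s, ← h]
        simp [g]
      obtain ⟨u, hu⟩ := hg k l
      match s, h' with
      | [], h' => simp [tt] at h'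
      | [a], h' =>
        rw [hu] at h'
        simp [tt] at h'
      | a :: b :: s, h' =>
        simp only [List.cons_append, List.nil_append, List.cons.injEq] at h'
        exact ih s t (by rw [h'.2.2]; simp)
  refine ⟨fun k => g k (List.range N), ?_⟩
  refine ⟨⟨2 * N + 1, ?_⟩, ?_, fun k => hg k _, ?_, fun k => hnott k _⟩
  · intro k
    simp [g, List.length_flatMap]
    ring
  · intro k k' h
    have h1 : ∀ l : List ℕ, g k l = g k' l → ∀ i ∈ l, (i = (f k).1 ↔ i = (f k').1) := by
      intro l
      induction l with
      | nil => simp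
      | cons j l ih =>
        intro hl i hi
        simp only [g, List.flatMap_cons, List.cons_append, List.nil_append, List.cons.injEq,
          true_and] at hl
        rcases List.mem_cons.mp hi with rfl | hi
        · have := hl.1
          simpa using this
        · exact ih hl.2 i hi
    have h2 := (h1 _ h (f k).1 (List.mem_range.mpr (f k).2)).mp rfl
    exact f.injective (Fin.ext h2)
  · intro k
    exact ⟨_, rfl⟩

end MPdee884H1
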