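import Mathlib

/-!
# MP_dee884_lc, bounded multiplicity: the class R0

`R0` is the closure of the equality sets of multi-pass homomorphisms under complement, union and
letter maps. It is closed under inverse homomorphisms, Boolean operations and all quantifiers
over tracks.
-/

namespace MPdee884H1

/-- a multi-pass homomorphism `w ↦ e1(w) s1 e2(w) s2 ...` -/
def mp {A B : Type} (F : List ((A → List B) × List B)) (w : List A) : List B :=
  F.flatMap (fun p => w.flatMap p.1 ++ p.2)

/-- closure of the equality sets under complement, union and images under letter maps -/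
inductive R0 : (A : Type) → Set (List A) → Prop
  | eqs {A B : Type} [Finite A] [Finite B] (F G : List ((A → List B) × List B)) :
      R0 A {w | mp F w = mp G w}
  | compl {A : Type} {L : Set (List A)} : R0 A L → R0 A Lᶜ
  | union {A : Type} {L M : Set (List A)} : R0 A L → R0 A M → R0 A (L ∪ M)
  | img {A B : Type} [Finite A] [Finite B] (f : A → B) {L : Set (List A)} :
      R0 A L → R0 B {w | ∃ v ∈ L, v.map f = w}

theorem R0.congr {A : Type} {L M : Set (List A)} (h : R0 A L) (e : ∀ w, w ∈ L ↔ w ∈ M) :
    R0 A M := by
  have : L = M := Set.ext e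
  rwa [← this]

theorem R0.inter {A : Type} {L M : Set (List A)} (h1 : R0 A L) (h2 : R0 A M) :
    R0 A (L ∩ M) := by
  refine (R0.compl (R0.union (R0.compl h1) (R0.compl h2))).congr ?_
  intro w
  simp

/-- the equality set of two homomorphisms with constants -/
theorem R0.eq2 {A B : Type} [Finite A] [Finite B] (s : List B) (f : A → List B) (t : List B)
    (g : A → List B) : R0 A {w | s ++ w.flatMap f ++ t = w.flatMap g} := by
  refine (R0.eqs (A := A) (B := B) [(fun _ => [], s), (f, t)] [(g, [])]).congr ?_
  intro w
  have h0 : w.flatMap (fun _ : A => ([] : List B)) = [] := by simp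
  simp only [Set.mem_ofPred_eq, mp, List.flatMap_cons, List.flatMap_nil, List.append_nil, h0,
    List.nil_append, List.append_assoc]

theorem R0.eqf {A B : Type} [Finite A] [Finite B] (f g : A → List B) :
    R0 A {w | w.flatMap f = w.flatMap g} := by
  refine (R0.eq2 (A := A) (B := B) [] f [] g).congr ?_
  intro w
  simp

theorem R0.eqc {A B : Type} [Finite A] [Finite B] (s : List B) (g : A → List B) :
    R0 A {w | w.flatMap g = s} := by
  refine (R0.eq2 (A := A) (B := B) s (fun _ => []) [] g).congr ?_
  intro w
  have : w.flatMap (fun _ : A => ([] : List B)) = [] := by simp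
  simp only [Set.mem_ofPred_eq, this, List.append_nil]
  exact eq_comm

theorem R0.univ {A : Type} [Finite A] : R0 A Set.univ := by
  refine (R0.eqf (A := A) (B := Unit) (fun _ => []) (fun _ => [])).congr ?_
  intro w
  simp

theorem R0.empty {A : Type} [Finite A] : R0 A ∅ := by
  refine (R0.compl (R0.univ (A := A))).congr ?_
  intro w
  simp

theorem R0.imp {A : Type} {L M : Set (List A)} (h1 : R0 A L) (h2 : R0 A M) :
    R0 A {w | w ∈ L → w ∈ M} := by
  refine (R0.union (R0.compl h1) h2).congr ?_
  intro w
  simp only [Set.mem_union, Set.mem_compl_iff, Set.mem_ofPred_eq]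
  tauto

theorem R0.iUnion {A : Type} [Finite A] {ι : Type} [Finite ι] (L : ι → Set (List A))
    (h : ∀ i, R0 A (L i)) : R0 A {w | ∃ i, w ∈ L i} := by
  classical
  have key : ∀ s : Finset ι, R0 A {w | ∃ i ∈ s, w ∈ L i} := by
    intro s
    induction s using Finset.induction_on with
    | empty =>
      refine (R0.empty (A := A)).congr ?_
      intro w
      simp
    | insert a s ha ih =>
      refine (R0.union (h a) ih).congr ?_
      intro w
      simp
  have := Fintype.ofFinite ι
  refine (key Finset.univ).congr ?_
  intro w
  simp

theorem R0.iInter {A : Type} [Finite A] {ι : Type} [Finite ι] (L : ι → Set (List A))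
    (h : ∀ i, R0 A (L i)) : R0 A {w | ∀ i, w ∈ L i} := by
  refine (R0.compl (R0.iUnion (fun i => (L i)ᶜ) (fun i => R0.compl (h i)))).congr ?_
  intro w
  simp

/-- arbitrary finite Boolean combinations -/
theorem R0.bool {A : Type} [Finite A] {ι : Type} [Finite ι] (L : ι → Set (List A))
    (h : ∀ i, R0 A (L i)) (b : (ι → Bool) → Bool) :
    R0 A {w | ∃ t : ι → Bool, b t = true ∧ ∀ i, (w ∈ L i ↔ t i = true)} := by
  have h1 : ∀ t : ι → Bool, R0 A {w | ∀ i, w ∈ (if t i = true then L i else (L i)ᶜ)} := by
    intro t
    refine R0.iInter _ ?_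
    intro i
    by_cases ht : t i = true
    · simp only [ht, if_true]
      exact h i
    · simp only [ht]
      exact (h i).compl
  have h2 : ∀ t : ι → Bool, R0 A {w | b t = true ∧ ∀ i, (w ∈ L i ↔ t i = true)} := by
    intro t
    by_cases hb : b t = true
    · refine (h1 t).congr ?_
      intro w
      simp only [Set.mem_ofPred_eq, hb, true_and]
      refine forall_congr' ?_
      intro i
      by_cases ht : t i = true
      · simp [ht]
      · simp [ht]
    · refine (R0.empty (A := A)).congr ?_
      intro w
      simp [hb]
  refine (R0.iUnion _ h2).congr ?_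
  intro w
  simp

theorem mp_flatMap {A B C : Type} (F : List ((B → List C) × List C)) (g : A → List B)
    (v : List A) :
    mp (F.map (fun p => ((fun a => (g a).flatMap p.1), p.2))) v = mp F (v.flatMap g) := by
  unfold mp
  rw [List.flatMap_map]
  congr 1
  funext p
  rw [List.flatMap_assoc]

/-- splitting a preimage under a letter map along a homomorphic image -/
theorem exists_pull {A B C : Type} (f : C → B) (g : A → List B) :
    ∀ (v : List A) (w : List C), w.map f = v.flatMap g →
      ∃ d : List {p : A × List C // p.2.map f = g p.1},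
        d.map (fun p => p.1.1) = v ∧ d.flatMap (fun p => p.1.2) = w := by
  intro v
  induction v with
  | nil =>
    intro w hw
    simp only [List.flatMap_nil, List.map_eq_nil_iff] at hw
    exact ⟨[], by simp [hw]⟩
  | cons a v ih =>
    intro w hw
    rw [List.flatMap_cons, List.map_eq_append_iff] at hw
    obtain ⟨w1, w2, rfl, h1, h2⟩ := hw
    obtain ⟨d, hd1, hd2⟩ := ih w2 h2
    exact ⟨⟨(a, w1), h1⟩ :: d, by simp [hd1], by simp [hd2]⟩

theorem finite_pull {A B C : Type} [Finite A] [Finite C] (f : C → B) (g : A → List B) :
    Finite {p : A × List C // p.2.map f = g p.1} := by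
  have h1 : ∀ a : A, Set.Finite {l : List C | l.length = (g a).length} := fun a =>
    List.finite_length_eq C _
  have h2 : Set.Finite {p : A × List C | p.2.map f = g p.1} := by
    have : {p : A × List C | p.2.map f = g p.1} ⊆
        ⋃ a : A, (fun l : List C => (a, l)) '' {l : List C | l.length = (g a).length} := by
      rintro ⟨a, l⟩ h
      simp only [Set.mem_ofPred_eq] at h
      simp only [Set.mem_iUnion, Set.mem_image, Set.mem_ofPred_eq]
      refine ⟨a, l, ?_, rfl⟩
      rw [← h, List.length_map]
    exact (Set.finite_iUnion (fun a => (h1 a).image _)).subset this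
  exact h2.to_subtype

/-- `R0` is closed under inverse homomorphisms -/
theorem R0.inv {B : Type} {L : Set (List B)} (h : R0 B L) :
    ∀ {A : Type} [Finite A] (g : A → List B), R0 A {v | v.flatMap g ∈ L} := by
  induction h with
  | @eqs B C _ _ F G =>
    intro A _ g
    refine (R0.eqs (F.map (fun p => ((fun a => (g a).flatMap p.1), p.2)))
      (G.map (fun p => ((fun a => (g a).flatMap p.1), p.2)))).congr ?_
    intro w
    simp only [Set.mem_ofPred_eq, mp_flatMap]
  | compl _ ih =>
    intro A _ g
    exact (ih g).compl
  | union _ _ ih1 ih2 =>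
    intro A _ g
    exact (ih1 g).union (ih2 g)
  | @img C B _ _ f L _ ih =>
    intro A _ g
    have := finite_pull (A := A) f g
    refine (R0.img (fun p : {p : A × List C // p.2.map f = g p.1} => p.1.1)
      (ih (fun p : {p : A × List C // p.2.map f = g p.1} => p.1.2))).congr ?_
    intro v
    simp only [Set.mem_ofPred_eq]
    constructor
    · rintro ⟨d, hd1, rfl⟩
      refine ⟨_, hd1, ?_⟩
      rw [List.flatMap_map]
      rw [List.map_flatMap]
      congr 1
      funext p
      exact p.2
    · rintro ⟨w, hw1, hw2⟩
      obtain ⟨d, hd1, hd2⟩ := exists_pull f g v w hw2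
      exact ⟨d, by rw [hd2]; exact hw1, hd1⟩

/-- inverse images under letter maps -/
theorem R0.invMap {A B : Type} [Finite A] {L : Set (List B)} (h : R0 B L) (g : A → B) :
    R0 A {v | v.map g ∈ L} := by
  refine (h.inv (fun a => [g a])).congr ?_
  intro w
  have : w.flatMap (fun a => [g a]) = w.map g := by
    induction w with
    | nil => rfl
    | cons a w ih => simp [ih]
  simp only [Set.mem_ofPred_eq, this]

/-- universal quantification along a letter map -/
theorem R0.all {A B : Type} [Finite A] [Finite B] (f : A → B) {L : Set (List A)}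
    (h : R0 A L) : R0 B {w | ∀ v, v.map f = w → v ∈ L} := by
  refine (R0.compl (R0.img f h.compl)).congr ?_
  intro w
  simp only [Set.mem_compl_iff, Set.mem_ofPred_eq, not_exists, not_and]
  constructor
  · intro H v hv
    by_contra hc
    exact H v hc hv
  · intro H v hc hv
    exact hc (H v hv)

/-- the words with parts `0`, `1`, `2` -/
def mark3 {A : Type} (p q r : List A) : List (A × Fin 3) :=
  p.map (fun a => (a, 0)) ++ q.map (fun a => (a, 1)) ++ r.map (fun a => (a, 2))

/-- the part with tag `i` -/
def part {A : Type} (i : Fin 3) (v : List (A × Fin 3)) : List A :=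
  v.flatMap (fun x => if x.2 = i then [x.1] else [])

theorem part_append {A : Type} (i : Fin 3) (v w : List (A × Fin 3)) :
    part i (v ++ w) = part i v ++ part i w := by
  simp [part]

theorem part_const {A : Type} (i j : Fin 3) (v : List A) :
    part i (v.map (fun a => (a, j))) = if j = i then v else [] := by
  induction v with
  | nil => simp [part]
  | cons a v ih =>
    have : part i ((a :: v).map (fun a => (a, j))) =
        (if j = i then [a] else []) ++ part i (v.map (fun a => (a, j))) := by
      simp [part]
    rw [this, ih]
    split_ifs <;> simp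

theorem part_mark0 {A : Type} (p q r : List A) : part 0 (mark3 p q r) = p := by
  simp [mark3, part_append, part_const]

theorem part_mark1 {A : Type} (p q r : List A) : part 1 (mark3 p q r) = q := by
  simp [mark3, part_append, part_const]

theorem part_mark2 {A : Type} (p q r : List A) : part 2 (mark3 p q r) = r := by
  simp [mark3, part_append, part_const]

theorem map_fst_mark3 {A : Type} (p q r : List A) :
    (mark3 p q r).map Prod.fst = p ++ q ++ r := by
  simp [mark3, Function.comp_def]

/-- existential splitting -/
theorem R0.split {A : Type} [Finite A] {L : Set (List (A × Fin 3))} (h : R0 (A × Fin 3) L) :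
    R0 A {w | ∃ p q r, w = p ++ q ++ r ∧ mark3 p q r ∈ L} := by
  have hs : R0 (A × Fin 3) {v | mark3 (part 0 v) (part 1 v) (part 2 v) = v} := by
    refine (R0.eqs (A := A × Fin 3) (B := A × Fin 3)
      [(fun x => if x.2 = 0 then [(x.1, 0)] else [], []),
       (fun x => if x.2 = 1 then [(x.1, 1)] else [], []),
       (fun x => if x.2 = 2 then [(x.1, 2)] else [], [])]
      [(fun x => [x], [])]).congr ?_
    intro w
    have e : ∀ i : Fin 3, w.flatMap (fun x => if x.2 = i then [(x.1, i)] else []) =
        (part i w).map (fun a => (a, i)) := by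
      intro i
      unfold part
      rw [List.map_flatMap]
      congr 1
      funext x
      split_ifs <;> simp
    have e2 : w.flatMap (fun x : A × Fin 3 => [x]) = w := by
      induction w with
      | nil => rfl
      | cons a w ih => simp
    simp only [Set.mem_ofPred_eq, mp, List.flatMap_cons, List.flatMap_nil, List.append_nil, e, e2,
      mark3, List.append_assoc]
  refine (R0.img Prod.fst (h.inter hs)).congr ?_
  intro w
  simp only [Set.mem_ofPred_eq]
  constructor
  · rintro ⟨v, ⟨hv1, hv2⟩, rfl⟩
    simp only [Set.mem_ofPred_eq] at hv2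
    refine ⟨part 0 v, part 1 v, part 2 v, ?_, ?_⟩
    · rw [← map_fst_mark3, hv2]
    · rw [hv2]; exact hv1
  · rintro ⟨p, q, r, rfl, hm⟩
    refine ⟨mark3 p q r, ⟨hm, ?_⟩, map_fst_mark3 p q r⟩
    simp only [Set.mem_ofPred_eq, part_mark0, part_mark1, part_mark2]

/-- universal splitting -/
theorem R0.splitAll {A : Type} [Finite A] {L : Set (List (A × Fin 3))}
    (h : R0 (A × Fin 3) L) :
    R0 A {w | ∀ p q r, w = p ++ q ++ r → mark3 p q r ∈ L} := by
  refine (R0.compl (R0.split h.compl)).congr ?_
  intro w
  simp only [Set.mem_compl_iff, Set.mem_ofPred_eq, not_exists, not_and, not_not]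

/-- a property of one part -/
theorem R0.ofPart {A : Type} [Finite A] {L : Set (List A)} (h : R0 A L) (i : Fin 3) :
    R0 (A × Fin 3) {v | part i v ∈ L} :=
  h.inv (fun x : A × Fin 3 => if x.2 = i then [x.1] else [])

end MPdee884H1
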