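import Pool.Agent.Lib.MP_dee884_lc.Lin
import Pool.Agent.Lib.MP_dee884_lc.H1.R0

/-!
# MP_dee884_lc, bounded multiplicity: the class RUD

`Rud` is the smallest class of languages which contains LINTIME and is closed under
complementation and under non-erasing homomorphisms. It is closed under unions and contains `R0`.
-/

namespace MPdee884H1

open Pool.Agent.Lin

/-- the smallest class which contains `LINTIME` and is closed under complementation and images
under non-erasing homomorphisms -/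
inductive Rud : (α : Type) → Set (List α) → Prop
  | lin {α : Type} [Finite α] {L : Set (List α)} : LINTIME L → Rud α L
  | compl {α : Type} {L : Set (List α)} : Rud α L → Rud α Lᶜ
  | hom {α β : Type} [Finite α] [Finite β] (h : α → List β) (hh : ∀ a, h a ≠ [])
      {L : Set (List α)} : Rud α L → Rud β {w | ∃ v ∈ L, v.flatMap h = w}

theorem Rud.congr {A : Type} {L M : Set (List A)} (h : Rud A L) (e : ∀ w, w ∈ L ↔ w ∈ M) :
    Rud A M := by
  have : L = M := Set.ext e
  rwa [← this]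

theorem lin_univ {α : Type} [Finite α] : LINTIME (Set.univ : Set (List α)) := by
  have h := lintime_eq (α := α) (β := Unit) (MP.hom (fun _ => [])) (MP.hom (fun _ => []))
  have e : {x : List α | (MP.hom (fun _ : α => ([] : List Unit))).val x =
      (MP.hom (fun _ : α => ([] : List Unit))).val x} = Set.univ := by
    ext x
    simp
  rwa [e] at h

theorem lin_empty {α : Type} [Finite α] : LINTIME (∅ : Set (List α)) := by
  have h := (lin_univ (α := α)).compl
  rwa [Set.compl_univ] at h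

theorem lin_nil {α : Type} [Finite α] : LINTIME {x : List α | x = []} := by
  have h := lintime_eq (α := α) (β := α) (MP.id) (MP.hom (fun _ => []))
  have e : {x : List α | (MP.id : MP α α).val x = (MP.hom (fun _ : α => ([] : List α))).val x} =
      {x : List α | x = []} := by
    ext x
    have h0 : x.flatMap (fun _ : α => ([] : List α)) = [] := by simp
    simp only [Set.mem_ofPred_eq, MP.id_val, MP.hom_val, h0]
  rwa [e] at h

theorem lin_inv {α β : Type} [Finite β] {L : Set (List α)} (g : β → List α) (h : LINTIME L) :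
    LINTIME {x : List β | x.flatMap g ∈ L} := by
  have := h.inv (MP.hom g)
  simpa only [MP.hom_val] using this

/-- the words over the left alphabet -/
def allInl {α γ : Type} (w : List (α ⊕ γ)) : Prop := ∃ v : List α, w = v.map Sum.inl

/-- the words over the right alphabet -/
def allInr {α γ : Type} (w : List (α ⊕ γ)) : Prop := ∃ v : List γ, w = v.map Sum.inr

theorem allInl_iff {α γ : Type} (w : List (α ⊕ γ)) :
    allInl w ↔ w.flatMap (Sum.elim (fun _ => []) (fun y => [y])) = ([] : List γ) := by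
  constructor
  · rintro ⟨v, rfl⟩
    rw [List.flatMap_map]
    simp
  · intro h
    induction w with
    | nil => exact ⟨[], rfl⟩
    | cons a w ih =>
      cases a with
      | inl a =>
        obtain ⟨v, hv⟩ := ih (by simpa using h)
        exact ⟨a :: v, by simp [hv]⟩
      | inr a => simp at h

theorem allInr_iff {α γ : Type} (w : List (α ⊕ γ)) :
    allInr w ↔ w.flatMap (Sum.elim (fun y => [y]) (fun _ => [])) = ([] : List α) := by
  constructor
  · rintro ⟨v, rfl⟩
    rw [List.flatMap_map]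
    simp
  · intro h
    induction w with
    | nil => exact ⟨[], rfl⟩
    | cons a w ih =>
      cases a with
      | inr a =>
        obtain ⟨v, hv⟩ := ih (by simpa using h)
        exact ⟨a :: v, by simp [hv]⟩
      | inl a => simp at h

theorem lin_allInl {α γ : Type} [Finite α] [Finite γ] :
    LINTIME {w : List (α ⊕ γ) | allInl w} := by
  have h := lin_inv (Sum.elim (fun _ => []) (fun y => [y]) : α ⊕ γ → List γ) (lin_nil (α := γ))
  simpa only [allInl_iff, Set.mem_ofPred_eq] using h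

theorem lin_allInr {α γ : Type} [Finite α] [Finite γ] :
    LINTIME {w : List (α ⊕ γ) | allInr w} := by
  have h := lin_inv (Sum.elim (fun y => [y]) (fun _ => []) : α ⊕ γ → List α) (lin_nil (α := α))
  simpa only [allInr_iff, Set.mem_ofPred_eq] using h

/-- the copy of a language over the left alphabet -/
def Inl {α : Type} (γ : Type) (L : Set (List α)) : Set (List (α ⊕ γ)) :=
  {w | ∃ v ∈ L, w = v.map Sum.inl}

/-- the copy of a language over the right alphabet -/
def Inr (α : Type) {γ : Type} (M : Set (List γ)) : Set (List (α ⊕ γ)) :=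
  {w | ∃ v ∈ M, w = v.map Sum.inr}

theorem lin_Inl {α γ : Type} [Finite α] [Finite γ] {L : Set (List α)} (h : LINTIME L) :
    LINTIME (Inl γ L) := by
  have h1 := (lin_allInl (α := α) (γ := γ)).inter
    (lin_inv (Sum.elim (fun y => [y]) (fun _ => []) : α ⊕ γ → List α) h)
  have e : {w : List (α ⊕ γ) | allInl w} ∩
      {x | x.flatMap (Sum.elim (fun y => [y]) (fun _ => []) : α ⊕ γ → List α) ∈ L} = Inl γ L := by
    ext w
    simp only [Set.mem_inter_iff, Set.mem_ofPred_eq, Inl]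
    constructor
    · rintro ⟨⟨v, rfl⟩, hv⟩
      refine ⟨v, ?_, rfl⟩
      rw [List.flatMap_map] at hv
      simpa using hv
    · rintro ⟨v, hv, rfl⟩
      refine ⟨⟨v, rfl⟩, ?_⟩
      rw [List.flatMap_map]
      simpa using hv
  rwa [e] at h1

theorem lin_Inr {α γ : Type} [Finite α] [Finite γ] {L : Set (List γ)} (h : LINTIME L) :
    LINTIME (Inr α L) := by
  have h1 := (lin_allInr (α := α) (γ := γ)).inter
    (lin_inv (Sum.elim (fun _ => []) (fun y => [y]) : α ⊕ γ → List γ) h)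
  have e : {w : List (α ⊕ γ) | allInr w} ∩
      {x | x.flatMap (Sum.elim (fun _ => []) (fun y => [y]) : α ⊕ γ → List γ) ∈ L} = Inr α L := by
    ext w
    simp only [Set.mem_inter_iff, Set.mem_ofPred_eq, Inr]
    constructor
    · rintro ⟨⟨v, rfl⟩, hv⟩
      refine ⟨v, ?_, rfl⟩
      rw [List.flatMap_map] at hv
      simpa using hv
    · rintro ⟨v, hv, rfl⟩
      refine ⟨⟨v, rfl⟩, ?_⟩
      rw [List.flatMap_map]
      simpa using hv
  rwa [e] at h1

theorem mem_Inl_map {α γ : Type} {L : Set (List α)} (v : List α) :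
    v.map Sum.inl ∈ Inl γ L ↔ v ∈ L := by
  constructor
  · rintro ⟨u, hu, h⟩
    rwa [List.map_injective_iff.mpr Sum.inl_injective h]
  · intro h
    exact ⟨v, h, rfl⟩

theorem mem_Inr_map {α γ : Type} {M : Set (List γ)} (v : List γ) :
    v.map Sum.inr ∈ Inr α M ↔ v ∈ M := by
  constructor
  · rintro ⟨u, hu, h⟩
    rwa [List.map_injective_iff.mpr Sum.inr_injective h]
  · intro h
    exact ⟨v, h, rfl⟩

theorem mem_Inl_compl {α γ : Type} {L : Set (List α)} (w : List (α ⊕ γ)) :
    w ∈ Inl γ Lᶜ ↔ allInl w ∧ w ∉ Inl γ L := by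
  constructor
  · rintro ⟨v, hv, rfl⟩
    exact ⟨⟨v, rfl⟩, fun h => hv ((mem_Inl_map v).mp h)⟩
  · rintro ⟨⟨v, rfl⟩, h⟩
    exact ⟨v, fun hv => h ((mem_Inl_map v).mpr hv), rfl⟩

theorem mem_Inr_compl {α γ : Type} {M : Set (List γ)} (w : List (α ⊕ γ)) :
    w ∈ Inr α Mᶜ ↔ allInr w ∧ w ∉ Inr α M := by
  constructor
  · rintro ⟨v, hv, rfl⟩
    exact ⟨⟨v, rfl⟩, fun h => hv ((mem_Inr_map v).mp h)⟩
  · rintro ⟨⟨v, rfl⟩, h⟩
    exact ⟨v, fun hv => h ((mem_Inr_map v).mpr hv), rfl⟩

theorem Inl_allInl {α γ : Type} {L : Set (List α)} {w : List (α ⊕ γ)} (h : w ∈ Inl γ L) :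
    allInl w := by
  obtain ⟨v, _, rfl⟩ := h
  exact ⟨v, rfl⟩

theorem Inr_allInr {α γ : Type} {L : Set (List γ)} {w : List (α ⊕ γ)} (h : w ∈ Inr α L) :
    allInr w := by
  obtain ⟨v, _, rfl⟩ := h
  exact ⟨v, rfl⟩

/-- the homomorphism for the step of images -/
def kh {α β γ δ : Type} (h : β → List α) (j : δ → α ⊕ γ) : β ⊕ δ → List (α ⊕ γ) :=
  Sum.elim (fun b => (h b).map Sum.inl) (fun y => [j y])

theorem kh_inl {α β γ δ : Type} (h : β → List α) (j : δ → α ⊕ γ) (v : List β) :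
    (v.map Sum.inl).flatMap (kh h j) = (v.flatMap h).map Sum.inl := by
  rw [List.flatMap_map, List.map_flatMap]
  rfl

theorem kh_inr {α β γ δ : Type} (h : β → List α) (j : δ → α ⊕ γ) (v : List δ) :
    (v.map Sum.inr).flatMap (kh h j) = v.map j := by
  rw [List.flatMap_map]
  exact flatMap_single j v

theorem kh_ne {α β γ δ : Type} (h : β → List α) (hh : ∀ b, h b ≠ []) (j : δ → α ⊕ γ)
    (y : β ⊕ δ) : kh h j y ≠ [] := by
  cases y with
  | inl b => simpa [kh] using hh b
  | inr y => simp [kh]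

theorem Rud.finite {α : Type} {L : Set (List α)} (hL : Rud α L) : Finite α := by
  induction hL with
  | lin _ => assumption
  | compl _ ih => exact ih
  | hom _ _ _ _ => assumption

/-- combinations with linear time languages -/
theorem Rud.p1 {α : Type} {L : Set (List α)} (hL : Rud α L) : ∀ {γ : Type} [Finite γ]
    {N1 N2 : Set (List (α ⊕ γ))}, LINTIME N1 → LINTIME N2 →
      Rud (α ⊕ γ) {w | (w ∈ Inl γ L ∧ w ∈ N1) ∨ w ∈ N2} := by
  induction hL with
  | lin h =>
    intro γ _ N1 N2 h1 h2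
    exact (Rud.lin (((lin_Inl h).inter h1).union h2)).congr (fun w => Iff.rfl)
  | @compl α L h0 ih =>
    intro γ _ N1 N2 h1 h2
    have hfin : Finite α := h0.finite
    have h3 := ih (γ := γ) (N1 := N2ᶜ) (N2 := ({w | allInl w}ᶜ ∪ N1ᶜ) ∩ N2ᶜ) h2.compl
      (((lin_allInl.compl).union h1.compl).inter h2.compl)
    refine (Rud.compl h3).congr ?_
    intro w
    have := mem_Inl_compl (γ := γ) (L := L) w
    have h4 : w ∈ Inl γ L → allInl w := Inl_allInl
    simp only [Set.mem_compl_iff, Set.mem_ofPred_eq, Set.mem_inter_iff, Set.mem_union]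
    tauto
  | @hom β α _ _ h hh L _ ih =>
    intro γ _ N1 N2 h1 h2
    have h3 := ih (γ := α ⊕ γ) (N1 := {u | u.flatMap (kh h id) ∈ N1})
      (N2 := Inr β N2) (lin_inv (kh h id) h1) (lin_Inr h2)
    refine (Rud.hom (kh h (id : α ⊕ γ → α ⊕ γ)) (kh_ne h hh id) h3).congr ?_
    intro w
    simp only [Set.mem_ofPred_eq]
    constructor
    · rintro ⟨u, (⟨⟨v, hv, rfl⟩, hu⟩ | ⟨v, hv, rfl⟩), rfl⟩
      · left
        refine ⟨⟨v.flatMap h, ⟨v, hv, rfl⟩, kh_inl h id v⟩, hu⟩
      · right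
        rw [kh_inr, List.map_id]
        exact hv
    · rintro (⟨⟨v, ⟨u, hu, rfl⟩, rfl⟩, hw⟩ | hw)
      · refine ⟨u.map Sum.inl, Or.inl ⟨⟨u, hu, rfl⟩, ?_⟩, kh_inl h id u⟩
        rw [kh_inl]
        exact hw
      · refine ⟨w.map Sum.inr, Or.inr ⟨w, hw, rfl⟩, ?_⟩
        rw [kh_inr, List.map_id]

theorem logic1 {a b c d n1 n2 n3 : Prop} (h1 : a → c) (h2 : b → d) :
    (¬((a ∧ ¬n3 ∧ (¬d ∨ ¬n2)) ∨ ((d ∧ ¬b) ∧ ¬n3 ∧ (¬c ∨ ¬n1)) ∨
      (¬n3 ∧ (¬c ∨ ¬n1) ∧ (¬d ∨ ¬n2)) ∨ (a ∧ ¬b ∧ d ∧ ¬n3))) ↔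
      ((c ∧ ¬a) ∧ n1) ∨ (b ∧ n2) ∨ n3 := by
  by_cases h3 : n3
  · simp [h3]
  · by_cases ha : a
    · have hc := h1 ha
      by_cases hb : b
      · have hd := h2 hb
        by_cases hn : n2 <;> simp [h3, ha, hb, hc, hd, hn]
      · by_cases hd : d <;> by_cases hn : n1 <;> simp [h3, ha, hb, hc, hd, hn]
    · by_cases hb : b
      · have hd := h2 hb
        by_cases hc : c <;> by_cases hn : n1 <;> by_cases hn2 : n2 <;>
          simp [h3, ha, hb, hc, hd, hn, hn2]
      · by_cases hc : c <;> by_cases hd : d <;> by_cases hn : n1 <;> by_cases hn2 : n2 <;>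
          simp [h3, ha, hb, hc, hd, hn, hn2]

theorem Rud.p2 {α : Type} {L : Set (List α)} (hL : Rud α L) : ∀ {γ : Type}
    {M : Set (List γ)}, Rud γ M → ∀ {N1 N2 N3 : Set (List (α ⊕ γ))}, LINTIME N1 → LINTIME N2 →
      LINTIME N3 → Rud (α ⊕ γ) {w | (w ∈ Inl γ L ∧ w ∈ N1) ∨ (w ∈ Inr α M ∧ w ∈ N2) ∨
        w ∈ N3} := by
  induction hL with
  | @lin α _ L h =>
    intro γ M hM N1 N2 N3 h1 h2 h3
    have := hM.finite
    have h4 : LINTIME ((Inl γ L ∩ N1) ∪ N3) := ((lin_Inl h).inter h1).union h3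
    have h5 := hM.p1 (γ := α) (N1 := {w | w.flatMap (fun y => [Sum.swap y]) ∈ N2})
      (N2 := {w | w.flatMap (fun y => [Sum.swap y]) ∈ (Inl γ L ∩ N1) ∪ N3})
      (lin_inv _ h2) (lin_inv _ h4)
    refine (Rud.hom (fun y : γ ⊕ α => [Sum.swap y]) (by simp) h5).congr ?_
    intro w
    have sw : ∀ v : List (α ⊕ γ), (v.map Sum.swap).flatMap (fun y : γ ⊕ α => [Sum.swap y]) = v := by
      intro v
      rw [flatMap_single, List.map_map]
      simp
    have sw2 : (∃ v, v ∈ Inl α M ∧ v.map Sum.swap = w) ↔ w ∈ Inr α M := by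
      constructor
      · rintro ⟨v, ⟨u, hu, rfl⟩, rfl⟩
        exact ⟨u, hu, by simp⟩
      · rintro ⟨u, hu, rfl⟩
        exact ⟨u.map Sum.inl, ⟨u, hu, rfl⟩, by simp⟩
    simp only [Set.mem_ofPred_eq, Set.mem_union, Set.mem_inter_iff, flatMap_single]
    constructor
    · rintro ⟨v, (⟨h6, h7⟩ | h6), rfl⟩
      · exact Or.inr (Or.inl ⟨sw2.mp ⟨v, h6, rfl⟩, h7⟩)
      · tauto
    · intro h6
      have h7 : (w.map Sum.swap).map Sum.swap = w := by
        rw [List.map_map]
        simp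
      refine ⟨w.map Sum.swap, ?_, h7⟩
      rw [h7]
      rcases h6 with h6 | ⟨h6, h8⟩ | h6
      · right; left; exact h6
      · left
        refine ⟨?_, h8⟩
        obtain ⟨u, hu, rfl⟩ := h6
        exact ⟨u, hu, by simp⟩
      · right; right; exact h6
  | @compl α L h0 ih =>
    intro γ M hM N1 N2 N3 h1 h2 h3
    have := hM.finite
    have := h0.finite
    have hN : ∃ N4 : Set (List (α ⊕ γ)), LINTIME N4 ∧
        ∀ w, w ∈ N4 ↔ w ∈ Inl γ L ∧ w ∉ Inr α M ∧ allInr w ∧ w ∉ N3 := by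
      by_cases hc : ([] : List (α ⊕ γ)) ∈ Inl γ L ∧ ([] : List (α ⊕ γ)) ∉ Inr α M ∧
          ([] : List (α ⊕ γ)) ∉ N3
      · refine ⟨{x | x = []}, lin_nil, ?_⟩
        intro w
        simp only [Set.mem_ofPred_eq]
        constructor
        · rintro rfl
          exact ⟨hc.1, hc.2.1, ⟨[], rfl⟩, hc.2.2⟩
        · rintro ⟨⟨v, _, rfl⟩, _, ⟨u, hu⟩, _⟩
          cases v with
          | nil => rfl
          | cons a v =>
            cases u with
            | nil => simp at hu
            | cons b u => simp at hu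
      · refine ⟨∅, lin_empty, ?_⟩
        intro w
        simp only [Set.mem_empty_iff_false, false_iff]
        rintro ⟨⟨v, hv, rfl⟩, g1, ⟨u, hu⟩, g2⟩
        cases v with
        | nil => exact hc ⟨⟨[], hv, rfl⟩, g1, g2⟩
        | cons a v =>
          cases u with
          | nil => simp at hu
          | cons b u => simp at hu
    obtain ⟨N4, hN4, hN4'⟩ := hN
    have h6 := ih (Rud.compl hM) (N1 := N3ᶜ ∩ ({w | allInr w}ᶜ ∪ N2ᶜ))
      (N2 := N3ᶜ ∩ ({w | allInl w}ᶜ ∪ N1ᶜ))
      (N3 := (N3ᶜ ∩ (({w | allInl w}ᶜ ∪ N1ᶜ) ∩ ({w | allInr w}ᶜ ∪ N2ᶜ))) ∪ N4)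
      (h3.compl.inter ((lin_allInr.compl).union h2.compl))
      (h3.compl.inter ((lin_allInl.compl).union h1.compl))
      ((h3.compl.inter (((lin_allInl.compl).union h1.compl).inter
        ((lin_allInr.compl).union h2.compl))).union hN4)
    refine (Rud.compl h6).congr ?_
    intro w
    have g1 := mem_Inl_compl (γ := γ) (L := L) w
    have g2 := mem_Inr_compl (α := α) (M := M) w
    have g3 : w ∈ Inl γ L → allInl w := Inl_allInl
    have g4 : w ∈ Inr α M → allInr w := Inr_allInr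
    have g5 := hN4' w
    simp only [Set.mem_compl_iff, Set.mem_ofPred_eq, Set.mem_inter_iff, Set.mem_union, g1, g2, g5]
    exact logic1 g3 g4
  | @hom β α _ _ h hh L h0 ih =>
    intro γ M hM N1 N2 N3 h1 h2 h3
    have := hM.finite
    have h4 := hM.p1 (γ := α ⊕ γ)
      (N1 := {u | u.flatMap (fun y => [Sum.elim Sum.inr id y]) ∈ N2})
      (N2 := Inr γ N3) (lin_inv _ h2) (lin_Inr h3)
    let j : γ ⊕ (α ⊕ γ) → α ⊕ γ := Sum.elim Sum.inr id
    have h5 := ih h4 (N1 := {u | u.flatMap (kh h j) ∈ N1}) (N2 := Set.univ) (N3 := ∅)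
      (lin_inv _ h1) lin_univ lin_empty
    refine (Rud.hom (kh h j) (kh_ne h hh j) h5).congr ?_
    intro w
    simp only [Set.mem_ofPred_eq, Set.mem_univ, and_true, Set.mem_empty_iff_false, or_false]
    constructor
    · rintro ⟨u, (⟨⟨v, hv, rfl⟩, hu⟩ | ⟨v, hv, rfl⟩), rfl⟩
      · left
        exact ⟨⟨v.flatMap h, ⟨v, hv, rfl⟩, kh_inl h j v⟩, hu⟩
      · right
        rw [kh_inr]
        simp only [Set.mem_ofPred_eq, flatMap_single] at hv
        rcases hv with ⟨⟨x, hx, rfl⟩, hx2⟩ | ⟨x, hx, rfl⟩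
        · left
          refine ⟨⟨x, hx, ?_⟩, hx2⟩
          rw [List.map_map]
          rfl
        · right
          rw [List.map_map]
          have : (j ∘ Sum.inr : α ⊕ γ → α ⊕ γ) = id := rfl
          rw [this, List.map_id]
          exact hx
    · rintro (⟨⟨v, ⟨u, hu, rfl⟩, rfl⟩, hw⟩ | ⟨⟨x, hx, rfl⟩, hw⟩ | hw)
      · refine ⟨u.map Sum.inl, Or.inl ⟨⟨u, hu, rfl⟩, ?_⟩, kh_inl h j u⟩
        rw [kh_inl]
        exact hw
      · refine ⟨(x.map Sum.inl).map Sum.inr, Or.inr ⟨x.map Sum.inl, ?_, rfl⟩, ?_⟩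
        · left
          refine ⟨⟨x, hx, rfl⟩, ?_⟩
          simp only [Set.mem_ofPred_eq, flatMap_single, List.map_map]
          exact hw
        · rw [kh_inr, List.map_map]
          rfl
      · refine ⟨(w.map Sum.inr).map Sum.inr, Or.inr ⟨w.map Sum.inr, ?_, rfl⟩, ?_⟩
        · right
          exact ⟨w, hw, rfl⟩
        · rw [kh_inr, List.map_map]
          have : (j ∘ Sum.inr : α ⊕ γ → α ⊕ γ) = id := rfl
          rw [this, List.map_id]

/-- `Rud` is closed under unions -/
theorem Rud.union {α : Type} {L M : Set (List α)} (hL : Rud α L) (hM : Rud α M) :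
    Rud α (L ∪ M) := by
  have := hL.finite
  have h1 := hL.p2 hM (N1 := Set.univ) (N2 := Set.univ) (N3 := ∅) lin_univ lin_univ lin_empty
  refine (Rud.hom (fun y : α ⊕ α => [Sum.elim id id y]) (by simp) h1).congr ?_
  intro w
  simp only [Set.mem_ofPred_eq, Set.mem_univ, and_true, Set.mem_empty_iff_false, or_false,
    flatMap_single, Set.mem_union]
  have e1 : ∀ v : List α, (v.map (Sum.inl : α → α ⊕ α)).map (Sum.elim id id) = v := by
    intro v
    rw [List.map_map]
    simp
  have e2 : ∀ v : List α, (v.map (Sum.inr : α → α ⊕ α)).map (Sum.elim id id) = v := by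
    intro v
    rw [List.map_map]
    simp
  constructor
  · rintro ⟨v, (⟨u, hu, rfl⟩ | ⟨u, hu, rfl⟩), rfl⟩
    · left; rw [e1]; exact hu
    · right; rw [e2]; exact hu
  · rintro (h | h)
    · exact ⟨w.map Sum.inl, Or.inl ⟨w, h, rfl⟩, e1 w⟩
    · exact ⟨w.map Sum.inr, Or.inr ⟨w, h, rfl⟩, e2 w⟩

/-- `R0` is contained in `Rud` -/
theorem R0.rud {α : Type} {L : Set (List α)} (h : R0 α L) : Rud α L := by
  induction h with
  | eqs F G => exact Rud.lin (lintime_eq F G)
  | compl _ ih => exact ih.compl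
  | union _ _ ih1 ih2 => exact ih1.union ih2
  | @img A B _ _ f L _ ih =>
    refine (Rud.hom (fun a => [f a]) (by simp) ih).congr ?_
    intro w
    simp only [Set.mem_ofPred_eq, flatMap_single]

end MPdee884H1
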