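import Pool.Agent.Lib.MP_dee884_lc.H1.Bcf
import Pool.Agent.Lib.MP_dee884_lc.H1.Rud

/-!
# MP_dee884_lc, bounded multiplicity: the theorem

`LevR E k j A`: the languages over `A` which are given by at most `j` quantifiers over words over a
`k`-letter alphabet, of the length of the input, and a Boolean combination of context-free
languages and of the languages `E i` (finitely many languages of RUD).
-/

namespace MPdee884H1

open Pool.Agent.Lin

theorem Rud.inter {A : Type} {L M : Set (List A)} (h1 : Rud A L) (h2 : Rud A M) :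
    Rud A (L ∩ M) := by
  refine (Rud.compl (Rud.union (Rud.compl h1) (Rud.compl h2))).congr ?_
  intro w
  simp

theorem Rud.imp {A : Type} {L M : Set (List A)} (h1 : Rud A L) (h2 : Rud A M) :
    Rud A {w | w ∈ L → w ∈ M} := by
  refine (Rud.union (Rud.compl h1) h2).congr ?_
  intro w
  simp only [Set.mem_union, Set.mem_compl_iff, Set.mem_ofPred_eq]
  tauto

theorem Rud.iUnion {A : Type} [Finite A] {ι : Type} [Finite ι] (L : ι → Set (List A))
    (h : ∀ i, Rud A (L i)) : Rud A {w | ∃ i, w ∈ L i} := by
  classical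
  have key : ∀ s : Finset ι, Rud A {w | ∃ i ∈ s, w ∈ L i} := by
    intro s
    induction s using Finset.induction_on with
    | empty =>
      refine ((R0.empty (A := A)).rud).congr ?_
      intro w
      simp
    | insert a s ha ih =>
      refine (Rud.union (h a) ih).congr ?_
      intro w
      simp
  have := Fintype.ofFinite ι
  refine (key Finset.univ).congr ?_
  intro w
  simp

theorem Rud.iInter {A : Type} [Finite A] {ι : Type} [Finite ι] (L : ι → Set (List A))
    (h : ∀ i, Rud A (L i)) : Rud A {w | ∀ i, w ∈ L i} := by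
  refine (Rud.compl (Rud.iUnion (fun i => (L i)ᶜ) (fun i => Rud.compl (h i)))).congr ?_
  intro w
  simp

theorem Rud.img {A B : Type} [Finite A] [Finite B] (f : A → B) {L : Set (List A)}
    (h : Rud A L) : Rud B {w | ∃ v ∈ L, v.map f = w} := by
  refine (Rud.hom (fun a => [f a]) (by simp) h).congr ?_
  intro w
  simp only [Set.mem_ofPred_eq, flatMap_single]

theorem Rud.all {A B : Type} [Finite A] [Finite B] (f : A → B) {L : Set (List A)}
    (h : Rud A L) : Rud B {w | ∀ v, v.map f = w → v ∈ L} := by
  refine (Rud.compl (Rud.img f h.compl)).congr ?_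
  intro w
  simp only [Set.mem_compl_iff, Set.mem_ofPred_eq, not_exists, not_and]
  constructor
  · intro H v hv
    by_contra hc
    exact H v hc hv
  · intro H v hc hv
    exact hc (H v hv)

/-- `Rud` is closed under inverse images under letter maps -/
theorem Rud.invMap {α : Type} {L : Set (List α)} (hL : Rud α L) : ∀ {β : Type} [Finite β]
    (f : β → α), Rud β {v | v.map f ∈ L} := by
  induction hL with
  | lin h =>
    intro β _ f
    refine (Rud.lin (lin_inv (fun b => [f b]) h)).congr ?_
    intro w
    simp only [Set.mem_ofPred_eq, flatMap_single]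
  | compl _ ih =>
    intro β _ f
    exact (ih f).compl
  | @hom γ α _ _ h hh L _ ih =>
    intro β _ f
    have hfin : Finite {p : γ × List β // p.2.map f = h p.1} := finite_pull f h
    have h1 := ih (β := {p : γ × List β // p.2.map f = h p.1}) (fun p => p.1.1)
    have hne : ∀ p : {p : γ × List β // p.2.map f = h p.1}, p.1.2 ≠ [] := by
      intro p hp
      have := p.2
      rw [hp] at this
      exact hh p.1.1 (by simpa using this.symm)
    refine (Rud.hom (fun p : {p : γ × List β // p.2.map f = h p.1} => p.1.2) hne h1).congr ?_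
    intro v
    simp only [Set.mem_ofPred_eq]
    constructor
    · rintro ⟨d, hd, rfl⟩
      refine ⟨_, hd, ?_⟩
      rw [List.flatMap_map, List.map_flatMap]
      congr 1
      funext p
      exact p.2.symm
    · rintro ⟨w, hw1, hw2⟩
      obtain ⟨d, hd1, hd2⟩ := exists_pull f h w v hw2.symm
      exact ⟨d, by rw [hd1]; exact hw1, hd2⟩

theorem Lead.append {a : ℕ} {c : List Bool} (h : Lead a c) (r : List Bool) : Lead a (c ++ r) := by
  obtain ⟨t, rfl⟩ := h
  exact ⟨t ++ r, by simp⟩

theorem Lead.unique {a b : ℕ} {c : List Bool} (h1 : Lead a c) (h2 : Lead b c) : a = b := by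
  induction a generalizing b c with
  | zero =>
    obtain ⟨t, rfl⟩ := h1
    obtain ⟨t', h⟩ := h2
    cases b with
    | zero => rfl
    | succ b => simp [List.replicate_succ] at h
  | succ a ih =>
    obtain ⟨t, rfl⟩ := h1
    obtain ⟨t', h⟩ := h2
    cases b with
    | zero => simp [List.replicate_succ] at h
    | succ b =>
      simp only [List.replicate_succ, List.cons_append, List.cons.injEq, true_and] at h
      rw [ih (b := b) ⟨t, rfl⟩ ⟨t', h⟩]

theorem R0.lead (a : ℕ) : R0 Bool {c | Lead a c} := by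
  have h0 : ∀ (i : Fin 3) (s : List Bool), R0 (Bool × Fin 3) {v | part i v = s} := by
    intro i s
    exact R0.eqc (A := Bool × Fin 3) s (fun x => if x.2 = i then [x.1] else [])
  refine (R0.split ((h0 0 (List.replicate a false)).inter (h0 1 [true]))).congr ?_
  intro c
  simp only [Set.mem_ofPred_eq, Set.mem_inter_iff, part_mark0, part_mark1, Lead]
  constructor
  · rintro ⟨p, q, r, rfl, rfl, rfl⟩
    exact ⟨r, by simp⟩
  · rintro ⟨t, rfl⟩
    exact ⟨List.replicate a false, [true], t, by simp, rfl, rfl⟩

/-- simultaneous uniform evaluation of finitely many Boolean combinations -/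
theorem uni_family (A : Type) [Finite A] (κ : Type) [Finite κ] :
    ∃ W : κ → Set (List (A × Bool)), (∀ a, R0 (A × Bool) (W a)) ∧
      ∀ M : κ → Set (List A), (∀ a, BCF (M a)) → ∀ s : ℕ,
        ∃ w : List Bool, Lead s w ∧ ∀ (r : List Bool) (x : List A),
          x.length = (w ++ r).length → ∀ a, (x ∈ M a ↔ x.zip (w ++ r) ∈ W a) := by
  classical
  obtain ⟨e, he⟩ := exists_niceCode (Kl (Th A) × κ)
  refine ⟨fun a => W1 (fun y => e (y, a)), fun a => R0.w1 _, ?_⟩
  intro M hM s
  have h1 := fun a => bcf_correct (hM a) (fun y => e (y, a))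
  choose F n0 hF1 hF2 hF3 using h1
  have : Fintype κ := Fintype.ofFinite κ
  let G : Set (List (Kl (Th A) × κ)) := {w | ∃ a, ∃ v ∈ F a, w = v.map (fun y => (y, a))}
  have hG1 : G.Finite := by
    refine Set.Finite.subset (Set.finite_iUnion (fun a => (hF1 a).image
      (fun v : List (Kl (Th A)) => v.map (fun y => (y, a))))) ?_
    rintro w ⟨a, v, hv, rfl⟩
    simp only [Set.mem_iUnion]
    exact ⟨a, v, hv, rfl⟩
  have hG2 : ∀ w ∈ G, w ≠ [] := by
    rintro w ⟨a, v, hv, rfl⟩ h
    exact hF2 a v hv (by simpa using h)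
  obtain ⟨core, hc1, hc2⟩ := exists_code he G hG1 hG2 s
  refine ⟨core ++ List.replicate (Finset.univ.sup n0) false, hc1.append _, ?_⟩
  intro r x hx a
  rw [List.append_assoc] at hx ⊢
  have hn0 : n0 a ≤ (core ++ (List.replicate (Finset.univ.sup n0) false ++ r)).length := by
    have := Finset.le_sup (f := n0) (Finset.mem_univ a)
    simp only [List.length_append, List.length_replicate]
    omega
  refine hF3 a _ hn0 ?_ x hx
  intro w hw
  have e1 : ∀ c : List Bool, w ∈ Ent (fun y => e (y, a)) c ↔
      w.map (fun y => (y, a)) ∈ Ent e c := by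
    intro c
    simp only [Ent, Set.mem_ofPred_eq, List.flatMap_map]
  rw [e1, hc2 _ _ (by simpa using hw)]
  constructor
  · rintro ⟨b, v, hv, h⟩
    cases w with
    | nil => exact absurd rfl hw
    | cons y w =>
      cases v with
      | nil => simp at h
      | cons y' v =>
        simp only [List.map_cons, List.cons.injEq, Prod.mk.injEq] at h
        obtain ⟨⟨rfl, rfl⟩, h⟩ := h
        have h2 : w = v := by
          refine List.map_injective_iff.mpr ?_ h
          intro p q hpq
          simpa using hpq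
        rw [h2]
        exact hv
  · intro hv
    exact ⟨a, w, hv, rfl⟩

/-- the Boolean closure of the context-free languages and of the inverse images of the languages
`E i` under letter maps -/
inductive BCR {ρ : Type} {B : ρ → Type} (E : (i : ρ) → Set (List (B i))) {A : Type} :
    Set (List A) → Prop
  | cf (L : Language A) : L.IsContextFree → BCR E {x | x ∈ L}
  | fix (i : ρ) (f : A → B i) : BCR E {x | x.map f ∈ E i}
  | compl {L : Set (List A)} : BCR E L → BCR E Lᶜ
  | union {L M : Set (List A)} : BCR E L → BCR E M → BCR E (L ∪ M)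

theorem bcf_const {A : Type} (p : Prop) : BCF {x : List A | p} := by
  classical
  have h : BCF {x : List A | x ∈ (0 : Language A)} := by
    refine BCF.cf 0 ?_
    refine ⟨⟨Unit, (), ∅⟩, ?_⟩
    ext w
    simp only [ContextFreeGrammar.mem_language_iff]
    constructor
    · intro h
      exfalso
      rcases Relation.ReflTransGen.cases_head h with h | ⟨c, ⟨r, hr, _⟩, _⟩
      · cases w with
        | nil => simp at h
        | cons a w => simp at h
      · simp at hr
    · intro h
      exact absurd h (Language.notMem_zero w)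
  by_cases hp : p
  · have e : ({x : List A | x ∈ (0 : Language A)})ᶜ = {x : List A | p} := by
      ext x
      simp only [Set.mem_compl_iff, Set.mem_ofPred_eq, hp, iff_true]
      exact Language.notMem_zero x
    rw [← e]
    exact h.compl
  · have e : {x : List A | x ∈ (0 : Language A)} = {x : List A | p} := by
      ext x
      simp only [Set.mem_ofPred_eq, hp, iff_false]
      exact Language.notMem_zero x
    rw [← e]
    exact h

theorem BCR.rep {ρ : Type} {B : ρ → Type} (E : (i : ρ) → Set (List (B i))) {A : Type}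
    {M : Set (List A)} (h : BCR E M) :
    ∃ N : (((i : ρ) × (A → B i)) → Prop) → Set (List A), (∀ a, BCF (N a)) ∧
      ∀ x, x ∈ M ↔ x ∈ N (fun p => x.map p.2 ∈ E p.1) := by
  induction h with
  | cf L hL => exact ⟨fun _ => {x | x ∈ L}, fun _ => BCF.cf L hL, fun x => Iff.rfl⟩
  | fix i f =>
    refine ⟨fun a => {x | a ⟨i, f⟩}, fun a => bcf_const _, fun x => Iff.rfl⟩
  | compl _ ih =>
    obtain ⟨N, h1, h2⟩ := ih
    refine ⟨fun a => (N a)ᶜ, fun a => (h1 a).compl, ?_⟩
    intro x
    rw [Set.mem_compl_iff, h2]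
    rfl
  | union _ _ ih1 ih2 =>
    obtain ⟨N, h1, h2⟩ := ih1
    obtain ⟨N', h1', h2'⟩ := ih2
    refine ⟨fun a => N a ∪ N' a, fun a => (h1 a).union (h1' a), ?_⟩
    intro x
    rw [Set.mem_union, h2, h2']
    rfl

/-- the languages given by at most `j` quantifiers over words over a `k`-letter alphabet (of the
length of the input) and a language in `BCR E` -/
inductive LevR {ρ : Type} {B : ρ → Type} (E : (i : ρ) → Set (List (B i))) (k : ℕ) :
    ℕ → (A : Type) → Set (List A) → Prop
  | base {j : ℕ} {A : Type} {M : Set (List A)} : BCR E M → LevR E k j A M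
  | ex {j : ℕ} {A : Type} {M : Set (List (A × Fin k))} : LevR E k j (A × Fin k) M →
      LevR E k (j + 1) A {x | ∃ v : List (A × Fin k), v.map Prod.fst = x ∧ v ∈ M}
  | all {j : ℕ} {A : Type} {M : Set (List (A × Fin k))} : LevR E k j (A × Fin k) M →
      LevR E k (j + 1) A {x | ∀ v : List (A × Fin k), v.map Prod.fst = x → v ∈ M}

/-- Uniform evaluation by finitely many languages of `Rud`: the words which start with a suitable
word `w` are codes of `L`; `w` can be chosen with every number of leading letters `false`. -/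
def UniR (A : Type) (P : Set (List A) → Prop) : Prop :=
  ∃ (ι : Type) (_ : Finite ι) (W : ι → Set (List (A × Bool))), (∀ i, Rud (A × Bool) (W i)) ∧
    ∀ L, P L → ∃ i, ∀ s : ℕ, ∃ w : List Bool, Lead s w ∧ ∀ (r : List Bool) (x : List A),
      x.length = (w ++ r).length → (x ∈ L ↔ x.zip (w ++ r) ∈ W i)

theorem uniR_bcr {ρ : Type} [Finite ρ] {B : ρ → Type} [∀ i, Finite (B i)]
    (E : (i : ρ) → Set (List (B i))) (hE : ∀ i, Rud (B i) (E i)) (A : Type) [Finite A] :
    UniR A (BCR E) := by
  classical
  obtain ⟨W, hW1, hW2⟩ := uni_family A (((i : ρ) × (A → B i)) → Bool)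
  have hT : ∀ a : ((i : ρ) × (A → B i)) → Bool, Rud (A × Bool)
      {y | ∀ p, y ∈ {y : List (A × Bool) | (y.map Prod.fst).map p.2 ∈ E p.1 ↔ a p = true}} := by
    intro a
    refine Rud.iInter _ ?_
    intro p
    have h1 := (hE p.1).invMap (β := A × Bool) (fun y => p.2 y.1)
    by_cases ha : a p = true
    · refine h1.congr ?_
      intro y
      simp only [Set.mem_ofPred_eq, ha, iff_true, List.map_map]
      rfl
    · refine h1.compl.congr ?_
      intro y
      simp only [Set.mem_compl_iff, Set.mem_ofPred_eq, ha, List.map_map]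
      simp only [Bool.false_eq_true, iff_false]
      rfl
  refine ⟨Unit, inferInstance, fun _ => {y | ∃ a, y ∈ {y | ∀ p, y ∈ {y : List (A × Bool) |
    (y.map Prod.fst).map p.2 ∈ E p.1 ↔ a p = true}} ∩ W a}, fun _ => Rud.iUnion _
      (fun a => (hT a).inter (hW1 a).rud), ?_⟩
  intro L hL
  refine ⟨(), ?_⟩
  intro s
  obtain ⟨M, hM1, hM2⟩ := hL.rep
  obtain ⟨w, hw1, hw2⟩ := hW2 (fun a => M (fun p => a p = true)) (fun a => hM1 _) s
  refine ⟨w, hw1, ?_⟩
  intro r x hx
  have k1 : (x.zip (w ++ r)).map Prod.fst = x := List.map_fst_zip (by omega)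
  rw [hM2]
  simp only [Set.mem_ofPred_eq, Set.mem_inter_iff, k1]
  constructor
  · intro h
    refine ⟨fun p => decide (x.map p.2 ∈ E p.1), by simp, ?_⟩
    rw [← hw2 r x hx]
    have e : (fun p : (i : ρ) × (A → B i) => decide (x.map p.2 ∈ E p.1) = true) =
        (fun p => x.map p.2 ∈ E p.1) := by
      funext p
      simp
    rw [e]
    exact h
  · rintro ⟨a, h1, h2⟩
    have e : (fun p : (i : ρ) × (A → B i) => x.map p.2 ∈ E p.1) = (fun p => a p = true) := by
      funext p
      exact propext (h1 p)
    rw [e, hw2 r x hx a]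
    exact h2

theorem map_zip_track {A : Type} {k : ℕ} (x : List A) (c : List Bool) (hx : x.length = c.length)
    (u : List ((A × Fin k) × Bool)) :
    u.map (fun t => ((t.1.1, t.2) : A × Bool)) = x.zip c ↔
      ∃ v : List (A × Fin k), v.map Prod.fst = x ∧ u = v.zip c := by
  constructor
  · intro hu
    refine ⟨u.map Prod.fst, ?_, ?_⟩
    · have h1 := congrArg (List.map Prod.fst) hu
      rw [List.map_fst_zip (by omega), List.map_map] at h1
      rw [← h1, List.map_map]
      rfl
    · have h1 := congrArg (List.map Prod.snd) hu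
      rw [List.map_snd_zip (by omega), List.map_map] at h1
      rw [← h1]
      clear hu h1
      induction u with
      | nil => rfl
      | cons a u ih =>
        rw [List.map_cons, List.map_cons, List.zip_cons_cons, ← ih]
        rfl
  · rintro ⟨v, rfl, rfl⟩
    rw [List.length_map] at hx
    induction v generalizing c with
    | nil => simp
    | cons a v ih =>
      cases c with
      | nil => simp at hx
      | cons b c =>
        rw [List.zip_cons_cons, List.map_cons, List.map_cons, List.zip_cons_cons,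
          ih c (by simpa using hx)]

theorem uniR_quant {A : Type} [Finite A] {k : ℕ} {P : Set (List (A × Fin k)) → Prop}
    (h : UniR (A × Fin k) P) {Q : Set (List A) → Prop} (hA : UniR A Q) :
    UniR A (fun L => Q L ∨
      (∃ M, P M ∧ L = {x | ∃ v : List (A × Fin k), v.map Prod.fst = x ∧ v ∈ M}) ∨
      (∃ M, P M ∧ L = {x | ∀ v : List (A × Fin k), v.map Prod.fst = x → v ∈ M})) := by
  obtain ⟨ι, _, W, hW, hP⟩ := h
  obtain ⟨ι', _, W', hW', hQ⟩ := hA
  refine ⟨ι' ⊕ (ι ⊕ ι), inferInstance, Sum.elim W' (Sum.elim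
    (fun i => {y | ∃ u ∈ W i, u.map (fun t => ((t.1.1, t.2) : A × Bool)) = y})
    (fun i => {y | ∀ u, u.map (fun t => ((t.1.1, t.2) : A × Bool)) = y → u ∈ W i})), ?_, ?_⟩
  · rintro (i | i | i)
    · exact hW' i
    · exact Rud.img _ (hW i)
    · exact Rud.all _ (hW i)
  · rintro L (hL | ⟨M, hM, rfl⟩ | ⟨M, hM, rfl⟩)
    · obtain ⟨i, hi⟩ := hQ L hL
      exact ⟨Sum.inl i, hi⟩
    · obtain ⟨i, hi⟩ := hP M hM
      refine ⟨Sum.inr (Sum.inl i), ?_⟩
      intro s
      obtain ⟨w, hw1, hw2⟩ := hi s
      refine ⟨w, hw1, ?_⟩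
      intro r x hx
      simp only [Set.mem_ofPred_eq, Sum.elim_inr, Sum.elim_inl]
      constructor
      · rintro ⟨v, hv1, hv2⟩
        have hlen : v.length = (w ++ r).length := by rw [← hx, ← hv1, List.length_map]
        exact ⟨v.zip (w ++ r), (hw2 r v hlen).mp hv2,
          (map_zip_track x _ hx _).mpr ⟨v, hv1, rfl⟩⟩
      · rintro ⟨u, hu1, hu2⟩
        obtain ⟨v, hv1, rfl⟩ := (map_zip_track x _ hx u).mp hu2
        have hlen : v.length = (w ++ r).length := by rw [← hx, ← hv1, List.length_map]
        exact ⟨v, hv1, (hw2 r v hlen).mpr hu1⟩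
    · obtain ⟨i, hi⟩ := hP M hM
      refine ⟨Sum.inr (Sum.inr i), ?_⟩
      intro s
      obtain ⟨w, hw1, hw2⟩ := hi s
      refine ⟨w, hw1, ?_⟩
      intro r x hx
      simp only [Set.mem_ofPred_eq, Sum.elim_inr]
      constructor
      · intro h u hu
        obtain ⟨v, hv1, rfl⟩ := (map_zip_track x _ hx u).mp hu
        have hlen : v.length = (w ++ r).length := by rw [← hx, ← hv1, List.length_map]
        exact (hw2 r v hlen).mp (h v hv1)
      · intro h v hv
        have hlen : v.length = (w ++ r).length := by rw [← hx, ← hv, List.length_map]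
        exact (hw2 r v hlen).mpr (h _ ((map_zip_track x _ hx _).mpr ⟨v, hv, rfl⟩))

theorem uniR_mono {A : Type} {P Q : Set (List A) → Prop} (h : UniR A P)
    (hQ : ∀ L, Q L → P L) : UniR A Q := by
  obtain ⟨ι, h1, W, h2, h3⟩ := h
  exact ⟨ι, h1, W, h2, fun L hL => h3 L (hQ L hL)⟩

theorem uniR_lev {ρ : Type} [Finite ρ] {B : ρ → Type} [∀ i, Finite (B i)]
    (E : (i : ρ) → Set (List (B i))) (hE : ∀ i, Rud (B i) (E i)) (k : ℕ) :
    ∀ (j : ℕ) (A : Type) [Finite A], UniR A (LevR E k j A) := by
  intro j
  induction j with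
  | zero =>
    intro A _
    refine uniR_mono (uniR_bcr E hE A) ?_
    intro L hL
    cases hL with
    | base h => exact h
  | succ j ih =>
    intro A _
    refine uniR_mono (uniR_quant (ih (A × Fin k)) (uniR_bcr E hE A)) ?_
    intro L hL
    cases hL with
    | base h => exact Or.inl h
    | @ex _ _ M h => exact Or.inr (Or.inl ⟨M, h, rfl⟩)
    | @all _ _ M h => exact Or.inr (Or.inr ⟨M, h, rfl⟩)

/-- the diagonal lemma -/
theorem diagR {P : Set (List Bool) → Prop} (h : UniR Bool P) : ∃ U, Rud Bool U ∧
    ∀ L, P L → ∃ w : List Bool, ∀ r : List Bool, w ++ r ∈ U ↔ w ++ r ∉ L := by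
  obtain ⟨ι, _, W, hW, hP⟩ := h
  obtain ⟨N, ⟨f⟩⟩ := Finite.exists_equiv_fin ι
  have h1 : Rud Bool {x : List Bool | ∀ i : ι, x ∈ {x : List Bool | x ∈
      {x : List Bool | Lead (f i).1 x} → x ∈ {x | x.map (fun b => (b, b)) ∈ W i}ᶜ}} :=
    Rud.iInter _ (fun i => Rud.imp (R0.lead (f i).1).rud
      ((hW i).invMap (fun b => (b, b))).compl)
  refine ⟨_, h1, ?_⟩
  intro L hL
  obtain ⟨i, hi⟩ := hP L hL
  obtain ⟨w, hw1, hw2⟩ := hi (f i).1
  refine ⟨w, ?_⟩
  intro r
  have h2 := hw2 r (w ++ r) rfl
  have h3 : ∀ c : List Bool, c.zip c = c.map (fun b => (b, b)) := by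
    intro c
    induction c with
    | nil => rfl
    | cons a c ih => rw [List.zip_cons_cons, List.map_cons, ih]
  rw [h3] at h2
  have h4 : Lead (f i).1 (w ++ r) := hw1.append r
  rw [h2]
  simp only [Set.mem_ofPred_eq, Set.mem_compl_iff]
  constructor
  · intro h
    exact h i h4
  · intro h j hj
    have : i = j := f.injective (Fin.ext (h4.unique hj))
    rw [← this]
    exact h

/-- **Bounded multiplicity**, with finitely many languages of RUD as additional verifiers. -/
theorem bounded_multiplicity {ρ : Type} [Finite ρ] {B : ρ → Type} [∀ i, Finite (B i)]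
    (E : (i : ρ) → Set (List (B i))) (hE : ∀ i, Rud (B i) (E i)) (k j : ℕ) :
    ∃ U : Set (List Bool), Rud Bool U ∧ ∀ L, LevR E k j Bool L →
      ∃ w : List Bool, ∀ r : List Bool, w ++ r ∈ U ↔ w ++ r ∉ L :=
  diagR (uniR_lev E hE k j Bool)

end MPdee884H1
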