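import Pool.Agent.Lib.MP_dee884_lc.H1.Dyck
import Pool.Agent.Lib.MP_dee884_lc.H1.Cut

/-!
# MP_dee884_lc, bounded multiplicity: leftmost derivations as histories of a stack

The stack alphabet is `T ⊕ Bool` (terminals and bits of the codes of the nonterminals).
-/

namespace MPdee884H1

variable {T : Type} {NT : Type}

/-- the code of a symbol -/
def sy (cd : NT → List Bool) : Symbol T NT → List (T ⊕ Bool)
  | Symbol.terminal t => [Sum.inl t]
  | Symbol.nonterminal X => (cd X).map Sum.inr

/-- the code of a sentential form -/
def form (cd : NT → List Bool) (γ : List (Symbol T NT)) : List (T ⊕ Bool) :=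
  γ.flatMap (sy cd)

/-- push a word, the first letter is pushed last -/
def pushes {S : Type} (l : List S) : List (Bool × S) := l.reverse.map (fun s => (true, s))

/-- pop a word -/
def pops {S : Type} (l : List S) : List (Bool × S) := l.map (fun s => (false, s))

theorem run_pushes {S : Type} [DecidableEq S] (l : List S) (st : List S) :
    run (pushes l) st = some (l ++ st) := by
  induction l with
  | nil => simp [pushes, run]
  | cons a l ih =>
    have e : pushes (a :: l) = pushes l ++ [(true, a)] := by simp [pushes]
    rw [e, run_append, ih]
    simp [run]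

theorem run_pops {S : Type} [DecidableEq S] (l : List S) :
    ∀ st r, run (pops l) st = some r ↔ st = l ++ r := by
  induction l with
  | nil =>
    intro st r
    simp [pops, run]
  | cons a l ih =>
    intro st r
    have e : pops (a :: l) = (false, a) :: pops l := by simp [pops]
    rw [e]
    cases st with
    | nil => simp [run]
    | cons b st =>
      by_cases h : b = a
      · simp only [run, h, if_true, ih, List.cons_append, List.cons.injEq, true_and]
      · simp [run, h]

/-- the popped terminals -/
def pt (w : List (Bool × (T ⊕ Bool))) : List T :=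
  w.flatMap (fun x => match x with
    | (false, Sum.inl t) => [t]
    | _ => [])

theorem pt_append (u v : List (Bool × (T ⊕ Bool))) : pt (u ++ v) = pt u ++ pt v := by
  simp [pt]

theorem pt_pushes (l : List (T ⊕ Bool)) : pt (pushes l) = [] := by
  unfold pt pushes
  rw [List.flatMap_map]
  simp

theorem pt_pops_inr (l : List Bool) : pt (pops (l.map (Sum.inr : Bool → T ⊕ Bool))) = [] := by
  unfold pt pops
  rw [List.flatMap_map, List.flatMap_map]
  simp

theorem pt_pops_inl (t : T) : pt (pops [(Sum.inl t : T ⊕ Bool)]) = [t] := by
  simp [pt, pops]

/-- an item -/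
def IsItem (cd : NT → List Bool) (R : Set (NT × List (Symbol T NT)))
    (w : List (Bool × (T ⊕ Bool))) : Prop :=
  (∃ t, w = pops [Sum.inl t]) ∨
    ∃ X β, (X, β) ∈ R ∧ w = pops ((cd X).map Sum.inr) ++ pushes (form cd β)

theorem IsItem.ne_nil {cd : NT → List Bool} {R : Set (NT × List (Symbol T NT))}
    (hcd : ∀ X, cd X ≠ []) {w : List (Bool × (T ⊕ Bool))} (h : IsItem cd R w) : w ≠ [] := by
  rcases h with ⟨t, rfl⟩ | ⟨X, β, _, rfl⟩
  · simp [pops]
  · have := hcd X
    simp [pops, this]

theorem big_items [DecidableEq T] {cd : NT → List Bool} {l : ℕ} (hl : ∀ X, (cd X).length = l)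
    {R : Set (NT × List (Symbol T NT))} {γ : List (Symbol T NT)} {u : List T} {k : ℕ}
    (h : Big R γ u k) : ∃ ws : List (List (Bool × (T ⊕ Bool))), (∀ w ∈ ws, IsItem cd R w) ∧
      run ws.flatten (form cd γ) = some [] ∧ pt ws.flatten = u ∧
      ws.flatten.length + (form cd γ).length = 2 * (u.length + l * k) := by
  induction h with
  | nil => exact ⟨[], by simp, by simp [form, run], by simp [pt], by simp [form]⟩
  | @ter t γ u k _ ih =>
    obtain ⟨ws, h1, h2, h3, h4⟩ := ih
    refine ⟨pops [Sum.inl t] :: ws, ?_, ?_, ?_, ?_⟩
    · intro w hw
      rcases List.mem_cons.mp hw with rfl | hw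
      · exact Or.inl ⟨t, rfl⟩
      · exact h1 w hw
    · rw [List.flatten_cons, run_append]
      have e : form cd (Symbol.terminal t :: γ) = [Sum.inl t] ++ form cd γ := by
        simp [form, sy]
      rw [e, (run_pops [Sum.inl t] _ (form cd γ)).mpr rfl]
      exact h2
    · rw [List.flatten_cons, pt_append, pt_pops_inl, h3]
      rfl
    · have e : form cd (Symbol.terminal t :: γ) = [Sum.inl t] ++ form cd γ := by
        simp [form, sy]
      rw [e, List.flatten_cons]
      simp only [List.length_append, pops, List.length_map, List.length_cons, List.length_nil]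
      nlinarith [h4]
  | @non X β γ u k hX _ ih =>
    obtain ⟨ws, h1, h2, h3, h4⟩ := ih
    refine ⟨(pops ((cd X).map Sum.inr) ++ pushes (form cd β)) :: ws, ?_, ?_, ?_, ?_⟩
    · intro w hw
      rcases List.mem_cons.mp hw with rfl | hw
      · exact Or.inr ⟨X, β, hX, rfl⟩
      · exact h1 w hw
    · rw [List.flatten_cons, run_append, run_append]
      have e : form cd (Symbol.nonterminal X :: γ : List (Symbol T NT)) =
          (cd X).map Sum.inr ++ form cd γ := by
        simp [form, sy]
      rw [e, (run_pops ((cd X).map Sum.inr) _ (form cd γ)).mpr rfl, Option.bind_some,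
        run_pushes, Option.bind_some]
      have e2 : form cd β ++ form cd γ = form cd (β ++ γ) := by simp [form]
      rw [e2]
      exact h2
    · rw [List.flatten_cons, pt_append, pt_append, pt_pops_inr, pt_pushes, h3]
      rfl
    · have e : form cd (Symbol.nonterminal X :: γ : List (Symbol T NT)) =
          (cd X).map Sum.inr ++ form cd γ := by
        simp [form, sy]
      have e2 : form cd (β ++ γ) = form cd β ++ form cd γ := by simp [form]
      rw [e2] at h4
      rw [e, List.flatten_cons]
      simp only [List.length_append, pops, pushes, List.length_map, List.length_reverse,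
        hl X] at h4 ⊢
      nlinarith [h4]

theorem items_big [DecidableEq T] {cd : NT → List Bool} {l : ℕ} (hl : ∀ X, (cd X).length = l)
    (hl0 : 0 < l) {V : Set NT} (hinj : Set.InjOn cd V) {R : Set (NT × List (Symbol T NT))}
    (hR : ∀ X β, (X, β) ∈ R → X ∈ V ∧ ∀ Y, Symbol.nonterminal Y ∈ β → Y ∈ V) :
    ∀ (ws : List (List (Bool × (T ⊕ Bool)))), (∀ w ∈ ws, IsItem cd R w) →
      ∀ γ : List (Symbol T NT), (∀ Y, Symbol.nonterminal Y ∈ γ → Y ∈ V) →
        run ws.flatten (form cd γ) = some [] → ∃ k, Big R γ (pt ws.flatten) k := by
  have hne : ∀ X, cd X ≠ [] := by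
    intro X h
    have := hl X
    rw [h] at this
    simp at this
    omega
  intro ws
  induction ws with
  | nil =>
    intro _ γ _ h
    simp only [List.flatten_nil, run, Option.some.injEq] at h
    cases γ with
    | nil => exact ⟨0, by simpa [pt] using (Big.nil : Big R [] [] 0)⟩
    | cons s γ =>
      exfalso
      cases s with
      | terminal t => simp [form, sy] at h
      | nonterminal X => simp [form, sy, hne] at h
  | cons w ws ih =>
    intro hw γ hγ h
    have hw0 := hw w (by simp)
    have hws : ∀ w ∈ ws, IsItem cd R w := fun w h => hw w (by simp [h])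
    rw [List.flatten_cons, run_append] at h
    rcases hw0 with ⟨t, rfl⟩ | ⟨X, β, hX, rfl⟩
    · cases h1 : run (pops [(Sum.inl t : T ⊕ Bool)]) (form cd γ) with
      | none => simp [h1] at h
      | some r =>
        rw [h1, Option.bind_some] at h
        rw [run_pops] at h1
        cases γ with
        | nil => simp [form] at h1
        | cons s γ =>
          cases s with
          | terminal t' =>
            simp only [form, List.flatMap_cons, sy, List.cons_append, List.nil_append,
              List.cons.injEq, Sum.inl.injEq] at h1
            obtain ⟨rfl, rfl⟩ := h1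
            obtain ⟨k, hk⟩ := ih hws γ (fun Y hY => hγ Y (by simp [hY])) h
            refine ⟨k, ?_⟩
            rw [List.flatten_cons, pt_append, pt_pops_inl]
            exact Big.ter t' hk
          | nonterminal Y =>
            exfalso
            simp only [form, List.flatMap_cons, sy] at h1
            cases hY : cd Y with
            | nil => exact hne Y hY
            | cons b bs => rw [hY] at h1; simp at h1
    · rw [run_append] at h
      cases h1 : run (pops ((cd X).map (Sum.inr : Bool → T ⊕ Bool))) (form cd γ) with
      | none => simp [h1] at h
      | some r =>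
        rw [h1, Option.bind_some, run_pushes, Option.bind_some] at h
        rw [run_pops] at h1
        cases γ with
        | nil =>
          exfalso
          have := congrArg List.length h1
          simp only [form, List.flatMap_nil, List.length_nil, List.length_append,
            List.length_map, hl X] at this
          omega
        | cons s γ =>
          cases s with
          | terminal t' =>
            exfalso
            simp only [form, List.flatMap_cons, sy] at h1
            cases hY : cd X with
            | nil => exact hne X hY
            | cons b bs => rw [hY] at h1; simp at h1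
          | nonterminal Y =>
            simp only [form, List.flatMap_cons, sy] at h1
            obtain ⟨h2, h3⟩ := List.append_inj h1 (by simp [hl])
            have h4 : cd Y = cd X := List.map_injective_iff.mpr Sum.inr_injective h2
            have h5 : Y = X := hinj (hγ Y (by simp)) (hR X β hX).1 h4
            subst h5
            have h6 : run ws.flatten (form cd (β ++ γ)) = some [] := by
              rw [show form cd (β ++ γ) = form cd β ++ form cd γ by simp [form]]
              rw [show form cd γ = r from h3]
              exact h
            obtain ⟨k, hk⟩ := ih hws (β ++ γ) (by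
              intro Z hZ
              rcases List.mem_append.mp hZ with hZ | hZ
              · exact (hR Y β hX).2 Z hZ
              · exact hγ Z (by simp [hZ])) h6
            refine ⟨k + 1, ?_⟩
            rw [List.flatten_cons, pt_append, pt_append, pt_pops_inr, pt_pushes]
            exact Big.non hX (by simpa using hk)

/-- the first block -/
def start0 (g : ContextFreeGrammar T) (cd : g.NT → List Bool) : List (Bool × (T ⊕ Bool)) :=
  pushes ((cd g.initial).map Sum.inr)

/-- a context-free language in terms of stack histories over a fixed alphabet -/
theorem mem_language_hist [DecidableEq T] (g : ContextFreeGrammar T) (cd : g.NT → List Bool)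
    (l : ℕ) (hl : ∀ X, (cd X).length = l) (hl0 : 0 < l) (hinj : Set.InjOn cd (relNT g)) :
    ∃ N : ℕ,
      (∀ ws : List (List (Bool × (T ⊕ Bool))), (∀ w ∈ ws, IsItem cd (bigRules g N) w) →
        run (start0 g cd ++ ws.flatten) [] = some [] →
          pt (start0 g cd ++ ws.flatten) ∈ g.language) ∧
      ∀ u ∈ g.language, 2 * l ≤ u.length →
        ∃ ws : List (List (Bool × (T ⊕ Bool))), (∀ w ∈ ws, IsItem cd (bigRules g N) w) ∧
          run (start0 g cd ++ ws.flatten) [] = some [] ∧ pt (start0 g cd ++ ws.flatten) = u ∧
          (start0 g cd ++ ws.flatten).length ≤ 4 * u.length := by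
  obtain ⟨N, hN⟩ := exists_big g (2 * l + 1) (by omega)
  have e0 : form cd [(Symbol.nonterminal g.initial : Symbol T g.NT)] =
      (cd g.initial).map Sum.inr := by simp [form, sy]
  refine ⟨N, ?_, ?_⟩
  · intro ws hws h
    rw [start0, run_append, run_pushes, Option.bind_some, List.append_nil, ← e0] at h
    obtain ⟨k, hk⟩ := items_big hl hl0 hinj (R := bigRules g N)
      (fun X β hX => ⟨hX.1, hX.2.2.2⟩) ws hws [Symbol.nonterminal g.initial] (by
        intro Y hY
        simp only [List.mem_cons, List.not_mem_nil, or_false, Symbol.nonterminal.injEq] at hY
        exact Or.inl hY) h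
    rw [start0, pt_append, pt_pushes, List.nil_append]
    exact big_derives g hk
  · intro u hu hlen
    obtain ⟨k, hk1, hk2⟩ := hN u hu
    obtain ⟨ws, h1, h2, h3, h4⟩ := big_items hl hk1
    refine ⟨ws, h1, ?_, ?_, ?_⟩
    · rw [start0, run_append, run_pushes, Option.bind_some, List.append_nil, ← e0]
      exact h2
    · rw [start0, pt_append, pt_pushes, List.nil_append]
      exact h3
    · rw [e0] at h4
      simp only [List.length_map, hl] at h4
      simp only [start0, pushes, List.length_append, List.length_map, List.length_reverse, hl]
      have h5 : 2 * l + 1 - 1 = 2 * l := by omega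
      rw [h5] at hk2
      nlinarith

end MPdee884H1
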