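import Pool.Agent.Lib.MP_dee884_lc.H1.Hist
import Pool.Agent.Lib.MP_dee884_lc.H1.Block

/-!
# MP_dee884_lc, bounded multiplicity: uniform evaluation of the context-free languages
-/

namespace MPdee884H1

/-- letters of histories -/
abbrev Th (T : Type) : Type := Bool × (T ⊕ Bool)

/-- marked letters of histories -/
abbrev Tm (T : Type) : Type := Th T × Fin 3

/-- groups of at most four marked letters -/
abbrev Gp (T : Type) : Type := {l : List (Tm T) // l.length ≤ 4}

instance finiteGp (T : Type) [Finite T] : Finite (Gp T) :=
  (List.finite_length_le (Tm T) 4).to_subtype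

theorem exists_pack {T : Type} : ∀ (n : ℕ) (z : List (Tm T)), z.length ≤ 4 * n →
    ∃ v : List (Gp T), v.length = n ∧ v.flatMap (fun l => l.1) = z := by
  intro n
  induction n with
  | zero =>
    intro z hz
    have : z = [] := List.length_eq_zero_iff.mp (by omega)
    subst this
    exact ⟨[], rfl, rfl⟩
  | succ n ih =>
    intro z hz
    obtain ⟨v, hv1, hv2⟩ := ih (z.drop 4) (by rw [List.length_drop]; omega)
    refine ⟨⟨z.take 4, by rw [List.length_take]; omega⟩ :: v, by simp [hv1], ?_⟩
    rw [List.flatMap_cons, hv2]
    exact List.take_append_drop 4 z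

/-- `x` is accepted by the stack histories with the blocks in `P` -/
def Acc {T : Type} [DecidableEq T] (P : Set (List (Tm T))) (x : List T) : Prop :=
  ∃ z : List (Tm T), z.length ≤ 4 * x.length ∧ run (z.map Prod.fst) [] = some [] ∧
    pt (z.map Prod.fst) = x ∧ OneFirst z ∧ BlkAll P z

/-- uniform membership in context-free languages is in `R0` -/
theorem R0.acc {Y T : Type} [Finite Y] [Finite T] [DecidableEq T] (e : Kl (Th T) → List Bool)
    (a : Y → T) (c t : Y → Bool) :
    R0 Y {y | Acc {q | blkw (y.flatMap (fun l => if t l = true then [()] else [])) q ∈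
      Ent e (y.map c)} (y.map a)} := by
  have h1 : R0 (Y × Gp T) {v | run ((v.flatMap (fun l => l.2.1)).map Prod.fst) [] = some []} := by
    refine ((R0.dyck (S := T ⊕ Bool)).inv (A := Y × Gp T)
      (fun l => l.2.1.map Prod.fst)).congr ?_
    intro v
    simp only [Set.mem_ofPred_eq, List.map_flatMap]
  have h2 : R0 (Y × Gp T) {v | pt ((v.flatMap (fun l => l.2.1)).map Prod.fst) =
      v.map (fun l => a l.1)} := by
    refine (R0.eqf (A := Y × Gp T) (B := T)
      (fun l => pt (l.2.1.map Prod.fst)) (fun l => [a l.1])).congr ?_
    intro v
    have e1 : v.flatMap (fun l => pt (l.2.1.map Prod.fst)) =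
        pt ((v.flatMap (fun l => l.2.1)).map Prod.fst) := by
      unfold pt
      rw [List.map_flatMap, List.flatMap_assoc]
    have e2 : v.flatMap (fun l => [a l.1]) = v.map (fun l => a l.1) := by
      clear e1
      induction v with
      | nil => rfl
      | cons b v ih => simp [ih]
    simp only [Set.mem_ofPred_eq, e1, e2]
  have h3 : R0 (Y × Gp T) {v | OneFirst (v.flatMap (fun l => l.2.1))} :=
    (R0.oneFirst (X := Th T)).inv (A := Y × Gp T) (fun l => l.2.1)
  have h4 : R0 (Y × Gp T) {v | BlkAll {q | blkw (v.flatMap
      (fun l => if t l.1 = true then [()] else [])) q ∈ Ent e (v.map (fun l => c l.1))}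
        (v.flatMap (fun l => l.2.1))} := by
    refine ((R0.blkAll (X := Th T) e).inv (A := Y × Gp T)
      (fun l => Sum.inl (c l.1) :: ((if t l.1 = true then [Sum.inr (Sum.inl ())] else []) ++
        l.2.1.map (fun x => Sum.inr (Sum.inr x))))).congr ?_
    intro v
    have e1 : zz (v.flatMap (fun l => (Sum.inl (c l.1) ::
        ((if t l.1 = true then [Sum.inr (Sum.inl ())] else []) ++
        l.2.1.map (fun x => Sum.inr (Sum.inr x))) : List (Dl (Th T))))) =
        v.flatMap (fun l => l.2.1) := by
      unfold zz
      rw [List.flatMap_assoc]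
      congr 1
      funext l
      by_cases ht : t l.1 = true <;> simp [List.flatMap_cons, List.flatMap_map, ht]
    have e2 : cc (v.flatMap (fun l => (Sum.inl (c l.1) ::
        ((if t l.1 = true then [Sum.inr (Sum.inl ())] else []) ++
        l.2.1.map (fun x => Sum.inr (Sum.inr x))) : List (Dl (Th T))))) =
        v.map (fun l => c l.1) := by
      clear e1
      unfold cc
      rw [List.flatMap_assoc]
      induction v with
      | nil => rfl
      | cons b v ih =>
        rw [List.flatMap_cons, ih]
        by_cases ht : t b.1 = true <;> simp [List.flatMap_cons, List.flatMap_map, ht]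
    have e3 : uu (v.flatMap (fun l => (Sum.inl (c l.1) ::
        ((if t l.1 = true then [Sum.inr (Sum.inl ())] else []) ++
        l.2.1.map (fun x => Sum.inr (Sum.inr x))) : List (Dl (Th T))))) =
        v.flatMap (fun l => if t l.1 = true then [()] else []) := by
      clear e1 e2
      unfold uu
      rw [List.flatMap_assoc]
      congr 1
      funext l
      by_cases ht : t l.1 = true <;> simp [List.flatMap_cons, List.flatMap_map, ht]
    simp only [Set.mem_ofPred_eq, e1, e2, e3]
  refine (R0.img (fun l : Y × Gp T => l.1) (h1.inter (h2.inter (h3.inter h4)))).congr ?_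
  intro y
  simp only [Set.mem_ofPred_eq, Set.mem_inter_iff, Acc]
  constructor
  · rintro ⟨v, ⟨g1, g2, g3, g4⟩, rfl⟩
    refine ⟨v.flatMap (fun l => l.2.1), ?_, g1, ?_, g3, ?_⟩
    · rw [List.length_map, List.length_map]
      clear g1 g2 g3 g4
      induction v with
      | nil => simp
      | cons b v ih =>
        rw [List.flatMap_cons, List.length_append, List.length_cons]
        have := b.2.2
        omega
    · rw [g2, List.map_map]
      rfl
    · rw [List.flatMap_map, List.map_map]
      exact g4
  · rintro ⟨z, g0, g1, g2, g3, g4⟩
    obtain ⟨p, hp1, hp2⟩ := exists_pack (T := T) y.length z (by simpa using g0)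
    have k1 : (y.zip p).map (fun l => l.1) = y := List.map_fst_zip (by omega)
    have k2 : (y.zip p).map (fun l => l.2) = p := List.map_snd_zip (by omega)
    have k3 : (y.zip p).flatMap (fun l => l.2.1) = z := by
      rw [← hp2]
      nth_rewrite 2 [← k2]
      rw [List.flatMap_map]
    refine ⟨y.zip p, ⟨?_, ?_, ?_, ?_⟩, k1⟩
    · rw [k3]; exact g1
    · rw [k3, g2]
      nth_rewrite 1 [← k1]
      rw [List.map_map]
      rfl
    · rw [k3]; exact g3
    · rw [k3]
      have k4 : (y.zip p).flatMap (fun l => if t l.1 = true then [()] else []) =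
          y.flatMap (fun l => if t l = true then [()] else []) := by
        nth_rewrite 2 [← k1]
        rw [List.flatMap_map]
      have k5 : (y.zip p).map (fun l => c l.1) = y.map c := by
        nth_rewrite 2 [← k1]
        rw [List.map_map]
        rfl
      rw [k4, k5]
      exact g4

/-- an injective code of a finite set of nonterminals -/
theorem exists_cd {NT : Type} (V : Set NT) (hV : V.Finite) :
    ∃ (cd : NT → List Bool) (l : ℕ), (∀ X, (cd X).length = l) ∧ 0 < l ∧ Set.InjOn cd V := by
  classical
  have := hV.to_subtype
  obtain ⟨N, ⟨f⟩⟩ := Finite.exists_equiv_fin V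
  refine ⟨fun X => (List.range (N + 1)).map
    (fun i => if h : X ∈ V then decide (i = (f ⟨X, h⟩).1) else false), N + 1, ?_, by omega, ?_⟩
  · intro X
    simp
  · intro X hX Y hY h
    simp only [hX, hY, dite_true] at h
    have h1 := List.map_inj_left.mp h (f ⟨X, hX⟩).1
      (List.mem_range.mpr (by have := (f ⟨X, hX⟩).2; omega))
    simp only [decide_true] at h1
    have h2 : (f ⟨X, hX⟩).1 = (f ⟨Y, hY⟩).1 := by simpa using h1.symm
    have h3 := f.injective (Fin.ext h2)
    simpa using h3

/-- the blocks of a grammar -/
def Blks {T NT : Type} (cd : NT → List Bool) (R : Set (NT × List (Symbol T NT)))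
    (st : List (Th T)) : Set (List (Tm T)) :=
  {q | q = markw 1 st ∨ ∃ w, IsItem cd R w ∧ q = markw 2 w}

theorem blks_finite {T NT : Type} [Finite T] (cd : NT → List Bool)
    (R : Set (NT × List (Symbol T NT))) (hR : R.Finite) (st : List (Th T)) :
    (Blks cd R st).Finite := by
  have h1 : Set.Finite {w : List (Th T) | IsItem cd R w} := by
    have : {w : List (Th T) | IsItem cd R w} ⊆
        Set.range (fun t : T => pops [(Sum.inl t : T ⊕ Bool)]) ∪
          (fun p : NT × List (Symbol T NT) =>
            pops ((cd p.1).map Sum.inr) ++ pushes (form cd p.2)) '' R := by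
      rintro w (⟨t, rfl⟩ | ⟨X, β, h, rfl⟩)
      · left; exact ⟨t, rfl⟩
      · right; exact ⟨(X, β), h, rfl⟩
    exact Set.Finite.subset (Set.Finite.union (Set.finite_range _) (hR.image _)) this
  have h2 : Blks cd R st ⊆ {markw 1 st} ∪ (markw 2) '' {w : List (Th T) | IsItem cd R w} := by
    rintro q (rfl | ⟨w, h, rfl⟩)
    · left; rfl
    · right; exact ⟨w, h, rfl⟩
  exact Set.Finite.subset (Set.Finite.union (Set.finite_singleton _) (h1.image _)) h2

theorem markw_injective {X : Type} (j : Fin 3) : Function.Injective (markw (X := X) j) := by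
  intro u v h
  rw [← map_fst_markw j u, h, map_fst_markw]

theorem flatten_markw_fst {X : Type} (j : Fin 3) (ws : List (List X)) :
    ((ws.map (markw j)).flatten).map Prod.fst = ws.flatten := by
  induction ws with
  | nil => rfl
  | cons w ws ih =>
    rw [List.map_cons, List.flatten_cons, List.map_append, ih, map_fst_markw, List.flatten_cons]

/-- correctness of the certificates for one grammar -/
theorem acc_correct {T : Type} [Finite T] [DecidableEq T] (g : ContextFreeGrammar T) :
    ∃ (B : Set (List (Tm T))) (n0 : ℕ), B.Finite ∧ (∀ q ∈ B, q ≠ []) ∧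
      ∀ P : Set (List (Tm T)), (∀ q, q ≠ [] → (q ∈ P ↔ q ∈ B)) →
        ∀ x : List T, n0 ≤ x.length → (x ∈ g.language ↔ Acc P x) := by
  obtain ⟨cd, l, hl, hl0, hinj⟩ := exists_cd (relNT g) (relNT_finite g)
  obtain ⟨N, hN1, hN2⟩ := mem_language_hist g cd l hl hl0 hinj
  have hcd : ∀ X, cd X ≠ [] := by
    intro X h
    have := hl X
    rw [h] at this
    simp at this
    omega
  have hst : start0 g cd ≠ [] := by
    intro h
    have := congrArg List.length h
    simp only [start0, pushes, List.length_map, List.length_reverse, hl,
      List.length_nil] at this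
    omega
  refine ⟨Blks cd (bigRules g N) (start0 g cd), 2 * l,
    blks_finite cd _ (bigRules_finite g N) _, ?_, ?_⟩
  · rintro q (rfl | ⟨w, hw, rfl⟩) h
    · have := map_fst_markw 1 (start0 g cd)
      rw [h] at this
      exact hst this.symm
    · have := map_fst_markw 2 w
      rw [h] at this
      exact hw.ne_nil hcd this.symm
  · intro P hB x hx
    constructor
    · intro hxL
      obtain ⟨ws, h1, h2, h3, h4⟩ := hN2 x hxL hx
      have hW : ∀ w ∈ markw 1 (start0 g cd) :: ws.map (markw 2), IsB w := by
        intro w hw
        rcases List.mem_cons.mp hw with rfl | hw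
        · exact isB_markw (by decide) hst
        · obtain ⟨w', hw', rfl⟩ := List.mem_map.mp hw
          exact isB_markw (by decide) ((h1 w' hw').ne_nil hcd)
      have hfst : ((markw 1 (start0 g cd) :: ws.map (markw 2)).flatten).map Prod.fst =
          start0 g cd ++ ws.flatten := by
        rw [List.flatten_cons, List.map_append, map_fst_markw, flatten_markw_fst]
      refine ⟨(markw 1 (start0 g cd) :: ws.map (markw 2)).flatten, ?_, ?_, ?_, ?_, ?_⟩
      · rw [← List.length_map (f := Prod.fst), hfst]
        exact h4
      · rw [hfst]; exact h2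
      · rw [hfst]; exact h3
      · cases hs : start0 g cd with
        | nil => exact absurd hs hst
        | cons a w =>
          refine ⟨a, w.map (fun b => (b, 0)) ++ (ws.map (markw 2)).flatten, ?_, ?_⟩
          · simp [markw]
          · intro y hy
            rcases List.mem_append.mp hy with hy | hy
            · obtain ⟨b, _, rfl⟩ := List.mem_map.mp hy
              simp
            · obtain ⟨l', hl1, hl2⟩ := List.mem_flatten.mp hy
              obtain ⟨w', _, rfl⟩ := List.mem_map.mp hl1
              cases w' with
              | nil => simp [markw] at hl2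
              | cons b w' =>
                simp only [markw, List.mem_cons] at hl2
                rcases hl2 with rfl | hl2
                · simp
                · obtain ⟨b', _, rfl⟩ := List.mem_map.mp hl2
                  simp
      · intro q1 q q2 hq hq1 hq2
        have hmem := block_mem _ hW q1 q q2 hq hq1 hq2
        have hne : q ≠ [] := by
          obtain ⟨a, j, q', _, rfl, _⟩ := hq1
          simp
        refine (hB q hne).mpr ?_
        rcases List.mem_cons.mp hmem with rfl | hmem
        · exact Or.inl rfl
        · obtain ⟨w', hw', rfl⟩ := List.mem_map.mp hmem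
          exact Or.inr ⟨w', h1 w' hw', rfl⟩
    · rintro ⟨z, _, h1, h2, h3, h4⟩
      obtain ⟨a, z', hz1, hz2⟩ := h3
      obtain ⟨W, hW1, hW2⟩ := exists_blocks P z.length z le_rfl
        (by rw [hz1]; exact Or.inr ⟨a, 1, z', by decide, rfl⟩) h4
      have hW3 : ∀ w ∈ W, w ∈ Blks cd (bigRules g N) (start0 g cd) := by
        intro w hw
        obtain ⟨g1, g2⟩ := hW2 w hw
        refine (hB w ?_).mp g1
        obtain ⟨a, j, q', _, rfl, _⟩ := g2
        simp
      cases W with
      | nil =>
        rw [hz1] at hW1
        simp at hW1
      | cons w0 W =>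
        have hw0 := hW3 w0 (by simp)
        have hb0 := (hW2 w0 (by simp)).2
        rw [hz1, List.flatten_cons] at hW1
        obtain ⟨b, j, q', hj, rfl, hq'⟩ := hb0
        simp only [List.cons_append, List.cons.injEq, Prod.mk.injEq] at hW1
        obtain ⟨⟨rfl, rfl⟩, hW1⟩ := hW1
        have hw1 : (a, (1 : Fin 3)) :: q' = markw 1 (start0 g cd) := by
          rcases hw0 with h | ⟨w, hw, h⟩
          · exact h
          · exfalso
            cases w with
            | nil => simp [markw] at h
            | cons d w => simp [markw] at h
        have hW4 : ∀ w ∈ W, ∃ w', IsItem cd (bigRules g N) w' ∧ w = markw 2 w' := by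
          intro w hw
          rcases hW3 w (by simp [hw]) with h | h
          · exfalso
            have h6 : (a, (1 : Fin 3)) ∈ z' := by
              rw [hW1]
              refine List.mem_append_right _ (List.mem_flatten.mpr ⟨w, hw, ?_⟩)
              rw [h, ← hw1]
              simp
            exact hz2 _ h6 rfl
          · exact h
        have hW5 : ∀ W : List (List (Tm T)),
            (∀ w ∈ W, ∃ w', IsItem cd (bigRules g N) w' ∧ w = markw 2 w') →
              ∃ ws : List (List (Th T)), (∀ w ∈ ws, IsItem cd (bigRules g N) w) ∧
                W = ws.map (markw 2) := by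
          intro W
          induction W with
          | nil => intro _; exact ⟨[], by simp, rfl⟩
          | cons w W ih =>
            intro h
            obtain ⟨ws, g1, g2⟩ := ih (fun w hw => h w (by simp [hw]))
            obtain ⟨w', g3, g4⟩ := h w (by simp)
            refine ⟨w' :: ws, ?_, by simp [g2, g4]⟩
            intro u hu
            rcases List.mem_cons.mp hu with rfl | hu
            · exact g3
            · exact g1 u hu
        obtain ⟨ws, g1, rfl⟩ := hW5 W hW4
        have hfst : z.map Prod.fst = start0 g cd ++ ws.flatten := by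
          rw [hz1, hW1, ← List.cons_append, hw1, List.map_append, map_fst_markw,
            flatten_markw_fst]
        rw [hfst] at h1 h2
        have := hN1 ws g1 h1
        rw [h2] at this
        exact this

end MPdee884H1
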